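import Mathlib

set_option autoImplicit false
set_option linter.unusedSimpArgs false

namespace Pool.Agent.Work.MP_c4d6c8_mp

open MvPolynomial

section
variable {T : Type*} [CommRing T]

/-- `dvM μ = ∂ + μ`, where `∂ v_k = v_{k+1}`. -/
noncomputable def dv : Derivation T (MvPolynomial ℕ T) (MvPolynomial ℕ T) :=
  mkDerivation T (fun k => X (k + 1))

noncomputable def dvM (μ : T) : MvPolynomial ℕ T →ₗ[T] MvPolynomial ℕ T :=
  (dv (T := T) : MvPolynomial ℕ T →ₗ[T] MvPolynomial ℕ T) + μ • LinearMap.id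

lemma dvM_apply (μ : T) (A : MvPolynomial ℕ T) : dvM μ A = dv A + C μ * A := by
  simp [dvM, MvPolynomial.C_mul']

lemma dvM_zero (A : MvPolynomial ℕ T) : dvM 0 A = dv A := by simp [dvM_apply]

@[simp] lemma dv_X (k : ℕ) : dv (T := T) (X k) = X (k + 1) := by simp [dv]

/-- the derivation `v_k ↦ (∂+μ)^k Z`. -/
noncomputable def evoM (μ : T) (Z : MvPolynomial ℕ T) :
    Derivation T (MvPolynomial ℕ T) (MvPolynomial ℕ T) :=
  mkDerivation T (fun k => (dvM μ)^[k] Z)

@[simp] lemma evoM_X (μ : T) (Z : MvPolynomial ℕ T) (k : ℕ) :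
    evoM μ Z (X k) = (dvM μ)^[k] Z := by simp [evoM]

/-- the evolutionary derivation `v_k ↦ ∂^k Z`. -/
noncomputable abbrev evo (Z : MvPolynomial ℕ T) := evoM (0 : T) Z

lemma iter_add (μ : T) (k : ℕ) (A B : MvPolynomial ℕ T) :
    (dvM μ)^[k] (A + B) = (dvM μ)^[k] A + (dvM μ)^[k] B := by
  induction k generalizing A B with
  | zero => rfl
  | succ n ih => simp [Function.iterate_succ_apply, ih]

lemma iter_smul (μ : T) (k : ℕ) (a : T) (A : MvPolynomial ℕ T) :
    (dvM μ)^[k] (a • A) = a • (dvM μ)^[k] A := by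
  induction k generalizing A with
  | zero => rfl
  | succ n ih => simp [Function.iterate_succ_apply, ih]

lemma iter_zero (μ : T) (k : ℕ) : (dvM μ)^[k] (0 : MvPolynomial ℕ T) = 0 := by
  induction k with
  | zero => rfl
  | succ n ih => simp [Function.iterate_succ_apply, ih]

lemma iter_sub (μ : T) (k : ℕ) (A B : MvPolynomial ℕ T) :
    (dvM μ)^[k] (A - B) = (dvM μ)^[k] A - (dvM μ)^[k] B := by
  induction k generalizing A B with
  | zero => rfl
  | succ n ih => simp [Function.iterate_succ_apply, ih]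

lemma evoM_add_left (μ : T) (Z Z' A : MvPolynomial ℕ T) :
    evoM μ (Z + Z') A = evoM μ Z A + evoM μ Z' A := by
  have : evoM μ (Z + Z') = evoM μ Z + evoM μ Z' := by
    apply derivation_ext; intro k; simp [iter_add]
  rw [this]; rfl

lemma evoM_sub_left (μ : T) (Z Z' A : MvPolynomial ℕ T) :
    evoM μ (Z - Z') A = evoM μ Z A - evoM μ Z' A := by
  have : evoM μ (Z - Z') = evoM μ Z - evoM μ Z' := by
    apply derivation_ext; intro k; simp [iter_sub]
  rw [this]; rfl

lemma evoM_smul_left (μ a : T) (Z A : MvPolynomial ℕ T) :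
    evoM μ (a • Z) A = a • evoM μ Z A := by
  have : evoM μ (a • Z) = a • evoM μ Z := by
    apply derivation_ext; intro k; simp [iter_smul]
  rw [this]; rfl

lemma evoM_zero_left (μ : T) (A : MvPolynomial ℕ T) : evoM μ 0 A = 0 := by
  have : evoM μ (0 : MvPolynomial ℕ T) = 0 := by
    apply derivation_ext; intro k; simp [iter_zero]
  rw [this]; rfl

lemma evoM_C_mul_left (μ a : T) (Z A : MvPolynomial ℕ T) :
    evoM μ (C a * Z) A = C a * evoM μ Z A := by
  rw [← smul_eq_C_mul, evoM_smul_left, smul_eq_C_mul]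

lemma evoM_neg_left (μ : T) (Z A : MvPolynomial ℕ T) :
    evoM μ (-Z) A = - evoM μ Z A := by
  have := evoM_sub_left μ 0 Z A
  simpa [evoM_zero_left] using this

/-- two derivations that commute on generators commute -/
lemma comm_of_X (D E : Derivation T (MvPolynomial ℕ T) (MvPolynomial ℕ T))
    (h : ∀ k, D (E (X k)) = E (D (X k))) (A : MvPolynomial ℕ T) : D (E A) = E (D A) := by
  have : ⁅D, E⁆ = 0 := by
    apply derivation_ext; intro k
    simp [Derivation.commutator_apply, h k]
  have h2 := congrArg (fun F => F A) this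
  simp only [Derivation.commutator_apply, Derivation.zero_apply] at h2
  exact sub_eq_zero.mp h2

lemma comm_eq (D E F : Derivation T (MvPolynomial ℕ T) (MvPolynomial ℕ T))
    (h : ∀ k, D (E (X k)) - E (D (X k)) = F (X k)) (A : MvPolynomial ℕ T) :
    D (E A) = E (D A) + F A := by
  have : ⁅D, E⁆ = F := by
    apply derivation_ext; intro k
    simp [Derivation.commutator_apply, h k]
  have h2 := congrArg (fun F => F A) this
  simp only [Derivation.commutator_apply] at h2
  rw [← h2]; ring

lemma iter_dvM_succ (μ : T) (k : ℕ) (Z : MvPolynomial ℕ T) :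
    (dvM μ)^[k + 1] Z = dvM μ ((dvM μ)^[k] Z) := Function.iterate_succ_apply' _ _ _

lemma dv_evo (Z A : MvPolynomial ℕ T) : dv (evo Z A) = evo Z (dv A) := by
  apply comm_of_X
  intro k
  rw [dv_X, evoM_X, evoM_X, iter_dvM_succ, dvM_zero]

lemma dv_iter_evo (Z A : MvPolynomial ℕ T) (k : ℕ) :
    (dvM 0)^[k] (evo Z A) = evo Z ((dvM 0)^[k] A) := by
  induction k with
  | zero => rfl
  | succ n ih => rw [iter_dvM_succ, ih, dvM_zero, dv_evo, ← dvM_zero, ← iter_dvM_succ]

lemma evo_evo (P Q A : MvPolynomial ℕ T) :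
    evo P (evo Q A) = evo Q (evo P A) + evo (evo P Q - evo Q P) A := by
  apply comm_eq
  intro k
  rw [evoM_X, evoM_X, evoM_X, iter_sub, dv_iter_evo, dv_iter_evo]

lemma evo_X1 (A : MvPolynomial ℕ T) : evo (X 1) A = dv A := by
  have : evo (X 1 : MvPolynomial ℕ T) = dv := by
    apply derivation_ext; intro k
    rw [evoM_X, dv_X]
    induction k with
    | zero => rfl
    | succ n ih => rw [iter_dvM_succ, ih, dvM_zero, dv_X]
  rw [this]

/-- potential bracket `{A,B} = A_*(∂B) - B_*(∂A)` -/
noncomputable def pb (A B : MvPolynomial ℕ T) : MvPolynomial ℕ T :=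
  evo (dv B) A - evo (dv A) B

lemma pb_add_right (A B B' : MvPolynomial ℕ T) : pb A (B + B') = pb A B + pb A B' := by
  simp only [pb, map_add, evoM_add_left]; ring

lemma pb_sub_right (A B B' : MvPolynomial ℕ T) : pb A (B - B') = pb A B - pb A B' := by
  simp only [pb, map_sub, evoM_sub_left]; ring

lemma pb_add_left (A A' B : MvPolynomial ℕ T) : pb (A + A') B = pb A B + pb A' B := by
  simp only [pb, map_add, evoM_add_left]; ring

lemma pb_sub_left (A A' B : MvPolynomial ℕ T) : pb (A - A') B = pb A B - pb A' B := by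
  simp only [pb, map_sub, evoM_sub_left]; ring

lemma pb_antisymm (A B : MvPolynomial ℕ T) : pb A B = - pb B A := by
  simp only [pb]; ring

lemma pb_self (A : MvPolynomial ℕ T) : pb A A = 0 := by simp [pb]

lemma pb_C_mul_left (a : T) (A B : MvPolynomial ℕ T) : pb (C a * A) B = C a * pb A B := by
  simp only [pb, Derivation.leibniz, derivation_C, smul_eq_mul, mul_zero, add_zero,
    evoM_C_mul_left]
  ring

lemma pb_C_mul_right (a : T) (A B : MvPolynomial ℕ T) : pb A (C a * B) = C a * pb A B := by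
  rw [pb_antisymm, pb_C_mul_left, pb_antisymm B A]; ring

lemma pb_C_left (a : T) (B : MvPolynomial ℕ T) : pb (C a) B = 0 := by
  simp [pb, evoM_zero_left]

lemma pb_zero_right (A : MvPolynomial ℕ T) : pb A 0 = 0 := by
  simp [pb, evoM_zero_left]

lemma pb_zero_left (A : MvPolynomial ℕ T) : pb 0 A = 0 := by
  simp [pb, evoM_zero_left]

lemma pb_neg_right (A B : MvPolynomial ℕ T) : pb A (-B) = - pb A B := by
  have := pb_sub_right A 0 B
  simpa [pb_zero_right] using this

lemma pb_X0 (B : MvPolynomial ℕ T) : pb (X 0) B = 0 := by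
  simp [pb, evo_X1]

lemma evo_pb (A B Z : MvPolynomial ℕ T) :
    evo (dv (pb A B)) Z = evo (dv B) (evo (dv A) Z) - evo (dv A) (evo (dv B) Z) := by
  have h := evo_evo (dv B) (dv A) Z
  rw [h]
  simp only [pb, map_sub, dv_evo]
  ring

lemma pb_jacobi (A B Z : MvPolynomial ℕ T) :
    pb A (pb B Z) = pb (pb A B) Z + pb B (pb A Z) := by
  have h1 : pb A (pb B Z) = evo (dv (pb B Z)) A - evo (dv A) (pb B Z) := rfl
  have h2 : pb (pb A B) Z = evo (dv Z) (pb A B) - evo (dv (pb A B)) Z := rfl
  have h3 : pb B (pb A Z) = evo (dv (pb A Z)) B - evo (dv B) (pb A Z) := rfl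
  rw [h1, h2, h3, evo_pb, evo_pb, evo_pb]
  simp only [pb, map_sub]
  ring

lemma dv_pb (A B : MvPolynomial ℕ T) :
    dv (pb A B) = evo (dv B) (dv A) - evo (dv A) (dv B) := by
  simp only [pb, map_sub, dv_evo]

/-- the derivation `v_k ↦ v_{k+s}` -/
noncomputable def sh (s : ℕ) : Derivation T (MvPolynomial ℕ T) (MvPolynomial ℕ T) :=
  mkDerivation T (fun k => X (k + s))

@[simp] lemma sh_X (s k : ℕ) : sh (T := T) s (X k) = X (k + s) := by simp [sh]

lemma iter_dv_X (k s : ℕ) : (dvM (0 : T))^[k] (X s) = X (k + s) := by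
  induction k with
  | zero => simp
  | succ n ih => rw [iter_dvM_succ, ih, dvM_zero, dv_X]; congr 1; ring

lemma evo_X (s : ℕ) (A : MvPolynomial ℕ T) : evo (X s) A = sh s A := by
  have : evo (X s : MvPolynomial ℕ T) = sh s := by
    apply derivation_ext; intro k
    rw [evoM_X, sh_X, iter_dv_X]
  rw [this]

lemma pb_X2 (A : MvPolynomial ℕ T) : pb (X 2) A = dv (dv (dv A)) - sh 3 A := by
  simp only [pb, dv_X, evo_X, evoM_X, Function.iterate_succ, Function.iterate_zero,
    Function.comp, dvM_zero, id]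

lemma pb_X4 (A : MvPolynomial ℕ T) :
    pb (X 4) A = dv (dv (dv (dv (dv A)))) - sh 5 A := by
  simp only [pb, dv_X, evo_X, evoM_X, Function.iterate_succ, Function.iterate_zero,
    Function.comp, dvM_zero, id]

/-- directional derivative `∇_x : v_k ↦ x^k` -/
noncomputable def nab (x : T) : Derivation T (MvPolynomial ℕ T) (MvPolynomial ℕ T) :=
  mkDerivation T (fun k => C (x ^ k))

@[simp] lemma nab_X (x : T) (k : ℕ) : nab x (X k) = C (x ^ k) := by simp [nab]

lemma nab_comm (x y : T) (A : MvPolynomial ℕ T) : nab x (nab y A) = nab y (nab x A) := by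
  apply comm_of_X; intro k; simp

lemma nab_dv (x : T) (A : MvPolynomial ℕ T) :
    nab x (dv A) = dv (nab x A) + C x * nab x A := by
  have := comm_eq (nab x) (dv (T := T)) (x • nab x) (by
    intro k; simp [pow_succ, mul_comm, smul_eq_C_mul]) A
  rw [this]; simp [smul_eq_C_mul]

lemma nab_dvM (x μ : T) (A : MvPolynomial ℕ T) :
    nab x (dvM μ A) = dvM (μ + x) (nab x A) := by
  simp only [dvM_apply, map_add, nab_dv, Derivation.leibniz, derivation_C, smul_eq_mul]
  ring

lemma nab_iter (x μ : T) (k : ℕ) (Z : MvPolynomial ℕ T) :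
    nab x ((dvM μ)^[k] Z) = (dvM (μ + x))^[k] (nab x Z) := by
  induction k with
  | zero => rfl
  | succ n ih => rw [iter_dvM_succ, nab_dvM, ih, ← iter_dvM_succ]

lemma dvM_C (μ a : T) : dvM μ (C a) = C (μ * a) := by simp [dvM_apply]

lemma iter_dvM_C (μ a : T) (k : ℕ) : (dvM μ)^[k] (C a) = C (μ ^ k * a) := by
  induction k with
  | zero => simp
  | succ n ih => rw [iter_dvM_succ, ih, dvM_C, pow_succ]; congr 1; ring

lemma evoM_C_left (μ a : T) (A : MvPolynomial ℕ T) : evoM μ (C a) A = C a * nab μ A := by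
  have : evoM μ (C a : MvPolynomial ℕ T) = a • nab μ := by
    apply derivation_ext; intro k
    simp [iter_dvM_C, smul_eq_C_mul, mul_comm]
  rw [this]; simp [smul_eq_C_mul]

lemma nab_evoM (x μ : T) (Z A : MvPolynomial ℕ T) :
    nab x (evoM μ Z A) = evoM μ Z (nab x A) + evoM (μ + x) (nab x Z) A := by
  apply comm_eq
  intro k
  rw [evoM_X, nab_X, derivation_C, sub_zero, nab_iter, evoM_X]

lemma cc_dvM (μ : T) (A : MvPolynomial ℕ T) :
    constantCoeff (dvM μ A) = μ * constantCoeff A := by
  have h : ∀ A : MvPolynomial ℕ T, constantCoeff (dv A) = 0 := by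
    intro A
    induction A using MvPolynomial.induction_on with
    | C a => simp
    | add p q hp hq => simp [hp, hq]
    | mul_X p i hp => simp [Derivation.leibniz, hp]
  simp [dvM_apply, h]

lemma cc_dv (A : MvPolynomial ℕ T) : constantCoeff (dv A) = 0 := by
  have := cc_dvM 0 A; rw [dvM_zero] at this; simpa using this

lemma cc_iter (μ : T) (k : ℕ) (A : MvPolynomial ℕ T) :
    constantCoeff ((dvM μ)^[k] A) = μ ^ k * constantCoeff A := by
  induction k with
  | zero => simp
  | succ n ih => rw [iter_dvM_succ, cc_dvM, ih, pow_succ]; ring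

lemma cc_evoM (μ : T) (Z A : MvPolynomial ℕ T) :
    constantCoeff (evoM μ Z A) = constantCoeff Z * constantCoeff (nab μ A) := by
  induction A using MvPolynomial.induction_on with
  | C a => simp
  | add p q hp hq => simp only [map_add, hp, hq]; ring
  | mul_X p i hp =>
    simp only [Derivation.leibniz, smul_eq_mul, map_add, map_mul, hp, constantCoeff_X,
      evoM_X, nab_X, cc_iter, constantCoeff_C]
    ring

end

end Pool.Agent.Work.MP_c4d6c8_mp
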