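import Pool.Agent.Work.MP_c4d6c8_mp.Comp

set_option autoImplicit false
set_option linter.unusedSimpArgs false

namespace Pool.Agent.Work.MP_c4d6c8_mp

open MvPolynomial

section
variable {T : Type*} [CommRing T]

lemma ev1_pa (x : T) {A : MvPolynomial ℕ T} {m : ℕ} (h : Pa A m) (hm : m ≠ 1) :
    ev1 x A = 0 := by
  rcases m with _ | _ | m
  · rw [ev1, nab_pa0 x h]; simp
  · exact absurd rfl hm
  · rw [ev1]; exact cc_pa (nab_pa x h)

lemma ev1_sum (x : T) {ι : Type*} (s : Finset ι) (A : ι → MvPolynomial ℕ T) :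
    ev1 x (∑ i ∈ s, A i) = ∑ i ∈ s, ev1 x (A i) := by
  simp [ev1, map_sum]

lemma ev1_comp (x : T) (A : MvPolynomial ℕ T) : ev1 x A = ev1 x (comp 1 A) := by
  obtain ⟨N, hN⟩ := sum_comp A
  by_cases h : 1 < N
  · conv_lhs => rw [hN]
    rw [ev1_sum, Finset.sum_eq_single 1]
    · intro m _ hm; exact ev1_pa x (comp_pa m A) hm
    · intro h2; exact absurd (Finset.mem_range.2 h) h2
  · have h3 : comp 1 A = 0 := by
      conv_lhs => rw [hN]
      rw [comp, map_sum]
      apply Finset.sum_eq_zero
      intro m hm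
      have hm2 : m ≠ 1 := by have := Finset.mem_range.1 hm; omega
      rw [weightedHomogeneousComponent_of_mem
        ((mem_weightedHomogeneousSubmodule _ _ _ _).2 (comp_pa m A)), if_neg (Ne.symm hm2)]
    rw [h3]
    conv_lhs => rw [hN]
    rw [ev1_sum]
    have h4 : ev1 x (0 : MvPolynomial ℕ T) = 0 := by simp [ev1]
    rw [h4]
    apply Finset.sum_eq_zero
    intro m hm
    exact ev1_pa x (comp_pa m A) (by have := Finset.mem_range.1 hm; omega)

lemma lin_part {A : MvPolynomial ℕ T} {r : ℕ} (hA : Wt A (r + 2)) :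
    comp 1 A = C (coeff (Finsupp.single r 1) A) * X r := by
  classical
  ext d
  rw [coeff_weightedHomogeneousComponent, coeff_C_mul, coeff_X]
  by_cases hd : Finsupp.single r 1 = d
  · rw [if_pos hd, ← hd, if_pos, mul_one]
    rw [Finsupp.weight_single]; simp [pw]
  · rw [if_neg hd, mul_zero]
    split_ifs with h1
    · obtain ⟨α, rfl⟩ := exists_tp h1
      by_contra hne
      have h2 := hA hne
      rw [weight_wt_tp] at h2
      apply hd
      rw [tp]
      simp only [Finset.univ_unique, Fin.default_eq_zero, Fin.isValue, Finset.sum_singleton]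
      congr 1
      rw [Finsupp.degree_eq_sum] at h2
      simp at h2
      omega
    · rfl

lemma ev1_wt (x : T) {A : MvPolynomial ℕ T} {r : ℕ} (hA : Wt A (r + 2)) :
    ev1 x A = coeff (Finsupp.single r 1) A * x ^ r := by
  rw [ev1_comp, lin_part hA, ev1, Derivation.leibniz, derivation_C, nab_X]
  simp [mul_comm]

lemma ev2_nab (x y : T) (A : MvPolynomial ℕ T) : ev2 x y A = ev1 x (nab y A) := rfl
lemma ev3_nab (x y z : T) (A : MvPolynomial ℕ T) : ev3 x y z A = ev2 x y (nab z A) := rfl
lemma ev4_nab (x y z w : T) (A : MvPolynomial ℕ T) : ev4 x y z w A = ev3 x y z (nab w A) := rfl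

/-- first order expansion -/
lemma eps_nab {e : T} (he : e * e = 0) (A : MvPolynomial ℕ T) :
    C e * nab e A = C e * nab 0 A := by
  have : e • nab e = e • nab (0 : T) := by
    apply derivation_ext
    intro k
    simp only [Derivation.smul_apply, nab_X, smul_eq_C_mul, ← C_mul]
    rcases k with _ | k
    · simp
    · rw [pow_succ, zero_pow (Nat.succ_ne_zero k), mul_zero, mul_comm (e ^ k), ← mul_assoc, he,
        zero_mul]
  have h := congrArg (fun D => D A) this
  simpa [smul_eq_C_mul] using h

lemma ev1_C_mul (x a : T) (A : MvPolynomial ℕ T) : ev1 x (C a * A) = a * ev1 x A := by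
  simp [ev1, Derivation.leibniz]
lemma ev2_C_mul (x y a : T) (A : MvPolynomial ℕ T) : ev2 x y (C a * A) = a * ev2 x y A := by
  simp [ev2, Derivation.leibniz]
lemma ev3_C_mul (x y z a : T) (A : MvPolynomial ℕ T) :
    ev3 x y z (C a * A) = a * ev3 x y z A := by
  simp [ev3, Derivation.leibniz]

lemma ev2_eps {e : T} (he : e * e = 0) (x : T) (A : MvPolynomial ℕ T) :
    e * ev2 x e A = e * ev1 x (nab 0 A) := by
  rw [ev2_nab, ← ev1_C_mul, eps_nab he, ev1_C_mul]

lemma ev3_eps {e : T} (he : e * e = 0) (x y : T) (A : MvPolynomial ℕ T) :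
    e * ev3 x y e A = e * ev2 x y (nab 0 A) := by
  rw [ev3_nab, ← ev2_C_mul, eps_nab he, ev2_C_mul]

lemma ev4_eps {e : T} (he : e * e = 0) (x y z : T) (A : MvPolynomial ℕ T) :
    e * ev4 x y z e A = e * ev3 x y z (nab 0 A) := by
  rw [ev4_nab, ← ev3_C_mul, eps_nab he, ev3_C_mul]

/-! base change -/

variable {S : Type*} [CommRing S]

lemma map_dv (φ : S →+* T) (A : MvPolynomial ℕ S) : map φ (dv A) = dv (map φ A) := by
  induction A using MvPolynomial.induction_on with
  | C a => simp
  | add p q hp hq => simp [hp, hq]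
  | mul_X p i hp => simp [Derivation.leibniz, hp]

lemma map_iter (φ : S →+* T) (k : ℕ) (A : MvPolynomial ℕ S) :
    map φ ((dvM 0)^[k] A) = (dvM 0)^[k] (map φ A) := by
  induction k with
  | zero => rfl
  | succ n ih => rw [iter_dvM_succ, iter_dvM_succ, dvM_zero, dvM_zero, map_dv, ih]

lemma map_evo (φ : S →+* T) (Z A : MvPolynomial ℕ S) :
    map φ (evo Z A) = evo (map φ Z) (map φ A) := by
  induction A using MvPolynomial.induction_on with
  | C a => simp
  | add p q hp hq => simp [hp, hq]
  | mul_X p i hp => simp [Derivation.leibniz, hp, map_iter]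

lemma map_pb (φ : S →+* T) (A B : MvPolynomial ℕ S) :
    map φ (pb A B) = pb (map φ A) (map φ B) := by
  rw [pb, pb, map_sub, map_evo, map_evo, map_dv, map_dv]

lemma map_nab0 (φ : S →+* T) (A : MvPolynomial ℕ S) : map φ (nab 0 A) = nab 0 (map φ A) := by
  induction A using MvPolynomial.induction_on with
  | C a => simp
  | add p q hp hq => simp [hp, hq]
  | mul_X p i hp => simp [Derivation.leibniz, hp]

lemma map_Kp (φ : S →+* T) (c : S) : map φ (Kp c) = Kp (φ c) := by
  simp only [Kp, map_add, map_mul, map_pow, map_X, map_C, map_ofNat]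

lemma map_Sp (φ : S →+* T) (c : S) : map φ (Sp c) = Sp (φ c) := by
  simp only [Sp, map_add, map_mul, map_pow, map_X, map_C, map_ofNat]

/-! evaluation of `Psi 3` -/

lemma ev3_Psi [Algebra S T] (x y z : T) (f : MvPolynomial (Fin 3) S) :
    ev3 x y z (map (algebraMap S T) (Psi 3 f)) =
      aeval ![x, y, z] f + aeval ![x, z, y] f + aeval ![y, x, z] f + aeval ![y, z, x] f
        + aeval ![z, x, y] f + aeval ![z, y, x] f := by
  induction f using MvPolynomial.induction_on' with
  | monomial α a =>
    have h1 : Psi 3 (monomial α a) = C a * (X (α 0) * X (α 1) * X (α 2)) := by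
      rw [Psi_monomial]
      have : (monomial (tp α) a : MvPolynomial ℕ S) = C a * monomial (tp α) 1 := by
        rw [C_mul_monomial, mul_one]
      rw [this, monomial_tp, Fin.prod_univ_three]
    have h2 : ∀ g : Fin 3 → T, aeval g (monomial α a : MvPolynomial (Fin 3) S) =
        algebraMap S T a * (g 0 ^ α 0 * g 1 ^ α 1 * g 2 ^ α 2) := by
      intro g
      rw [aeval_monomial, Finsupp.prod_fintype _ _ (by simp), Fin.prod_univ_three]
    rw [h1]
    simp only [h2]
    simp only [map_mul, map_C, map_X, ev3, Derivation.leibniz, derivation_C, nab_X,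
      smul_eq_mul, map_add, map_mul, mul_zero, add_zero, zero_add, constantCoeff_C,
      constantCoeff_X, smul_zero, zero_mul, map_zero]
    simp
    ring
  | add p q hp hq => simp only [map_add, ev3_add, hp, hq]; ring

lemma aeval_perm [Algebra S T] {n : ℕ} {f : MvPolynomial (Fin n) S} (hf : f.IsSymmetric)
    (σ : Equiv.Perm (Fin n)) (g : Fin n → T) : aeval (g ∘ σ) f = aeval g f := by
  conv_rhs => rw [← hf σ]
  rw [aeval_rename]

end

end Pool.Agent.Work.MP_c4d6c8_mp
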