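import Pool.Agent.Work.MP_c4d6c8_mp.Core7

set_option autoImplicit false
set_option linter.unusedSimpArgs false

namespace Pool.Agent.Work.MP_c4d6c8_mp

open MvPolynomial

section
variable {F : Type*} [Field F] [CharZero F]

/-- even weights: the kernel of `pb Kp` is detected by the linear coefficient -/
lemma L_lin {c : F} (hc : c ≠ 0) {Z : MvPolynomial ℕ F} {r : ℕ}
    (hZ : Wt Z (r + 2)) (h : pb (Kp c) Z = 0) (h1 : coeff (Finsupp.single r 1) Z = 0) :
    Z = 0 := by
  have h0 : comp 0 Z = 0 := comp0_wt hZ (by omega)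
  have h1 : comp 1 Z = 0 := by rw [lin_part hZ, h1]; simp
  apply eq_zero_of_comp
  intro n
  induction n using Nat.strong_induction_on with
  | _ n ih =>
    rcases n with _ | _ | m
    · exact h0
    · exact h1
    · have e := congrArg (comp (m + 2)) h
      rw [comp_Kp, ih (m + 1) (by omega), pb_zero_right, add_zero, comp_zero] at e
      simp only [mul_eq_zero, C_eq_zero] at e
      rcases e with e | e
      · rcases e with e | e
        · exact absurd e (by norm_num)
        · exact absurd e hc
      · exact pb_X2_inj (by omega) (comp_pa _ _) e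

omit [CharZero F] in
lemma wt_zero_C {Z : MvPolynomial ℕ F} (hZ : Wt Z 0) : Z = C (coeff 0 Z) := by
  ext d
  rw [coeff_C]
  by_cases hd : 0 = d
  · rw [if_pos hd, hd]
  · rw [if_neg hd]
    by_contra hne
    have h1 := hZ hne
    apply hd
    rw [Finsupp.weight_apply, Finsupp.sum, Finset.sum_eq_zero_iff] at h1
    ext i
    by_contra hi
    have := h1 i (Finsupp.mem_support_iff.2 (Ne.symm hi))
    simp only [wt, smul_eq_mul, mul_eq_zero] at this
    have h5 : d i = 0 := by
      rcases this with h5 | h5
      · exact h5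
      · omega
    exact hi h5.symm

omit [CharZero F] in
/-- elements of weight two are multiples of `v_0` -/
lemma wt_two {Z : MvPolynomial ℕ F} (hZ : Wt Z 2) : ∃ a, Z = C a * X 0 := by
  refine ⟨coeff (Finsupp.single 0 1) Z, ?_⟩
  have h0 : comp 0 Z = 0 := comp0_wt hZ (by omega)
  have h1 := lin_part (r := 0) hZ
  rw [← h1]
  rw [← sub_eq_zero]
  apply eq_zero_of_comp
  intro n
  rw [comp, map_sub]
  change comp n Z - comp n (comp 1 Z) = 0
  rw [comp_of_pa (comp_pa 1 Z)]
  rcases n with _ | _ | m
  · rw [h0]; simp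
  · simp
  · rw [if_neg (by omega), sub_zero]
    ext d
    rw [coeff_zero]
    by_contra hne
    have h6 : Finsupp.weight wt d = 2 := whc_wh hZ (m + 2) hne
    have h7 : Finsupp.weight pw d = m + 2 := comp_pa (m + 2) Z hne
    obtain ⟨α, rfl⟩ := exists_tp h7
    rw [weight_wt_tp] at h6
    omega

omit [CharZero F] in
lemma pb_low_left {Z : MvPolynomial ℕ F} {k : ℕ} (hZ : Wt Z k) (hk : k ≤ 2)
    (B : MvPolynomial ℕ F) : pb Z B = 0 := by
  rcases k with _ | _ | _ | k
  · rw [wt_zero_C hZ, pb_C_left]
  · rw [wt_one hZ, pb_zero_left]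
  · obtain ⟨a, rfl⟩ := wt_two hZ
    rw [pb_C_mul_left, pb_X0, mul_zero]
  · omega

omit [CharZero F] in
lemma pb_low_right {Z : MvPolynomial ℕ F} {k : ℕ} (hZ : Wt Z k) (hk : k ≤ 2)
    (B : MvPolynomial ℕ F) : pb B Z = 0 := by
  rw [pb_antisymm, pb_low_left hZ hk, neg_zero]

/-- The chain of identities in the weight grading. -/
theorem chain {c α : F} (hc : c ≠ 0) (x y : ℕ → MvPolynomial ℕ F)
    (hx : ∀ n, Wt (x n) n) (hy : ∀ n, Wt (y n) n)
    (hb : ∀ N, ∑ p ∈ Finset.HasAntidiagonal.antidiagonal N, pb (x p.1) (y p.2) = 0)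
    (hx4 : x 4 = C (1 / 2) * Kp c)
    (hy4 : coeff (Finsupp.single 0 2) (y 4) = α / 2)
    (hx6 : coeff (Finsupp.single 0 3) (x 6) = 0)
    (hy6 : coeff (Finsupp.single 0 3) (y 6) = 1 / 6)
    {w : ℕ} (hw : Odd w) (hw5 : 5 ≤ w) (hxw : ∀ n, Odd n → n < w → x n = 0)
    (hs : ∀ d ∈ (x w).support, d 0 = 0 ∧ d 1 = 0) : x w = 0 := by
  set r : ℕ → MvPolynomial ℕ F := fun n => y n - C α * x n with hr
  have hrw : ∀ n, Wt (r n) n := fun n => (hy n).sub ((hx n).C_mul α)
  have hxx : ∀ N, ∑ p ∈ Finset.HasAntidiagonal.antidiagonal N, pb (x p.1) (x p.2) = 0 := by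
    intro N
    have h1 : ∑ p ∈ Finset.HasAntidiagonal.antidiagonal N, pb (x p.1) (x p.2) =
        - ∑ p ∈ Finset.HasAntidiagonal.antidiagonal N, pb (x p.1) (x p.2) := by
      conv_lhs => rw [← Finset.Nat.sum_antidiagonal_swap]
      rw [← Finset.sum_neg_distrib]
      apply Finset.sum_congr rfl
      intro p _
      exact pb_antisymm _ _
    have h2 : (2 : MvPolynomial ℕ F) * ∑ p ∈ Finset.HasAntidiagonal.antidiagonal N, pb (x p.1) (x p.2) = 0 := by
      linear_combination h1
    exact (mul_eq_zero.1 h2).resolve_left two_ne_zero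
  have hbr : ∀ N, ∑ p ∈ Finset.HasAntidiagonal.antidiagonal N, pb (x p.1) (r p.2) = 0 := by
    intro N
    have h1 : ∀ p : ℕ × ℕ, pb (x p.1) (r p.2) = pb (x p.1) (y p.2) - C α * pb (x p.1) (x p.2) := by
      intro p; rw [hr, pb_sub_right, pb_C_mul_right]
    simp only [h1]
    rw [Finset.sum_sub_distrib, ← Finset.mul_sum, hb, hxx, mul_zero, sub_zero]
  have hx3 : x 3 = 0 := hxw 3 (by decide) (by omega)
  have hx4' : ∀ B, pb (x 4) B = 0 → pb (Kp c) B = 0 := by
    intro B hB
    rw [hx4, pb_C_mul_left] at hB
    refine (mul_eq_zero.1 hB).resolve_left ?_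
    intro h
    rw [C_eq_zero] at h
    norm_num at h
  -- a single surviving term
  have single : ∀ j, (∀ p ∈ Finset.HasAntidiagonal.antidiagonal (j + 4), p ≠ (4, j) → pb (x p.1) (r p.2) = 0) →
      pb (Kp c) (r j) = 0 := by
    intro j h
    apply hx4'
    have h1 := hbr (j + 4)
    rw [Finset.sum_eq_single (4, j) h] at h1
    · exact h1
    · intro h2; exact absurd (by rw [Finset.HasAntidiagonal.mem_antidiagonal]; omega) h2
  have low : ∀ (a b : ℕ), a < 4 → pb (x a) (r b) = 0 := by
    intro a b ha
    by_cases h3 : a = 3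
    · rw [h3, hx3, pb_zero_left]
    · exact pb_low_left (hx a) (by omega) _
  have lowr : ∀ (a b : ℕ), b < 3 → pb (x a) (r b) = 0 := by
    intro a b hb2
    exact pb_low_right (hrw b) (by omega) _
  have hr3 : r 3 = 0 := by
    apply L_odd hc (by decide : Odd 3) (hrw 3)
    apply single
    rintro ⟨a, b⟩ hp hne
    rw [Finset.HasAntidiagonal.mem_antidiagonal] at hp
    simp only [ne_eq, Prod.mk.injEq, not_and] at hp hne
    rcases lt_or_ge a 4 with h | h
    · exact low a b h
    · apply lowr; omega
  have hr4 : r 4 = 0 := by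
    have h1 : pb (Kp c) (r 4) = 0 := by
      apply single
      rintro ⟨a, b⟩ hp hne
      rw [Finset.HasAntidiagonal.mem_antidiagonal] at hp
      simp only [ne_eq, Prod.mk.injEq, not_and] at hp hne
      rcases lt_or_ge a 4 with h | h
      · exact low a b h
      · by_cases hb3 : b = 3
        · simp only [hb3, hr3, pb_zero_right]
        · apply lowr; omega
    -- r 4 is a multiple of Kp
    set β := coeff (Finsupp.single 2 1) (r 4) / (2 * c) with hβ
    have h2 : r 4 - C β * Kp c = 0 := by
      apply L_lin hc (r := 2)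
      · exact (hrw 4).sub ((wt_Kp c).C_mul β)
      · rw [pb_sub_right, h1, pb_C_mul_right, pb_self]; simp
      · rw [coeff_sub, coeff_C_mul, Kp, coeff_add, coeff_C_mul]
        have e1 : coeff (Finsupp.single 2 1) (X 0 ^ 2 : MvPolynomial ℕ F) = 0 := by
          rw [X_pow_eq_monomial, coeff_monomial, if_neg]
          intro h
          have := DFunLike.congr_fun h 0
          simp at this
        rw [e1, coeff_X, if_pos rfl, hβ]
        field_simp
        ring
    have h3 : r 4 = C β * Kp c := sub_eq_zero.1 h2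
    have h4 : coeff (Finsupp.single 0 2) (r 4) = 0 := by
      rw [hr]
      simp only
      rw [coeff_sub, coeff_C_mul, hy4, hx4, coeff_C_mul, Kp, coeff_add, coeff_C_mul,
        X_pow_eq_monomial, coeff_monomial, if_pos rfl, coeff_X, if_neg]
      · ring
      · intro h
        have := DFunLike.congr_fun h 0
        simp at this
    rw [h3, coeff_C_mul, Kp, coeff_add, coeff_C_mul, X_pow_eq_monomial, coeff_monomial,
      if_pos rfl, coeff_X, if_neg] at h4
    · rw [mul_zero, add_zero, mul_one] at h4
      rw [h3, h4]; simp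
    · intro h
      have := DFunLike.congr_fun h 0
      simp at this
  have hr5 : r 5 = 0 := by
    apply L_odd hc (by decide : Odd 5) (hrw 5)
    apply single
    rintro ⟨a, b⟩ hp hne
    rw [Finset.HasAntidiagonal.mem_antidiagonal] at hp
    simp only [ne_eq, Prod.mk.injEq, not_and] at hp hne
    rcases lt_or_ge a 4 with h | h
    · exact low a b h
    · by_cases hb3 : b = 3
      · simp only [hb3, hr3, pb_zero_right]
      · by_cases hb4 : b = 4
        · simp only [hb4, hr4, pb_zero_right]
        · apply lowr; omega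
  have hr6 : r 6 = C (1 / 30) * Sp c := by
    have h1 : pb (Kp c) (r 6) = 0 := by
      apply single
      rintro ⟨a, b⟩ hp hne
      rw [Finset.HasAntidiagonal.mem_antidiagonal] at hp
      simp only [ne_eq, Prod.mk.injEq, not_and] at hp hne
      rcases lt_or_ge a 4 with h | h
      · exact low a b h
      · by_cases hb3 : b = 3
        · simp only [hb3, hr3, pb_zero_right]
        · by_cases hb4 : b = 4
          · simp only [hb4, hr4, pb_zero_right]
          · by_cases hb5 : b = 5
            · simp only [hb5, hr5, pb_zero_right]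
            · apply lowr; omega
    set β := coeff (Finsupp.single 4 1) (r 6) / (18 * c ^ 2) with hβ
    have cS : ∀ m : ℕ →₀ ℕ, coeff m (Sp c) = 5 * coeff m (X 0 ^ 3 : MvPolynomial ℕ F)
        + 30 * c * coeff m (X 0 * X 2 : MvPolynomial ℕ F) + 15 * c * coeff m (X 1 ^ 2 : MvPolynomial ℕ F)
        + 18 * c ^ 2 * coeff m (X 4 : MvPolynomial ℕ F) := by
      intro m
      rw [Sp, coeff_add, coeff_add, coeff_add, coeff_C_mul, coeff_C_mul, coeff_C_mul, coeff_C_mul]
    have hX02 : (X 0 * X 2 : MvPolynomial ℕ F) = monomial (Finsupp.single 0 1 + Finsupp.single 2 1) 1 := by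
      rw [← pow_one (X 0), ← pow_one (X 2), X_pow_eq_monomial, X_pow_eq_monomial, monomial_mul,
        mul_one]
    have h2 : r 6 - C β * Sp c = 0 := by
      apply L_lin hc (r := 4)
      · exact (hrw 6).sub ((wt_Sp c).C_mul β)
      · rw [pb_sub_right, h1, pb_C_mul_right, pb_Kp_Sp]; simp
      · rw [coeff_sub, coeff_C_mul, cS, X_pow_eq_monomial, X_pow_eq_monomial, hX02,
          coeff_monomial, coeff_monomial, coeff_monomial, coeff_X, if_neg, if_neg, if_neg,
          if_pos rfl, hβ]
        · field_simp; ring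
        · intro h; have := DFunLike.congr_fun h 1; simp at this
        · intro h; have := DFunLike.congr_fun h 0; simp at this
        · intro h; have := DFunLike.congr_fun h 0; simp at this
    have h3 : r 6 = C β * Sp c := sub_eq_zero.1 h2
    have h4 : coeff (Finsupp.single 0 3) (r 6) = 1 / 6 := by
      rw [hr]
      simp only
      rw [coeff_sub, coeff_C_mul, hy6, hx6]; ring
    rw [h3, coeff_C_mul, cS, X_pow_eq_monomial, X_pow_eq_monomial, hX02, coeff_monomial,
      coeff_monomial, coeff_monomial, coeff_X, if_pos rfl, if_neg, if_neg, if_neg] at h4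
    · have h5 : β = 1 / 30 := by linear_combination (1 / 5) * h4
      rw [h3, h5]
    · intro h; have := DFunLike.congr_fun h 0; simp at this
    · intro h; have := DFunLike.congr_fun h 1; simp at this
    · intro h; have := DFunLike.congr_fun h 0; simp at this
  have hrodd : ∀ j, Odd j → j < w + 2 → r j = 0 := by
    intro j
    induction j using Nat.strong_induction_on with
    | _ j ih =>
      intro hj hjw
      apply L_odd hc hj (hrw j)
      apply single
      rintro ⟨a, b⟩ hp hne
      rw [Finset.HasAntidiagonal.mem_antidiagonal] at hp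
      simp only [ne_eq, Prod.mk.injEq, not_and] at hp hne
      rcases lt_or_ge a 4 with h | h
      · exact low a b h
      · rcases Nat.even_or_odd b with hbe | hbo
        · -- a is odd
          have hao : Odd a := by
            obtain ⟨u, hu⟩ := hj; obtain ⟨v, hv⟩ := hbe
            exact ⟨u + 2 - v, by omega⟩
          by_cases haw : a < w
          · rw [hxw a hao haw, pb_zero_left]
          · obtain ⟨v, hv⟩ := hbe
            by_cases hb4 : b = 4
            · rw [hb4, hr4, pb_zero_right]
            · apply lowr; omega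
        · by_cases hbj : b = j
          · exact absurd hbj (hne (by omega))
          · rw [ih b (by omega) hbo (by omega), pb_zero_right]
  -- the order `w + 6`
  have hfin : pb (x 4) (r (w + 2)) + pb (x w) (r 6) = 0 := by
    have h1 := hbr (w + 6)
    have hne : ((4, w + 2) : ℕ × ℕ) ≠ (w, 6) := by
      intro h; simp only [Prod.mk.injEq] at h; obtain ⟨u, hu⟩ := hw; omega
    rw [Finset.sum_eq_add (4, w + 2) (w, 6) hne] at h1
    · exact h1
    · rintro ⟨a, b⟩ hp ⟨hne1, hne2⟩
      rw [Finset.HasAntidiagonal.mem_antidiagonal] at hp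
      simp only [ne_eq, Prod.mk.injEq, not_and] at hp hne1 hne2
      rcases lt_or_ge a 4 with h | h
      · exact low a b h
      · rcases Nat.even_or_odd b with hbe | hbo
        · have hao : Odd a := by
            obtain ⟨u, hu⟩ := hw; obtain ⟨v, hv⟩ := hbe
            exact ⟨u + 3 - v, by omega⟩
          by_cases haw : a < w
          · rw [hxw a hao haw, pb_zero_left]
          · obtain ⟨v, hv⟩ := hbe
            by_cases hb4 : b = 4
            · rw [hb4, hr4, pb_zero_right]
            · by_cases hb6 : b = 6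
              · exact absurd hb6 (hne2 (by omega))
              · apply lowr; omega
        · by_cases hbj : b = w + 2
          · exact absurd hbj (hne1 (by omega))
          · rw [hrodd b hbo (by omega), pb_zero_right]
    · intro h; exact absurd (by rw [Finset.HasAntidiagonal.mem_antidiagonal]; omega) h
    · intro h; exact absurd (by rw [Finset.HasAntidiagonal.mem_antidiagonal]) h
  -- apply the core theorem
  refine core hc hw (hx w) (Z := C 15 * r (w + 2)) ((hrw (w + 2)).C_mul 15) ?_ hs
  rw [hx4, hr6, pb_C_mul_left, pb_C_mul_right, pb_antisymm (x w) (Sp c)] at hfin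
  rw [pb_C_mul_right]
  have h1 : (C 30 : MvPolynomial ℕ F) * C (1 / 2) = C 15 := by
    rw [← C_mul]; norm_num
  have h2 : (C 30 : MvPolynomial ℕ F) * C (1 / 30) = 1 := by
    rw [← C_mul, ← C_1]; norm_num
  linear_combination (C 30) * hfin - pb (Kp c) (r (w + 2)) * h1 + pb (Sp c) (x w) * h2

end

end Pool.Agent.Work.MP_c4d6c8_mp
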