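import Pool.Agent.Work.MP_c4d6c8_mp.Sym

set_option autoImplicit false
set_option linter.unusedSimpArgs false

namespace Pool.Agent.Work.MP_c4d6c8_mp

open MvPolynomial

section
variable {F : Type*} [Field F] {n : ℕ}

lemma irred_linear {p : MvPolynomial (Fin n) F} (h : p.totalDegree = 1) : Irreducible p := by
  apply irreducible_of_totalDegree_eq_one h
  intro x hx
  rw [isUnit_iff_ne_zero]
  rintro rfl
  have : p = 0 := by
    ext i; simpa using zero_dvd_iff.1 (hx i)
  rw [this] at h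
  simp at h

lemma irred_X (i : Fin n) : Irreducible (X i : MvPolynomial (Fin n) F) :=
  irred_linear (totalDegree_X i)

lemma irred_XX (i j : Fin n) (hij : i ≠ j) : Irreducible (X i + X j : MvPolynomial (Fin n) F) := by
  apply irred_linear
  apply ((isHomogeneous_X F i).add (isHomogeneous_X F j)).totalDegree
  intro h
  have h1 := congrArg (coeff (Finsupp.single i 1)) h
  rw [coeff_add, coeff_X, coeff_X, coeff_zero, if_pos rfl, if_neg, add_zero] at h1
  · exact one_ne_zero h1
  · intro h2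
    exact hij (Finsupp.single_left_injective one_ne_zero h2).symm

lemma eval_ps (x : Fin n → F) (s : ℕ) : eval x (ps n s) = ∑ i, x i ^ s := by
  simp [ps]

lemma eval_g3 (x : Fin n → F) : eval x (g3 n) = (∑ i, x i) ^ 3 - ∑ i, x i ^ 3 := by
  simp [g3, eval_ps]

lemma relp_of_eval {p q : MvPolynomial (Fin n) F} (hp : Irreducible p) (x : Fin n → F)
    (h0 : eval x p = 0) (h1 : eval x q ≠ 0) : IsRelPrime q p := by
  refine IsRelPrime.symm (hp.isRelPrime_iff_not_dvd.2 ?_)
  rintro ⟨r, rfl⟩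
  exact h1 (by rw [map_mul, h0, zero_mul])

lemma key4 : ∃ a b : MvPolynomial (Fin 4) F,
    a * g3 4 + b * g5 4 =
      C (-15) * (X 0 * X 1 * X 2 * ((X 0 + X 1) * (X 1 + X 2) * (X 0 + X 2))) := by
  refine ⟨-5 * ((X 0 + X 1 + X 2) * (X 3 * (X 3 + (X 0 + X 1 + X 2)))
    - (X 0 + X 1) * (X 1 + X 2) * (X 0 + X 2) + (X 0 + X 1 + X 2) ^ 3),
    3 * (X 0 + X 1 + X 2), ?_⟩
  have hC : (C (-15) : MvPolynomial (Fin 4) F) = -15 := by
    rw [map_neg]; congr 1
  rw [hC]
  simp only [g3, g5, ps, Fin.sum_univ_four]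
  ring

variable [CharZero F]

lemma relp4 : IsRelPrime (g3 4 : MvPolynomial (Fin 4) F) (g5 4) := by
  intro d h3 h5
  obtain ⟨a, b, hab⟩ := key4 (F := F)
  have h : d ∣ C (-15) * (X 0 * X 1 * X 2 * ((X 0 + X 1) * (X 1 + X 2) * (X 0 + X 2))) := by
    rw [← hab]
    exact dvd_add (Dvd.dvd.mul_left h3 _) (Dvd.dvd.mul_left h5 _)
  have h2 : IsRelPrime (g3 4 : MvPolynomial (Fin 4) F)
      (C (-15) * (X 0 * X 1 * X 2 * ((X 0 + X 1) * (X 1 + X 2) * (X 0 + X 2)))) := by
    have hu : IsUnit (C (-15) : MvPolynomial (Fin 4) F) := by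
      apply IsUnit.map
      rw [isUnit_iff_ne_zero]
      norm_num
    refine IsRelPrime.mul_right ?_ ?_
    · exact hu.isRelPrime_right
    · refine IsRelPrime.mul_right (IsRelPrime.mul_right (IsRelPrime.mul_right ?_ ?_) ?_)
        (IsRelPrime.mul_right (IsRelPrime.mul_right ?_ ?_) ?_)
      · apply relp_of_eval (irred_X 0) ![0, 1, 1, 1]
        · simp
        · simp [eval_g3, Fin.sum_univ_four]; norm_num
      · apply relp_of_eval (irred_X 1) ![1, 0, 1, 1]
        · simp
        · simp [eval_g3, Fin.sum_univ_four]; norm_num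
      · apply relp_of_eval (irred_X 2) ![1, 1, 0, 1]
        · simp
        · simp [eval_g3, Fin.sum_univ_four]; norm_num
      · apply relp_of_eval (irred_XX 0 1 (by decide)) ![1, -1, 1, 1]
        · simp
        · simp [eval_g3, Fin.sum_univ_four]; norm_num
      · apply relp_of_eval (irred_XX 1 2 (by decide)) ![1, 1, -1, 1]
        · simp
        · simp [eval_g3, Fin.sum_univ_four]; norm_num
      · apply relp_of_eval (irred_XX 0 2 (by decide)) ![1, 1, -1, 1]
        · simp
        · simp [eval_g3, Fin.sum_univ_four]; norm_num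
  exact h2 h3 h

/-- set the last variable to zero -/
noncomputable def kl (n : ℕ) : MvPolynomial (Fin (n + 1)) F →ₐ[F] MvPolynomial (Fin n) F :=
  aeval (Fin.lastCases 0 (fun i => X i))

omit [CharZero F] in
lemma kl_ps (s : ℕ) (hs : s ≠ 0) : kl n (ps (n + 1) s : MvPolynomial (Fin (n + 1)) F) = ps n s := by
  simp [ps, kl, Fin.sum_univ_castSucc, hs]

omit [CharZero F] in
lemma kl_g3 : kl n (g3 (n + 1) : MvPolynomial (Fin (n + 1)) F) = g3 n := by
  simp [g3, kl_ps]

omit [CharZero F] in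
lemma kl_g5 : kl n (g5 (n + 1) : MvPolynomial (Fin (n + 1)) F) = g5 n := by
  simp [g5, kl_ps]

omit [CharZero F] in
lemma totalDegree_prod_pow_le (g : Fin (n + 1) → MvPolynomial (Fin n) F)
    (hg : ∀ i, (g i).totalDegree ≤ 1) (S : Finset (Fin (n + 1))) (d : Fin (n + 1) →₀ ℕ) :
    (∏ i ∈ S, g i ^ d i).totalDegree ≤ ∑ i ∈ S, d i := by
  refine (totalDegree_finsetProd S _).trans (Finset.sum_le_sum ?_)
  intro i _
  refine (totalDegree_pow _ _).trans ?_
  have := hg i
  nlinarith

omit [CharZero F] in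
lemma totalDegree_kl_le (p : MvPolynomial (Fin (n + 1)) F) :
    (kl n p).totalDegree ≤ p.totalDegree := by
  rw [kl, aeval_def, eval₂_eq]
  refine (totalDegree_finsetSum _ _).trans (Finset.sup_le ?_)
  intro d hd
  refine (totalDegree_mul _ _).trans ?_
  have h1 : (algebraMap F (MvPolynomial (Fin n) F) (coeff d p)).totalDegree = 0 := totalDegree_C _
  rw [h1, zero_add]
  refine (totalDegree_prod_pow_le _ ?_ _ d).trans ?_
  · intro i
    refine Fin.lastCases ?_ (fun j => ?_) i
    · simp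
    · simp
  · exact le_totalDegree hd

lemma g3_ne (h : 2 ≤ n) : (g3 n : MvPolynomial (Fin n) F) ≠ 0 := by
  intro h0
  have h1 := congrArg (eval (fun _ => (1 : F))) h0
  rw [eval_g3] at h1
  simp at h1
  have h2 : ((n ^ 3 : ℕ) : F) = (n : ℕ) := by
    push_cast; exact sub_eq_zero.1 h1
  have h3 : n ^ 3 = n := Nat.cast_injective h2
  nlinarith [pow_pos (by omega : 0 < n) 2, pow_succ n 2]

omit [CharZero F] in
lemma ps_hom (s : ℕ) : (ps n s : MvPolynomial (Fin n) F).IsHomogeneous s := by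
  apply IsHomogeneous.sum
  intro i _
  exact isHomogeneous_X_pow i s

omit [CharZero F] in
lemma g3_hom : (g3 n : MvPolynomial (Fin n) F).IsHomogeneous 3 := by
  exact ((ps_hom (F := F) (n := n) 1).pow 3).sub (ps_hom 3)

lemma g3_deg (h : 2 ≤ n) : (g3 n : MvPolynomial (Fin n) F).totalDegree = 3 :=
  g3_hom.totalDegree (g3_ne h)

lemma relp (n : ℕ) (h : 4 ≤ n) : IsRelPrime (g3 n : MvPolynomial (Fin n) F) (g5 n) := by
  induction n, h using Nat.le_induction with
  | base => exact relp4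
  | succ n hn ih =>
    intro d h3 h5
    have h3' : kl n d ∣ g3 n := by rw [← kl_g3]; exact map_dvd _ h3
    have h5' : kl n d ∣ g5 n := by rw [← kl_g5]; exact map_dvd _ h5
    have hu := ih h3' h5'
    obtain ⟨q, hq⟩ := h3
    have hg : (g3 (n + 1) : MvPolynomial (Fin (n + 1)) F) ≠ 0 := g3_ne (by omega)
    have hd0 : d ≠ 0 := by rintro rfl; rw [zero_mul] at hq; exact hg hq
    have hq0 : q ≠ 0 := by rintro rfl; rw [mul_zero] at hq; exact hg hq
    have hdeg := totalDegree_mul_of_isDomain hd0 hq0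
    rw [← hq, g3_deg (by omega)] at hdeg
    have hq' := congrArg (kl n) hq
    rw [map_mul, kl_g3] at hq'
    have hg' : (g3 n : MvPolynomial (Fin n) F) ≠ 0 := g3_ne (by omega)
    have hd0' : kl n d ≠ 0 := hu.ne_zero
    have hq0' : kl n q ≠ 0 := by intro h; rw [h, mul_zero] at hq'; exact hg' hq'
    have hdeg' := totalDegree_mul_of_isDomain hd0' hq0'
    rw [← hq', g3_deg (by omega), (isUnit_iff_totalDegree_of_isReduced.1 hu).2, zero_add] at hdeg'
    have h4 := totalDegree_kl_le q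
    have h5 : d.totalDegree = 0 := by omega
    rw [totalDegree_eq_zero_iff_eq_C] at h5
    rw [h5] at hd0 ⊢
    apply IsUnit.map
    rw [isUnit_iff_ne_zero]
    intro h6
    rw [h6, C_0] at hd0
    exact hd0 rfl

end

end Pool.Agent.Work.MP_c4d6c8_mp
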