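import Pool.Agent.Work.MP_c4d6c8_mp.Ev
import Pool.Agent.Work.MP_c4d6c8_mp.Coprime

set_option autoImplicit false
set_option linter.unusedSimpArgs false

namespace Pool.Agent.Work.MP_c4d6c8_mp

open MvPolynomial

section
variable {T : Type*} [CommRing T]

/-- component with `m` factors -/
noncomputable abbrev comp (m : ℕ) (A : MvPolynomial ℕ T) : MvPolynomial ℕ T :=
  weightedHomogeneousComponent pw m A

lemma comp_pa (m : ℕ) (A : MvPolynomial ℕ T) : Pa (comp m A) m :=
  weightedHomogeneousComponent_isWeightedHomogeneous m A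

lemma eq_zero_of_comp {A : MvPolynomial ℕ T} (h : ∀ m, comp m A = 0) : A = 0 := by
  classical
  ext d
  have h1 := congrArg (coeff d) (h (Finsupp.weight pw d))
  rw [coeff_weightedHomogeneousComponent, if_pos rfl] at h1
  exact h1

lemma pa_zero {A : MvPolynomial ℕ T} (h : Pa A 0) : A = C (coeff 0 A) := by
  classical
  ext d
  rw [coeff_C]
  by_cases hd : 0 = d
  · rw [if_pos hd, hd]
  · rw [if_neg hd]
    by_contra hne
    have h1 := h hne
    apply hd
    rw [Finsupp.weight_apply, Finsupp.sum, Finset.sum_eq_zero_iff] at h1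
    ext i
    by_contra hi
    have := h1 i (Finsupp.mem_support_iff.2 (Ne.symm hi))
    simp only [pw, smul_eq_mul, mul_one] at this
    exact hi this.symm

/-- the linear map `pb A` -/
noncomputable def pbL (A : MvPolynomial ℕ T) : MvPolynomial ℕ T →ₗ[T] MvPolynomial ℕ T where
  toFun := pb A
  map_add' := pb_add_right A
  map_smul' := fun a B => by rw [smul_eq_C_mul, pb_C_mul_right, RingHom.id_apply, smul_eq_C_mul]

lemma pbL_apply (A B : MvPolynomial ℕ T) : pbL A B = pb A B := rfl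

lemma pb_C_right (A : MvPolynomial ℕ T) (b : T) : pb A (C b) = 0 := by
  rw [pb_antisymm, pb_C_left, neg_zero]

lemma pb_pa' {A B : MvPolynomial ℕ T} {a m : ℕ} (hA : Pa A (a + 1)) (hB : Pa B m) :
    Pa (pb A B) (m + a) := by
  rcases m with _ | b
  · rw [pa_zero hB, pb_C_right]; exact isWeightedHomogeneous_zero _ _ _
  · have := pb_pa hA hB
    convert this using 1; ring

lemma comp_pb {A : MvPolynomial ℕ T} {a : ℕ} (hA : Pa A (a + 1)) (m : ℕ) (B : MvPolynomial ℕ T) :
    comp (m + a) (pb A B) = pb A (comp m B) :=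
  graded_comp (pbL A) (fun _ _ h => pb_pa' hA h) B m

lemma comp_add (m : ℕ) (A B : MvPolynomial ℕ T) : comp m (A + B) = comp m A + comp m B :=
  map_add _ _ _

lemma comp_C_mul (m : ℕ) (a : T) (A : MvPolynomial ℕ T) : comp m (C a * A) = C a * comp m A := by
  rw [← smul_eq_C_mul, comp, map_smul, smul_eq_C_mul]

lemma pa_mul {A B : MvPolynomial ℕ T} {m n : ℕ} (hA : Pa A m) (hB : Pa B n) :
    Pa (A * B) (m + n) := hA.mul hB

lemma pa_X0_2 : Pa (X 0 ^ 2 : MvPolynomial ℕ T) (1 + 1) := by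
  rw [pow_two]; exact pa_mul (pa_X 0) (pa_X 0)

lemma comp_Kp (c : T) (m : ℕ) (A : MvPolynomial ℕ T) :
    comp (m + 1) (pb (Kp c) A) =
      C (2 * c) * pb (X 2) (comp (m + 1) A) + pb (X 0 ^ 2) (comp m A) := by
  rw [Kp, pb_add_left, pb_C_mul_left, comp_add, comp_C_mul, comp_pb pa_X0_2,
    comp_pb (a := 0) (pa_X 2)]
  ring

/-- quadratic part of `Sp` -/
noncomputable def S2 (c : T) : MvPolynomial ℕ T := C (30 * c) * (X 0 * X 2) + C (15 * c) * X 1 ^ 2

lemma pa_S2 (c : T) : Pa (S2 c) (1 + 1) := by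
  apply IsWeightedHomogeneous.add
  · exact (pa_mul (pa_X 0) (pa_X 2)).C_mul _
  · rw [pow_two]; exact (pa_mul (pa_X 1) (pa_X 1)).C_mul _

lemma pa_S3 : Pa (C 5 * X 0 ^ 3 : MvPolynomial ℕ T) (2 + 1) := by
  have : (X 0 ^ 3 : MvPolynomial ℕ T) = X 0 * X 0 * X 0 := by ring
  rw [this]
  exact (pa_mul (pa_mul (pa_X 0) (pa_X 0)) (pa_X 0)).C_mul _

lemma comp_Sp (c : T) (m : ℕ) (A : MvPolynomial ℕ T) :
    comp (m + 2) (pb (Sp c) A) = C (18 * c ^ 2) * pb (X 4) (comp (m + 2) A)
      + pb (S2 c) (comp (m + 1) A) + pb (C 5 * X 0 ^ 3) (comp m A) := by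
  have h : Sp c = C 5 * X 0 ^ 3 + S2 c + C (18 * c ^ 2) * X 4 := by rw [Sp, S2]; ring
  rw [h, pb_add_left, pb_add_left, comp_add, comp_add, pb_C_mul_left (18 * c ^ 2), comp_C_mul]
  have h1 : comp (m + 2) (pb (X 4) A) = pb (X 4) (comp (m + 2) A) := comp_pb (a := 0) (pa_X 4) _ _
  have h2 : comp (m + 2) (pb (S2 c) A) = pb (S2 c) (comp (m + 1) A) := comp_pb (pa_S2 c) (m + 1) A
  have h3 : comp (m + 2) (pb (C 5 * X 0 ^ 3) A) = pb (C 5 * X 0 ^ 3) (comp m A) :=
    comp_pb pa_S3 m A
  rw [h1, h2, h3]; ring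

/-! the evaluations only see one component -/

lemma nab_monomial (x : T) (d : ℕ →₀ ℕ) (a : T) :
    nab x (monomial d a) =
      a • d.sum fun i k => monomial (d - Finsupp.single i 1) (k : T) • C (x ^ i) := by
  rw [nab, mkDerivation_monomial]

lemma nab_pa (x : T) {A : MvPolynomial ℕ T} {m : ℕ} (h : Pa A (m + 1)) : Pa (nab x A) m := by
  induction h using IsWeightedHomogeneous.induction_on with
  | zero => rw [map_zero]; exact isWeightedHomogeneous_zero _ _ _
  | add p q hp hq h1 h2 => rw [map_add]; exact h1.add h2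
  | monomial d r hr =>
    rw [nab_monomial]
    apply wh_smul
    apply IsWeightedHomogeneous.sum
    intro i hi
    simp only [smul_eq_mul]
    rw [mul_comm]
    apply IsWeightedHomogeneous.C_mul
    apply isWeightedHomogeneous_monomial
    have h1 : d = (d - Finsupp.single i 1) + Finsupp.single i 1 := by
      ext j
      by_cases hj : j = i
      · subst hj
        have := Finsupp.mem_support_iff.1 hi
        simp; omega
      · simp [Finsupp.single_apply, Ne.symm hj]
    rw [h1, map_add, Finsupp.weight_single] at hr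
    simp only [pw, smul_eq_mul, mul_one] at hr ⊢
    exact Nat.succ.inj hr

lemma nab_pa0 (x : T) {A : MvPolynomial ℕ T} (h : Pa A 0) : nab x A = 0 := by
  rw [pa_zero h, derivation_C]

lemma cc_pa {A : MvPolynomial ℕ T} {m : ℕ} (h : Pa A (m + 1)) : constantCoeff A = 0 := by
  by_contra hne
  have := h (d := 0) hne
  simp at this

lemma sum_comp (A : MvPolynomial ℕ T) : ∃ N, A = ∑ m ∈ Finset.range N, comp m A := by
  classical
  refine ⟨A.support.sup (Finsupp.weight pw) + 1, ?_⟩
  ext d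
  rw [coeff_sum]
  simp only [coeff_weightedHomogeneousComponent]
  rw [Finset.sum_ite_eq]
  by_cases hd : coeff d A = 0
  · simp [hd]
  · rw [if_pos]
    rw [Finset.mem_range, Nat.lt_succ_iff]
    exact Finset.le_sup (f := Finsupp.weight pw) (mem_support_iff.2 hd)

lemma ev2_pa (x y : T) {A : MvPolynomial ℕ T} {m : ℕ} (h : Pa A m) (hm : m ≠ 2) :
    ev2 x y A = 0 := by
  rcases m with _ | _ | _ | m
  · rw [ev2, nab_pa0 y h]; simp
  · rw [ev2, nab_pa0 x (nab_pa y h)]; simp
  · exact absurd rfl hm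
  · rw [ev2]; exact cc_pa (nab_pa x (nab_pa y h))

lemma ev3_pa (x y z : T) {A : MvPolynomial ℕ T} {m : ℕ} (h : Pa A m) (hm : m ≠ 3) :
    ev3 x y z A = 0 := by
  rcases m with _ | _ | _ | _ | m
  · rw [ev3, nab_pa0 z h]; simp
  · rw [ev3, nab_pa0 y (nab_pa z h)]; simp
  · rw [ev3, nab_pa0 x (nab_pa y (nab_pa z h))]; simp
  · exact absurd rfl hm
  · rw [ev3]; exact cc_pa (nab_pa x (nab_pa y (nab_pa z h)))

lemma ev2_add (x y : T) (A B : MvPolynomial ℕ T) : ev2 x y (A + B) = ev2 x y A + ev2 x y B := by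
  simp [ev2]
lemma ev3_add (x y z : T) (A B : MvPolynomial ℕ T) :
    ev3 x y z (A + B) = ev3 x y z A + ev3 x y z B := by
  simp [ev3]

lemma ev2_sum (x y : T) {ι : Type*} (s : Finset ι) (A : ι → MvPolynomial ℕ T) :
    ev2 x y (∑ i ∈ s, A i) = ∑ i ∈ s, ev2 x y (A i) := by
  simp [ev2, map_sum]
lemma ev3_sum (x y z : T) {ι : Type*} (s : Finset ι) (A : ι → MvPolynomial ℕ T) :
    ev3 x y z (∑ i ∈ s, A i) = ∑ i ∈ s, ev3 x y z (A i) := by
  simp [ev3, map_sum]

lemma ev2_comp (x y : T) (A : MvPolynomial ℕ T) : ev2 x y A = ev2 x y (comp 2 A) := by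
  obtain ⟨N, hN⟩ := sum_comp A
  by_cases h : 2 < N
  · conv_lhs => rw [hN]
    rw [ev2_sum, Finset.sum_eq_single 2]
    · intro m _ hm; exact ev2_pa x y (comp_pa m A) hm
    · intro h2; exact absurd (Finset.mem_range.2 h) h2
  · have h3 : comp 2 A = 0 := by
      conv_lhs => rw [hN]
      rw [comp, map_sum]
      apply Finset.sum_eq_zero
      intro m hm
      have hm2 : m ≠ 2 := by have := Finset.mem_range.1 hm; omega
      rw [weightedHomogeneousComponent_of_mem
        ((mem_weightedHomogeneousSubmodule _ _ _ _).2 (comp_pa m A)), if_neg (Ne.symm hm2)]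
    rw [h3]
    conv_lhs => rw [hN]
    rw [ev2_sum]
    have h4 : ev2 x y (0 : MvPolynomial ℕ T) = 0 := by simp [ev2]
    rw [h4]
    apply Finset.sum_eq_zero
    intro m hm
    exact ev2_pa x y (comp_pa m A) (by have := Finset.mem_range.1 hm; omega)

lemma ev3_comp (x y z : T) (A : MvPolynomial ℕ T) : ev3 x y z A = ev3 x y z (comp 3 A) := by
  obtain ⟨N, hN⟩ := sum_comp A
  by_cases h : 3 < N
  · conv_lhs => rw [hN]
    rw [ev3_sum, Finset.sum_eq_single 3]
    · intro m _ hm; exact ev3_pa x y z (comp_pa m A) hm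
    · intro h2; exact absurd (Finset.mem_range.2 h) h2
  · have h3 : comp 3 A = 0 := by
      conv_lhs => rw [hN]
      rw [comp, map_sum]
      apply Finset.sum_eq_zero
      intro m hm
      have hm2 : m ≠ 3 := by have := Finset.mem_range.1 hm; omega
      rw [weightedHomogeneousComponent_of_mem
        ((mem_weightedHomogeneousSubmodule _ _ _ _).2 (comp_pa m A)), if_neg (Ne.symm hm2)]
    rw [h3]
    conv_lhs => rw [hN]
    rw [ev3_sum]
    have h4 : ev3 x y z (0 : MvPolynomial ℕ T) = 0 := by simp [ev3]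
    rw [h4]
    apply Finset.sum_eq_zero
    intro m hm
    exact ev3_pa x y z (comp_pa m A) (by have := Finset.mem_range.1 hm; omega)

end

end Pool.Agent.Work.MP_c4d6c8_mp
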