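import Pool.Agent.Work.MP_c4d6c8_mp.Bridge

set_option autoImplicit false
set_option linter.unusedSimpArgs false

namespace Pool.Agent.Work.MP_c4d6c8_mp

open MvPolynomial

section
variable {F : Type*} [Field F]

lemma ps_symm {n : ℕ} (s : ℕ) : (ps n s : MvPolynomial (Fin n) F).IsSymmetric := by
  intro σ
  simp only [ps, map_sum, map_pow, rename_X]
  exact Equiv.sum_comp σ (fun i => (X i : MvPolynomial (Fin n) F) ^ s)

lemma g3_symm {n : ℕ} : (g3 n : MvPolynomial (Fin n) F).IsSymmetric := by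
  intro σ
  rw [g3, map_sub, map_pow, ps_symm 1 σ, ps_symm 3 σ]

lemma g5_symm {n : ℕ} : (g5 n : MvPolynomial (Fin n) F).IsSymmetric := by
  intro σ
  rw [g5, map_sub, map_pow, ps_symm 1 σ, ps_symm 5 σ]

variable [CharZero F]

lemma pb_X2_inj {n : ℕ} (hn : 2 ≤ n) {B : MvPolynomial ℕ F} (hB : Pa B n)
    (h : pb (X 2) B = 0) : B = 0 := by
  obtain ⟨f, hf, rfl, _⟩ := exists_sym hB
  rw [pb_X2_Psi] at h
  have h1 : g3 n * f = 0 := Psi_inj (g3_symm.mul hf) h
  rw [(mul_eq_zero.1 h1).resolve_left (g3_ne hn), map_zero]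

omit [CharZero F] in
lemma comp0_wt {A : MvPolynomial ℕ F} {w : ℕ} (hA : Wt A w) (hw : w ≠ 0) : comp 0 A = 0 := by
  have h1 := comp_pa 0 A
  rw [pa_zero h1]
  have h2 : coeff 0 (comp 0 A) = coeff 0 A := by
    classical
    rw [coeff_weightedHomogeneousComponent, if_pos]
    simp
  have h3 : coeff 0 A = 0 := by
    by_contra hne
    have := hA hne
    rw [map_zero] at this
    exact hw this.symm
  rw [h2, h3, C_0]

omit [CharZero F] in
lemma wt_one {A : MvPolynomial ℕ F} (hA : Wt A 1) : A = 0 := by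
  ext d
  by_contra hne
  rw [coeff_zero] at hne
  have h := hA hne
  rw [Finsupp.weight_apply, Finsupp.sum] at h
  by_cases hd : d.support = ∅
  · rw [hd, Finset.sum_empty] at h; exact zero_ne_one h
  · obtain ⟨i, hi⟩ := Finset.nonempty_iff_ne_empty.2 hd
    have h1 := Finset.single_le_sum (f := fun i => d i • wt i) (fun _ _ => Nat.zero_le _) hi
    have h2 := Finsupp.mem_support_iff.1 hi
    rw [h] at h1
    simp only [wt, smul_eq_mul] at h1
    have h3 : 1 ≤ d i := Nat.one_le_iff_ne_zero.2 h2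
    nlinarith

lemma Z_low {c : F} (hc : c ≠ 0) {W Z : MvPolynomial ℕ F} {r : ℕ} (hr : Odd r)
    (hZ : Wt Z (r + 2)) (h : pb (Kp c) Z = pb (Sp c) W) {n : ℕ} (hn : 2 ≤ n)
    (hW : ∀ k, k < n → comp k W = 0) : ∀ k, k < n → comp k Z = 0 := by
  have hz0 : comp 0 Z = 0 := comp0_wt hZ (by omega)
  have hz1 : comp 1 Z = 0 := by
    have e := congrArg (ev2 1 (-1)) h
    rw [ev2_Kp, ev2_Sp, ev1_wt 1 hZ, ev1_wt (-1) hZ] at e
    have hw1 : ∀ x, ev1 x W = 0 := by
      intro x; rw [ev1_comp, hW 1 (by omega)]; simp [ev1]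
    rw [hw1, hw1, hw1, hr.neg_one_pow, one_pow] at e
    have e2 : (4 : F) * coeff (Finsupp.single r 1) Z = 0 := by
      have h3 : ((1 : F) + -1) = 0 := by ring
      rw [h3] at e
      linear_combination e
    have e3 : coeff (Finsupp.single r 1) Z = 0 := by
      rcases mul_eq_zero.1 e2 with h4 | h4
      · exact absurd h4 (by norm_num)
      · exact h4
    rw [lin_part hZ, e3]; simp
  intro k
  induction k using Nat.strong_induction_on with
  | _ k ih =>
    intro hk
    rcases k with _ | _ | m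
    · exact hz0
    · exact hz1
    · have e := congrArg (comp (m + 2)) h
      rw [comp_Kp, comp_Sp, ih (m + 1) (by omega) (by omega), hW m (by omega),
        hW (m + 1) (by omega), hW (m + 2) (by omega), pb_zero_right, pb_zero_right,
        pb_zero_right, pb_zero_right] at e
      simp only [mul_zero, add_zero, mul_eq_zero, C_eq_zero] at e
      rcases e with e | e
      · rcases e with e | e
        · exact absurd e (by norm_num)
        · exact absurd e hc
      · exact pb_X2_inj (by omega) (comp_pa _ _) e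

lemma L_odd {c : F} (hc : c ≠ 0) {Z : MvPolynomial ℕ F} {m : ℕ} (hm : Odd m)
    (hZ : Wt Z m) (h : pb (Kp c) Z = 0) : Z = 0 := by
  obtain ⟨k, rfl⟩ := hm
  rcases k with _ | k
  · exact wt_one hZ
  · apply eq_zero_of_comp
    intro n
    have hZ' : Wt Z (2 * k + 1 + 2) := by convert hZ using 1; ring
    have h' : pb (Kp c) Z = pb (Sp c) 0 := by rw [h, pb_zero_right]
    exact Z_low hc ⟨k, rfl⟩ hZ' h' (n := n + 2) (by omega) (fun _ _ => map_zero _) n (by omega)

omit [CharZero F] in
lemma nab0_wt {A : MvPolynomial ℕ F} {m : ℕ} (h : Wt A (m + 2)) : Wt (nab 0 A) m := by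
  induction h using IsWeightedHomogeneous.induction_on with
  | zero => rw [map_zero]; exact isWeightedHomogeneous_zero _ _ _
  | add p q hp hq h1 h2 => rw [map_add]; exact h1.add h2
  | monomial d r hr =>
    rw [nab_monomial]
    apply wh_smul
    apply IsWeightedHomogeneous.sum
    intro i hi
    simp only [smul_eq_mul]
    rcases i with _ | i
    · rw [mul_comm]
      apply IsWeightedHomogeneous.C_mul
      apply isWeightedHomogeneous_monomial
      have h1 : d = (d - Finsupp.single 0 1) + Finsupp.single 0 1 := by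
        ext j
        by_cases hj : j = 0
        · subst hj
          have := Finsupp.mem_support_iff.1 hi
          simp; omega
        · simp [Finsupp.single_apply, Ne.symm hj]
      rw [h1, map_add, Finsupp.weight_single] at hr
      simp only [wt, smul_eq_mul, one_mul] at hr ⊢
      omega
    · rw [zero_pow (Nat.succ_ne_zero i), C_0, mul_zero]
      exact isWeightedHomogeneous_zero _ _ _

/-- `∂_0 Z = 15 W`. -/
lemma nab0_Z {c : F} (hc : c ≠ 0) {W Z : MvPolynomial ℕ F} {w : ℕ} (hw : Odd w)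
    (hW : Wt W w) (hZ : Wt Z (w + 2)) (h : pb (Kp c) Z = pb (Sp c) W) (h0 : nab 0 W = 0) :
    nab 0 Z = C 15 * W := by
  have h1 := congrArg (nab 0) h
  rw [nab0_pb, nab0_pb, nab0_Kp, nab0_Sp, h0, pb_zero_right, add_zero] at h1
  have h2 : pb (2 * X 0) Z = 0 := by
    have : (2 * X 0 : MvPolynomial ℕ F) = C 2 * X 0 := by rw [map_ofNat]
    rw [this, pb_C_mul_left, pb_X0, mul_zero]
  rw [h2, zero_add, pb_C_mul_left] at h1
  have h3 : pb (Kp c) (nab 0 Z - C 15 * W) = 0 := by
    rw [pb_sub_right, pb_C_mul_right, h1, sub_self]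
  have h4 : Wt (nab 0 Z) w := nab0_wt hZ
  have := L_odd hc hw (h4.sub (hW.C_mul 15)) h3
  exact sub_eq_zero.1 this

omit [Field F] [CharZero F] in
lemma wh_map {S T : Type*} [CommRing S] [CommRing T] (φ : S →+* T) {ω : ℕ → ℕ}
    {A : MvPolynomial ℕ S} {m : ℕ} (h : IsWeightedHomogeneous ω A m) :
    IsWeightedHomogeneous ω (map φ A) m := by
  intro d hd
  apply h
  intro h0
  apply hd
  rw [coeff_map, h0, map_zero]

lemma dual_zero {F : Type*} [Field F] {x : F}
    (h : algebraMap F (DualNumber F) x * DualNumber.eps = 0) : x = 0 := by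
  have := congrArg TrivSqZeroExt.snd h
  simpa [TrivSqZeroExt.algebraMap_eq_inl] using this

/-- value and derivative -/
lemma one_add_pow {T : Type*} [CommRing T] {e : T} (he : e * e = 0) (n : ℕ) :
    (1 + e) ^ n = 1 + n * e := by
  induction n with
  | zero => simp
  | succ n ih => rw [pow_succ, ih]; push_cast; linear_combination (n : T) * he

/-- The linear part vanishes. -/
lemma linpart_zero {c : F} (hc : c ≠ 0) {W Z : MvPolynomial ℕ F} {r : ℕ} (hr : Odd r)
    (hW : Wt W (r + 2)) (hZ : Wt Z (r + 2 + 2)) (h : pb (Kp c) Z = pb (Sp c) W)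
    (h0 : nab 0 W = 0) : comp 1 W = 0 := by
  set α := coeff (Finsupp.single r 1) W with hα
  set z := coeff (Finsupp.single (r + 2) 1) Z with hz
  have hr2 : Odd (r + 2) := by
    obtain ⟨k, rfl⟩ := hr; exact ⟨k + 1, by ring⟩
  have e1 : z = 15 * c * α := by
    have e := congrArg (ev2 1 (-1)) h
    rw [ev2_Kp, ev2_Sp, ev1_wt 1 hZ, ev1_wt (-1) hZ, ev1_wt 1 hW, ev1_wt (-1) hW,
      hr.neg_one_pow, hr2.neg_one_pow, one_pow, one_pow, ← hα, ← hz] at e
    have h3 : ((1 : F) + -1) = 0 := by ring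
    rw [h3] at e
    have e2 : (4 : F) * z = 4 * (15 * c * α) := by linear_combination e
    exact mul_left_cancel₀ (by norm_num) e2
  have hD := nab0_Z hc hr2 hW hZ h h0
  -- over the dual numbers
  have e : 90 * c * α - 2 * z * (r + 3) = -30 * c * α * (r + 1) := by
    have hmap := congrArg (map (algebraMap F (DualNumber F))) h
    rw [map_pb, map_pb, map_Kp, map_Sp] at hmap
    set φ := algebraMap F (DualNumber F) with hφ
    set E : DualNumber F := DualNumber.eps with hE
    have hEE : E * E = 0 := DualNumber.eps_mul_eps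
    have hmap2 := congrArg (ev2 1 E) hmap
    rw [ev2_Kp, ev2_Sp] at hmap2
    have hWm : Wt (map φ W) (r + 2) := wh_map φ hW
    have hZm : Wt (map φ Z) (r + 2 + 2) := wh_map φ hZ
    have a1 : E * ev2 1 E (map φ Z) = E * (15 * φ α) := by
      rw [ev2_eps hEE, ← map_nab0, hD, map_mul, map_C, ev1_C_mul, ev1_wt 1 hWm, coeff_map, ← hα,
        map_ofNat]
      simp
    have a2 : E * ev2 1 E (map φ W) = 0 := by
      rw [ev2_eps hEE, ← map_nab0, h0, map_zero]; simp [ev1]
    have a3 : ev1 1 (map φ Z) = φ z := by rw [ev1_wt 1 hZm, coeff_map, ← hz]; simp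
    have a4 : ev1 1 (map φ W) = φ α := by rw [ev1_wt 1 hWm, coeff_map, ← hα]; simp
    have a5 : ev1 (1 + E) (map φ Z) = φ z * (1 + (r + 2) * E) := by
      rw [ev1_wt _ hZm, coeff_map, ← hz, one_add_pow hEE]; push_cast; ring
    have a6 : ev1 (1 + E) (map φ W) = φ α * (1 + r * E) := by
      rw [ev1_wt _ hWm, coeff_map, ← hα, one_add_pow hEE]
    have a7 : E * ev1 E (map φ Z) = 0 := by
      rw [ev1_wt _ hZm, pow_succ]
      linear_combination (coeff (Finsupp.single (r + 2) 1) (map φ Z) * E ^ (r + 1)) * hEE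
    have a8 : E * ev1 E (map φ W) = 0 := by
      obtain ⟨k, rfl⟩ := hr
      rw [ev1_wt _ hWm, pow_succ]
      linear_combination (coeff (Finsupp.single (2 * k + 1) 1) (map φ W) * E ^ (2 * k)) * hEE
    rw [a3, a4, a5, a6] at hmap2
    have key : φ (90 * c * α - 2 * z * (r + 3) - (-30 * c * α * (r + 1))) * E = 0 := by
      simp only [map_sub, map_mul, map_add, map_neg, map_ofNat, map_natCast, map_one]
      linear_combination hmap2 - 2 * φ c * (3 + 3 * E) * a1 - 2 * a7
        + 18 * φ c ^ 2 * (5 + 10 * E + 10 * E ^ 2 + 5 * E ^ 3) * a2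
        + 30 * φ c * (1 + E + E ^ 2) * a8
        + (-90 * φ c * φ α + 2 * φ z * (r + 2)
          - 30 * φ c * φ α * ((1 + 2 * r) + (1 + 2 * r) * E + r * E ^ 2)) * hEE
    exact sub_eq_zero.1 (dual_zero key)
  have e3 : α = 0 := by
    have h4 : c * α = 0 := by
      have h5 : (30 : F) * (c * α) = 0 := by
        rw [e1] at e
        linear_combination e
      exact (mul_eq_zero.1 h5).resolve_left (by norm_num)
    exact (mul_eq_zero.1 h4).resolve_left hc
  rw [lin_part hW, ← hα, e3]; simp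

end

end Pool.Agent.Work.MP_c4d6c8_mp
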