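import Pool.Agent.Work.MP_c4d6c8_mp.Core1

set_option autoImplicit false
set_option linter.unusedSimpArgs false

namespace Pool.Agent.Work.MP_c4d6c8_mp

open MvPolynomial

section
variable {T : Type*} [CommRing T]

/-- the quadratic factor of `g5 3` -/
def chi (x y z : T) : T := x * x + y * y + z * z + x * y + y * z + z * x

lemma key3 {A E c G0 G1 G2 G3 : T} {W Z : MvPolynomial ℕ T} (hE : E * E = 0)
    (h : pb (Kp c) Z = pb (Sp c) W) (h0 : nab 0 W = 0) (hZ0 : nab 0 Z = C 15 * W)
    (hq : ∀ x y, ev2 x y W = 0)
    (hZ : ∀ x y z, ev3 x y z Z = 15 * c * chi x y z * ev3 x y z W)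
    (e0 : ev3 A (-A) 1 W = 6 * G0) (e6 : ev3 (A + E) (-A) 1 W = 6 * (G0 + G1 * E))
    (e8 : ev3 (-A + E) A 1 W = 6 * (G0 + G2 * E))
    (e9 : ev3 (1 + E) A (-A) W = 6 * (G0 + G3 * E)) :
    180 * c * ((1 + A ^ 2) * G0 + A * (G1 - G2) + A ^ 2 * G3) * E = 0 := by
  have e := congrArg (ev4 A (-A) 1 E) h
  rw [ev4_Kp, ev4_Sp] at e
  simp only [hq, hZ, e0, e6, e8, e9] at e
  have b1 : E * ev4 A (-A) 1 E Z = E * (15 * (6 * G0)) := by
    rw [ev4_eps hE, hZ0, ev3_C_mul, e0]
  have b2 : E * ev4 A (-A) 1 E W = 0 := by
    rw [ev4_eps hE, h0]; simp [ev3]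
  have r : ∀ x y, E * ev3 x y E W = 0 := by
    intro x y
    rw [ev3_eps hE, h0]; simp [ev2]
  have r1 := r (-A) 1
  have r2 := r A 1
  have r3 := r A (-A)
  have r5 := r (A + 1) (-A)
  have r7 := r (-A + 1) A
  simp only [chi, mm, zz] at e
  linear_combination -e + (-30 * c + 30 * A * c - 30 * E * c) * r1
    + (-30 * c - 30 * A * c - 30 * E * c) * r2 + (-30 * c + 30 * A ^ 2 * c - 30 * E * c) * r3
    + (-30 * c - 30 * A * c - 30 * E * c - 30 * A * E * c) * r5
    + (-30 * c + 30 * A * c - 30 * E * c + 30 * A * E * c) * r7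
    + (6 * c + 6 * E * c) * b1
    + (-90 * c ^ 2 - 180 * E * c ^ 2 - 180 * E ^ 2 * c ^ 2 - 90 * E ^ 3 * c ^ 2) * b2
    + (-180 * G0 * c - 180 * G1 * c - 180 * G2 * c - 180 * G3 * c - 180 * A * G1 * c
      + 180 * A * G2 * c - 180 * A ^ 2 * G3 * c - 180 * E * G1 * c - 180 * E * G2 * c
      - 180 * E * G3 * c) * hE

end

section
variable {F : Type*} [Field F]

lemma aeval_dual {n : ℕ} (u v : Fin n → F) (f : MvPolynomial (Fin n) F) :
    aeval (fun i => algebraMap F (DualNumber F) (u i) + algebraMap F (DualNumber F) (v i)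
      * DualNumber.eps) f = algebraMap F (DualNumber F) (eval u f)
      + algebraMap F (DualNumber F) (∑ i, v i * eval u (pderiv i f)) * DualNumber.eps := by
  classical
  set φ := algebraMap F (DualNumber F)
  set E : DualNumber F := DualNumber.eps
  have hEE : E * E = 0 := DualNumber.eps_mul_eps
  induction f using MvPolynomial.induction_on with
  | C a => simp [φ]
  | add p q hp hq =>
    simp only [map_add, hp, hq, mul_add, Finset.sum_add_distrib]
    ring
  | mul_X p i hp =>
    rw [map_mul, hp, aeval_X, map_mul, eval_X]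
    have h1 : ∑ j, v j * eval u (pderiv j (p * X i)) =
        (∑ j, v j * eval u (pderiv j p)) * u i + v i * eval u p := by
      have h2 : ∀ j, v j * eval u (pderiv j (p * X i)) =
          (v j * eval u (pderiv j p)) * u i + (if j = i then v i * eval u p else 0) := by
        intro j
        rw [Derivation.leibniz, pderiv_X]
        by_cases hji : j = i
        · subst hji; simp; ring
        · have : (Pi.single j (1 : MvPolynomial (Fin n) F) : Fin n → MvPolynomial (Fin n) F) i = 0 := by
            rw [Pi.single_eq_of_ne (Ne.symm hji)]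
          simp [this, hji]; ring
      simp only [h2]
      rw [Finset.sum_add_distrib, ← Finset.sum_mul, Finset.sum_ite_eq' Finset.univ i]
      simp
    rw [h1, map_add, map_mul, map_mul, map_mul]
    linear_combination (φ (∑ j, v j * eval u (pderiv j p)) * φ (v i)) * hEE

lemma deriv_aeval {n : ℕ} (g : Fin n → Polynomial F) (f : MvPolynomial (Fin n) F) :
    Polynomial.derivative (aeval g f) =
      ∑ i, aeval g (pderiv i f) * Polynomial.derivative (g i) := by
  classical
  induction f using MvPolynomial.induction_on with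
  | C a => simp
  | add p q hp hq =>
    simp only [map_add, hp, hq, add_mul, Finset.sum_add_distrib]
  | mul_X p i hp =>
    rw [map_mul, Polynomial.derivative_mul, hp, aeval_X]
    have h2 : ∀ j, aeval g (pderiv j (p * X i)) * Polynomial.derivative (g j) =
        (aeval g (pderiv j p) * Polynomial.derivative (g j)) * g i
          + (if j = i then aeval g p * Polynomial.derivative (g i) else 0) := by
      intro j
      rw [Derivation.leibniz, pderiv_X]
      by_cases hji : j = i
      · subst hji; simp; ring
      · have : (Pi.single j (1 : MvPolynomial (Fin n) F) : Fin n → MvPolynomial (Fin n) F) i = 0 := by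
          rw [Pi.single_eq_of_ne (Ne.symm hji)]
        simp [this, hji]; ring
    simp only [h2]
    rw [Finset.sum_add_distrib, ← Finset.sum_mul, Finset.sum_ite_eq' Finset.univ i]
    simp

variable [CharZero F]

lemma ode_zero (h : ℕ) (G : Polynomial F)
    (hG : G + Polynomial.X ^ 2 * G + Polynomial.X * Polynomial.derivative G
      + (h : Polynomial F) * (Polynomial.X ^ 2 * G)
      - Polynomial.X ^ 2 * (Polynomial.X * Polynomial.derivative G) = 0) : G = 0 := by
  have hth : ∀ n, (Polynomial.X * Polynomial.derivative G).coeff n = n * G.coeff n := by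
    intro n
    rcases n with _ | n
    · simp
    · rw [Polynomial.coeff_X_mul, Polynomial.coeff_derivative]; push_cast; ring
  ext n
  rw [Polynomial.coeff_zero]
  induction n using Nat.strong_induction_on with
  | _ n ih =>
    have e := congrArg (fun p => Polynomial.coeff p n) hG
    have hc : ∀ p : Polynomial F, ((h : Polynomial F) * p).coeff n = (h : F) * p.coeff n := by
      intro p
      rw [← Polynomial.C_eq_natCast, Polynomial.coeff_C_mul]
    simp only [Polynomial.coeff_sub, Polynomial.coeff_add, hc, hth, Polynomial.coeff_zero,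
      Polynomial.coeff_X_pow_mul'] at e
    by_cases hn : 2 ≤ n
    · rw [if_pos hn, if_pos hn, ih (n - 2) (by omega)] at e
      have h1 : ((n + 1 : ℕ) : F) * G.coeff n = 0 := by
        push_cast; linear_combination e
      exact (mul_eq_zero.1 h1).resolve_left (Nat.cast_ne_zero.2 (by omega))
    · rw [if_neg hn, if_neg hn] at e
      have h1 : ((n + 1 : ℕ) : F) * G.coeff n = 0 := by
        push_cast; linear_combination e
      exact (mul_eq_zero.1 h1).resolve_left (Nat.cast_ne_zero.2 (by omega))

end

end Pool.Agent.Work.MP_c4d6c8_mp
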