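import Pool.Agent.Work.MP_c4d6c8_mp.Core2

set_option autoImplicit false
set_option linter.unusedSimpArgs false

namespace Pool.Agent.Work.MP_c4d6c8_mp

open MvPolynomial

section
variable {F : Type*} [Field F] {n : ℕ}

lemma aeval_scale {T : Type*} [CommRing T] [Algebra F T] {f : MvPolynomial (Fin n) F} {h : ℕ}
    (hf : f.IsHomogeneous h) (b : T) (g : Fin n → T) :
    aeval (fun i => b * g i) f = b ^ h * aeval g f := by
  rw [aeval_def, eval₂_eq', aeval_def, eval₂_eq', Finset.mul_sum]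
  apply Finset.sum_congr rfl
  intro d hd
  have h1 : ∑ i, d i = h := by
    have := hf (mem_support_iff.1 hd)
    rw [← this, ← Finsupp.degree_eq_sum, Finsupp.degree_eq_weight_one]
    rfl
  have h2 : ∏ i, (b * g i) ^ d i = b ^ h * ∏ i, g i ^ d i := by
    simp only [mul_pow, Finset.prod_mul_distrib]
    rw [Finset.prod_pow_eq_pow_sum, h1]
  rw [h2]; ring

lemma fac (i j : Fin n) (f : MvPolynomial (Fin n) F)
    (h : aeval (Function.update (X : Fin n → MvPolynomial (Fin n) F) j (-X i)) f = 0) :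
    X i + X j ∣ f := by
  rw [← Ideal.mem_span_singleton, ← Ideal.Quotient.eq_zero_iff_mem]
  set I := Ideal.span ({X i + X j} : Set (MvPolynomial (Fin n) F))
  have h1 : ∀ p : MvPolynomial (Fin n) F, Ideal.Quotient.mk I p =
      Ideal.Quotient.mk I (aeval (Function.update (X : Fin n → MvPolynomial (Fin n) F) j (-X i)) p) := by
    intro p
    induction p using MvPolynomial.induction_on with
    | C a => simp [algebraMap_eq]
    | add p q hp hq => simp only [map_add, hp, hq]
    | mul_X p k hp =>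
      rw [map_mul, map_mul, map_mul, ← hp, aeval_X]
      congr 1
      by_cases hk : k = j
      · subst hk
        rw [Function.update_self, Ideal.Quotient.eq]
        have : X k - -X i = (X i + X k : MvPolynomial (Fin n) F) := by ring
        rw [this]
        exact Ideal.subset_span rfl
      · rw [Function.update_of_ne hk]
  rw [h1, h, map_zero]

variable [CharZero F]

lemma aeval_pm {f : MvPolynomial (Fin 3) F} {h : ℕ} (hf : f.IsHomogeneous h)
    (h0 : ∀ a : F, eval ![a, -a, 1] f = 0) {T : Type*} [CommRing T] [Algebra F T] (p q : T) :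
    aeval ![p, -p, q] f = 0 := by
  have hP : (aeval ![X 0, -X 0, X 1] f : MvPolynomial (Fin 2) F) = 0 := by
    have h1 : X 1 * (aeval ![X 0, -X 0, X 1] f : MvPolynomial (Fin 2) F) = 0 := by
      apply MvPolynomial.funext
      intro v
      have h2 : eval v (aeval ![X 0, -X 0, X 1] f : MvPolynomial (Fin 2) F) =
          eval ![v 0, -v 0, v 1] f := by
        have h3 : (eval v).comp ((aeval ![X 0, -X 0, X 1] :
            MvPolynomial (Fin 3) F →ₐ[F] MvPolynomial (Fin 2) F) : _ →+* _) =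
            eval ![v 0, -v 0, v 1] := by
          apply MvPolynomial.ringHom_ext
          · intro r; simp
          · intro i; fin_cases i <;> simp
        exact congrArg (fun g => g f) h3
      rw [map_mul, h2, eval_X, map_zero]
      by_cases hv : v 1 = 0
      · rw [hv, zero_mul]
      · have h4 : eval ![v 0, -v 0, v 1] f = (v 1) ^ h * eval ![v 0 / v 1, -(v 0 / v 1), 1] f := by
          have h5 := aeval_scale (T := F) hf (v 1) ![v 0 / v 1, -(v 0 / v 1), 1]
          have h6 : (fun i => v 1 * ![v 0 / v 1, -(v 0 / v 1), 1] i) = ![v 0, -v 0, v 1] := by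
            ext i; fin_cases i
            · simp; field_simp
            · simp; field_simp
            · simp
          rw [h6] at h5
          exact h5
        rw [h4, h0, mul_zero, mul_zero]
    exact (mul_eq_zero.1 h1).resolve_left (X_ne_zero 1)
  have h7 : (aeval ![p, q] : MvPolynomial (Fin 2) F →ₐ[F] T)
      (aeval ![X 0, -X 0, X 1] f : MvPolynomial (Fin 2) F) = aeval ![p, -p, q] f := by
    have h3 : (aeval ![p, q] : MvPolynomial (Fin 2) F →ₐ[F] T).comp (aeval ![X 0, -X 0, X 1] :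
            MvPolynomial (Fin 3) F →ₐ[F] MvPolynomial (Fin 2) F) = aeval ![p, -p, q] := by
      apply MvPolynomial.algHom_ext
      intro i; fin_cases i <;> simp
    exact congrArg (fun g => g f) h3
  rw [← h7, hP, map_zero]

omit [CharZero F] in
lemma perm3 {f : MvPolynomial (Fin 3) F} (hf : f.IsSymmetric) {T : Type*} [CommRing T]
    [Algebra F T] (x y z : T) : aeval ![x, z, y] f = aeval ![x, y, z] f ∧
      aeval ![y, x, z] f = aeval ![x, y, z] f ∧ aeval ![y, z, x] f = aeval ![x, y, z] f ∧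
      aeval ![z, x, y] f = aeval ![x, y, z] f ∧ aeval ![z, y, x] f = aeval ![x, y, z] f := by
  have h1 : ∀ x y z : T, aeval ![x, z, y] f = aeval ![x, y, z] f := by
    intro x y z
    rw [← aeval_perm hf (Equiv.swap 1 2) ![x, y, z]]
    congr 2
    ext i; fin_cases i <;> rfl
  have h2 : ∀ x y z : T, aeval ![y, x, z] f = aeval ![x, y, z] f := by
    intro x y z
    rw [← aeval_perm hf (Equiv.swap 0 1) ![x, y, z]]
    congr 2
    ext i; fin_cases i <;> rfl
  refine ⟨h1 x y z, h2 x y z, ?_, ?_, ?_⟩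
  · rw [h1, h2]
  · rw [h2, h1]
  · rw [h1, h2, h1]

omit [CharZero F] in
lemma ev3_sym {f : MvPolynomial (Fin 3) F} (hf : f.IsSymmetric) {T : Type*} [CommRing T]
    [Algebra F T] (x y z : T) :
    ev3 x y z (map (algebraMap F T) (Psi 3 f)) = 6 * aeval ![x, y, z] f := by
  obtain ⟨h1, h2, h3, h4, h5⟩ := perm3 hf x y z
  rw [ev3_Psi, h1, h2, h3, h4, h5]; ring

omit [CharZero F] in
lemma g3_three : (g3 3 : MvPolynomial (Fin 3) F) =
    C 3 * ((X 0 + X 1) * (X 0 + X 2) * (X 1 + X 2)) := by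
  rw [map_ofNat]
  simp only [g3, ps, Fin.sum_univ_three]
  ring

omit [CharZero F] in
lemma g5_three : (g5 3 : MvPolynomial (Fin 3) F) =
    C 5 * ((X 0 + X 1) * (X 0 + X 2) * (X 1 + X 2)) * chi (X 0) (X 1) (X 2) := by
  rw [map_ofNat]
  simp only [g5, ps, Fin.sum_univ_three, chi]
  ring

lemma g3_dvd_three {f : MvPolynomial (Fin 3) F} {h : ℕ} (hf : f.IsHomogeneous h)
    (hs : f.IsSymmetric) (h0 : ∀ a : F, eval ![a, -a, 1] f = 0) : g3 3 ∣ f := by
  have hpm := fun (p q : MvPolynomial (Fin 3) F) => aeval_pm hf h0 p q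
  have u1 : Function.update (X : Fin 3 → MvPolynomial (Fin 3) F) 1 (-X 0) =
      ![X 0, -X 0, X 2] := by ext1 i; fin_cases i <;> simp
  have u2 : Function.update (X : Fin 3 → MvPolynomial (Fin 3) F) 2 (-X 0) =
      ![X 0, X 1, -X 0] := by ext1 i; fin_cases i <;> simp
  have u3 : Function.update (X : Fin 3 → MvPolynomial (Fin 3) F) 2 (-X 1) =
      ![X 0, X 1, -X 1] := by ext1 i; fin_cases i <;> simp
  have n01 : (X 0 + X 1 : MvPolynomial (Fin 3) F) ≠ 0 := (irred_XX 0 1 (by decide)).ne_zero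
  obtain ⟨f1, hf1⟩ := fac 0 1 f (by rw [u1]; exact hpm _ _)
  have hf1' : aeval ![X 0, X 1, -X 0] f1 = (0 : MvPolynomial (Fin 3) F) := by
    have h1 := congrArg (aeval ![X 0, X 1, -X 0] :
      MvPolynomial (Fin 3) F →ₐ[F] MvPolynomial (Fin 3) F) hf1
    rw [(perm3 hs (X 0) (-X 0) (X 1)).1, hpm] at h1
    have h2 : (aeval ![X 0, X 1, -X 0] :
      MvPolynomial (Fin 3) F →ₐ[F] MvPolynomial (Fin 3) F) (X 0 + X 1) = X 0 + X 1 := by simp
    rw [map_mul, h2] at h1
    exact (mul_eq_zero.1 h1.symm).resolve_left n01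
  obtain ⟨f2, hf2⟩ := fac 0 2 f1 (by rw [u2]; exact hf1')
  have hf2' : aeval ![X 0, X 1, -X 1] f2 = (0 : MvPolynomial (Fin 3) F) := by
    have h1 := congrArg (aeval ![X 0, X 1, -X 1] :
      MvPolynomial (Fin 3) F →ₐ[F] MvPolynomial (Fin 3) F) hf1
    rw [(perm3 hs (X 1) (-X 1) (X 0)).2.2.2.1, hpm] at h1
    have h2 : (aeval ![X 0, X 1, -X 1] :
      MvPolynomial (Fin 3) F →ₐ[F] MvPolynomial (Fin 3) F) (X 0 + X 1) = X 0 + X 1 := by simp
    rw [map_mul, h2, hf2, map_mul] at h1
    have h3 := (mul_eq_zero.1 h1.symm).resolve_left n01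
    have h4 : (aeval ![X 0, X 1, -X 1] :
      MvPolynomial (Fin 3) F →ₐ[F] MvPolynomial (Fin 3) F) (X 0 + X 2) = X 0 - X 1 := by
      simp; ring
    rw [h4] at h3
    refine (mul_eq_zero.1 h3).resolve_left ?_
    intro h5
    have h6 := congrArg (eval ![1, 0, 0]) h5
    simp at h6
  obtain ⟨f3, hf3⟩ := fac 1 2 f2 (by rw [u3]; exact hf2')
  refine ⟨C (1 / 3) * f3, ?_⟩
  rw [g3_three, hf1, hf2, hf3]
  have : (C 3 : MvPolynomial (Fin 3) F) * C (1 / 3) = 1 := by
    rw [← C_mul]; norm_num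
  linear_combination (-(X 0 + X 1) * (X 0 + X 2) * (X 1 + X 2) * f3) * this

end

end Pool.Agent.Work.MP_c4d6c8_mp
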