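import Pool.Agent.Work.MP_c4d6c8_mp.Core3

set_option autoImplicit false
set_option linter.unusedSimpArgs false

namespace Pool.Agent.Work.MP_c4d6c8_mp

open MvPolynomial

section
variable {T : Type*} [CommRing T]

lemma comp_of_pa {A : MvPolynomial ℕ T} {n : ℕ} (h : Pa A n) (m : ℕ) :
    comp m A = if m = n then A else 0 := by
  classical
  exact weightedHomogeneousComponent_of_mem ((mem_weightedHomogeneousSubmodule _ _ _ _).2 h)

lemma comp_zero (m : ℕ) : comp m (0 : MvPolynomial ℕ T) = 0 := map_zero _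

lemma nab_comp (x : T) (m : ℕ) (A : MvPolynomial ℕ T) :
    comp m (nab x A) = nab x (comp (m + 1) A) := by
  classical
  induction A using MvPolynomial.induction_on' with
  | monomial d a =>
    have h1 : Pa (monomial d a) (Finsupp.weight pw d) := isWeightedHomogeneous_monomial _ d a rfl
    rw [comp_of_pa h1]
    rcases hk : Finsupp.weight pw d with _ | k
    · rw [hk] at h1
      rw [nab_pa0 x h1, if_neg (by omega), map_zero, comp_zero]
    · rw [hk] at h1
      rw [comp_of_pa (nab_pa x h1)]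
      by_cases h : m = k
      · rw [if_pos h, if_pos (by omega)]
      · rw [if_neg h, if_neg (by omega), map_zero]
  | add p q hp hq => simp only [map_add, hp, hq]

/-- homogeneous parts for one grading respect another grading -/
lemma whc_wh {ω τ : ℕ → ℕ} {A : MvPolynomial ℕ T} {n : ℕ} (h : IsWeightedHomogeneous ω A n)
    (m : ℕ) : IsWeightedHomogeneous ω (weightedHomogeneousComponent τ m A) n := by
  classical
  intro d hd
  rw [coeff_weightedHomogeneousComponent] at hd
  split_ifs at hd with h1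
  · exact h hd
  · exact absurd rfl hd

lemma whc_support {ω : ℕ → ℕ} (A : MvPolynomial ℕ T) (m : ℕ) (d : ℕ →₀ ℕ)
    (hd : d ∈ (weightedHomogeneousComponent ω m A).support) : d ∈ A.support := by
  classical
  rw [mem_support_iff, coeff_weightedHomogeneousComponent] at hd
  rw [mem_support_iff]
  split_ifs at hd with h1
  · exact hd
  · exact absurd rfl hd

lemma nab0_of_support {A : MvPolynomial ℕ T} (h : ∀ d ∈ A.support, d 0 = 0) : nab 0 A = 0 := by
  rw [A.as_sum, map_sum]
  apply Finset.sum_eq_zero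
  intro d hd
  rw [nab_monomial, Finsupp.sum]
  rw [Finset.sum_eq_zero, smul_zero]
  intro i hi
  rcases i with _ | i
  · exact absurd (h d hd) (Finsupp.mem_support_iff.1 hi)
  · rw [zero_pow (Nat.succ_ne_zero i), C_0, smul_zero]

lemma support_Psi {n : ℕ} (f : MvPolynomial (Fin n) T) (d : ℕ →₀ ℕ)
    (hd : d ∈ (Psi n f).support) : ∃ β ∈ f.support, tp β = d := by
  classical
  have h1 : Psi n f = ∑ β ∈ f.support, monomial (tp β) (coeff β f) := by
    conv_lhs => rw [f.as_sum, map_sum]
    exact Finset.sum_congr rfl (fun β _ => Psi_monomial β _)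
  rw [h1] at hd
  have h2 := MvPolynomial.support_sum hd
  rw [Finset.mem_biUnion] at h2
  obtain ⟨β, hβ, h3⟩ := h2
  exact ⟨β, hβ, (Finset.mem_singleton.1 (support_monomial_subset h3)).symm⟩

lemma pb_wt3 {A B : MvPolynomial ℕ T} {a m : ℕ} (hA : Wt A (a + 1)) (hB : Wt B m) :
    Wt (pb A B) (m + a) := by
  rcases m with _ | b
  · have h1 : B = C (coeff 0 B) := by
      classical
      ext d
      rw [coeff_C]
      by_cases hd : 0 = d
      · rw [if_pos hd, hd]
      · rw [if_neg hd]
        by_contra hne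
        have h1 := hB hne
        apply hd
        rw [Finsupp.weight_apply, Finsupp.sum, Finset.sum_eq_zero_iff] at h1
        ext i
        by_contra hi
        have := h1 i (Finsupp.mem_support_iff.2 (Ne.symm hi))
        simp only [wt, smul_eq_mul, mul_eq_zero] at this
        have h5 : d i = 0 := by
          rcases this with h5 | h5
          · exact h5
          · omega
        exact hi h5.symm
    rw [h1, pb_C_right]; exact isWeightedHomogeneous_zero _ _ _
  · have := pb_wt hA hB
    convert this using 1; ring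

lemma wt_Kp (c : T) : Wt (Kp c) (3 + 1) := by
  apply IsWeightedHomogeneous.add
  · rw [pow_two]; exact (wt_X 0).mul (wt_X 0)
  · exact (wt_X 2).C_mul _

lemma wt_Sp (c : T) : Wt (Sp c) (5 + 1) := by
  have h3 : (X 0 ^ 3 : MvPolynomial ℕ T) = X 0 * X 0 * X 0 := by ring
  have h2 : (X 1 ^ 2 : MvPolynomial ℕ T) = X 1 * X 1 := by ring
  rw [Sp, h3, h2]
  refine IsWeightedHomogeneous.add (IsWeightedHomogeneous.add (IsWeightedHomogeneous.add ?_ ?_) ?_) ?_
  · exact (((wt_X 0).mul (wt_X 0)).mul (wt_X 0)).C_mul _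
  · exact ((wt_X 0).mul (wt_X 2)).C_mul _
  · exact ((wt_X 1).mul (wt_X 1)).C_mul _
  · exact (wt_X 4).C_mul _

end

section
variable {F : Type*} [Field F] [CharZero F]

/-- the data of a solution -/
def Good (c : F) (r : ℕ) (W Z : MvPolynomial ℕ F) : Prop :=
  Wt W (r + 3) ∧ Wt Z (r + 3 + 2) ∧ pb (Kp c) Z = pb (Sp c) W ∧ nab 0 W = 0

omit [CharZero F] in
/-- gauge transformation of a solution -/
lemma Good.gauge {c : F} {r : ℕ} {W Z R : MvPolynomial ℕ F} (h : Good c r W Z) (hR : Wt R r)
    (hR0 : nab 0 R = 0) : Good c r (W - pb (Kp c) R) (Z - pb (Sp c) R) := by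
  obtain ⟨h1, h2, h3, h4⟩ := h
  refine ⟨h1.sub (pb_wt3 (wt_Kp c) hR), ?_, ?_, ?_⟩
  · refine h2.sub ?_
    have := pb_wt3 (wt_Sp c) hR
    convert this using 1
  · rw [pb_sub_right, pb_sub_right, h3, pb_jacobi (Kp c) (Sp c) R, pb_Kp_Sp, pb_zero_left, zero_add]
  · rw [map_sub, h4, nab0_pb, hR0, pb_zero_right, nab0_Kp]
    have : (2 * X 0 : MvPolynomial ℕ F) = C 2 * X 0 := by rw [map_ofNat]
    rw [this, pb_C_mul_left, pb_X0]; simp

/-- one step, given divisibility -/
lemma step_core {c : F} (hc : c ≠ 0) {n r : ℕ} {W Z : MvPolynomial ℕ F}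
    (h : Good c r W Z) (hk : ∀ k, k < n → comp k W = 0) {R0 : MvPolynomial ℕ F}
    (hR0 : Pa R0 n) (hR : pb (X 2) R0 = C (1 / (2 * c)) * comp n W)
    (hnab : nab 0 (weightedHomogeneousComponent wt r R0) = 0) :
    ∃ R Z', Wt R r ∧ nab 0 R = 0 ∧ Good c r (W - pb (Kp c) R) Z' ∧
      ∀ k, k < n + 1 → comp k (W - pb (Kp c) R) = 0 := by
  classical
  set R := weightedHomogeneousComponent wt r R0 with hRdef
  have hRw : Wt R r := weightedHomogeneousComponent_isWeightedHomogeneous r R0
  have hRp : Pa R n := whc_wh hR0 r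
  have hX2 : pb (X 2) R = C (1 / (2 * c)) * comp n W := by
    have h1 := graded_comp (ω := wt) (s := 3) (pbL (X 2 : MvPolynomial ℕ F))
      (fun m A hA => pb_wt3 (wt_X 2) hA) R0 r
    rw [pbL_apply, pbL_apply, hR] at h1
    rw [hRdef, ← h1]
    have h2 : Wt (C (1 / (2 * c)) * comp n W) (r + 3) := (whc_wh h.1 n).C_mul _
    rw [weightedHomogeneousComponent_of_mem ((mem_weightedHomogeneousSubmodule _ _ _ _).2 h2),
      if_pos rfl]
  refine ⟨R, Z - pb (Sp c) R, hRw, hnab, h.gauge hRw hnab, ?_⟩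
  intro k hk2
  rcases k with _ | m
  · exact comp0_wt (h.gauge hRw hnab).1 (by omega)
  · rw [comp, map_sub]
    change comp (m + 1) W - comp (m + 1) (pb (Kp c) R) = 0
    rw [comp_Kp, comp_of_pa hRp, comp_of_pa hRp]
    have hmn : m ≠ n := by omega
    rw [if_neg hmn, pb_zero_right, add_zero]
    by_cases hm : m + 1 = n
    · rw [if_pos hm, hX2, hm, ← mul_assoc, ← C_mul]
      have : 2 * c * (1 / (2 * c)) = 1 := by field_simp
      rw [this, C_1, one_mul, sub_self]
    · rw [if_neg hm, pb_zero_right, mul_zero, sub_zero]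
      exact hk (m + 1) (by omega)

/-- the step for `n ≥ 3` -/
lemma step_ge3 {c : F} (hc : c ≠ 0) {n r : ℕ} (hn : 3 ≤ n) {W Z : MvPolynomial ℕ F}
    (h : Good c r W Z) (hk : ∀ k, k < n → comp k W = 0)
    {f q : MvPolynomial (Fin n) F} (hf : f.IsSymmetric) (hfW : Psi n f = comp n W)
    (hq : f = g3 n * q) :
    ∃ R Z', Wt R r ∧ nab 0 R = 0 ∧ Good c r (W - pb (Kp c) R) Z' ∧
      ∀ k, k < n + 1 → comp k (W - pb (Kp c) R) = 0 := by
  classical
  set R0 : MvPolynomial ℕ F := C (1 / (2 * c)) * Psi n q with hR0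
  have hp : Pa R0 n := (Psi_pa q).C_mul _
  have hR : pb (X 2) R0 = C (1 / (2 * c)) * comp n W := by
    rw [hR0, pb_C_mul_right, pb_X2_Psi, ← hq, hfW]
  refine step_core hc h hk hp hR ?_
  set R := weightedHomogeneousComponent wt r R0 with hRdef
  have hRp : Pa R n := whc_wh hp r
  have hX2 : pb (X 2) R = C (1 / (2 * c)) * comp n W := by
    have h1 := graded_comp (ω := wt) (s := 3) (pbL (X 2 : MvPolynomial ℕ F))
      (fun m A hA => pb_wt3 (wt_X 2) hA) R0 r
    rw [pbL_apply, pbL_apply, hR] at h1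
    rw [hRdef, ← h1]
    have h2 : Wt (C (1 / (2 * c)) * comp n W) (r + 3) := (whc_wh h.1 n).C_mul _
    rw [weightedHomogeneousComponent_of_mem ((mem_weightedHomogeneousSubmodule _ _ _ _).2 h2),
      if_pos rfl]
  obtain ⟨m, rfl⟩ : ∃ m, n = m + 1 := ⟨n - 1, by omega⟩
  apply pb_X2_inj (n := m) (by omega) (nab_pa 0 hRp)
  have h3 := congrArg (nab 0) hX2
  rw [nab0_pb, nab0_Xs, pb_zero_left, zero_add, Derivation.leibniz, derivation_C, ← nab_comp,
    h.2.2.2, comp_zero] at h3
  rw [h3]; simp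

omit [CharZero F] in
/-- a solution whose low components vanish is zero once the bound passes the weight -/
lemma big_zero {r n : ℕ} (hn : r + 3 < n) {W : MvPolynomial ℕ F} (hW : Wt W (r + 3))
    (hk : ∀ k, k < n → comp k W = 0) : W = 0 := by
  classical
  ext d
  rw [coeff_zero]
  by_contra hne
  have h1 := hW hne
  obtain ⟨α, hα⟩ := exists_tp (n := Finsupp.weight pw d) (d := d) rfl
  have h2 := weight_wt_tp α
  rw [hα, h1] at h2
  have h3 := congrArg (coeff d) (hk (Finsupp.weight pw d) (by omega))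
  rw [coeff_weightedHomogeneousComponent, if_pos rfl] at h3
  exact hne h3

end

end Pool.Agent.Work.MP_c4d6c8_mp
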