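import Pool.Agent.Work.MP_c4d6c8_mp.Core4

set_option autoImplicit false
set_option linter.unusedSimpArgs false

namespace Pool.Agent.Work.MP_c4d6c8_mp

open MvPolynomial

section
variable {F : Type*} [Field F] [CharZero F]

omit [CharZero F] in
lemma level_eq {c : F} {n : ℕ} (hn : 2 ≤ n) {W Z : MvPolynomial ℕ F}
    (h : pb (Kp c) Z = pb (Sp c) W) (hW : ∀ k, k < n → comp k W = 0)
    (hZ : ∀ k, k < n → comp k Z = 0) :
    C (2 * c) * pb (X 2) (comp n Z) = C (18 * c ^ 2) * pb (X 4) (comp n W) := by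
  obtain ⟨m, rfl⟩ : ∃ m, n = m + 2 := ⟨n - 2, by omega⟩
  have e := congrArg (comp (m + 2)) h
  rw [comp_Kp, comp_Sp, hZ (m + 1) (by omega), hW (m + 1) (by omega), hW m (by omega),
    pb_zero_right, pb_zero_right, pb_zero_right, add_zero, add_zero, add_zero] at e
  exact e

lemma level_symbol {c : F} (hc : c ≠ 0) {n : ℕ} {f y : MvPolynomial (Fin n) F}
    (hf : f.IsSymmetric) (hy : y.IsSymmetric)
    (h : C (2 * c) * pb (X 2) (Psi n y) = C (18 * c ^ 2) * pb (X 4) (Psi n f)) :
    g3 n * y = C (9 * c) * (g5 n * f) := by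
  rw [pb_X2_Psi, pb_X4_Psi, ← smul_eq_C_mul, ← smul_eq_C_mul, ← map_smul, ← map_smul,
    ← sub_eq_zero, ← map_sub] at h
  have h1 := Psi_inj (by
    intro σ
    rw [map_sub, map_smul, map_smul, map_mul, map_mul, g3_symm σ, g5_symm σ, hf σ, hy σ]) h
  rw [sub_eq_zero, smul_eq_C_mul, smul_eq_C_mul] at h1
  have h2 : (C (2 * c) : MvPolynomial (Fin n) F) ≠ 0 := by
    rw [Ne, C_eq_zero]; exact mul_ne_zero two_ne_zero hc
  apply mul_left_cancel₀ h2
  rw [h1]
  have h8 : (C (18 * c ^ 2) : MvPolynomial (Fin n) F) = C (2 * c) * C (9 * c) := by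
    rw [← C_mul]; congr 1; ring
  rw [h8]; ring

lemma dvd_ge4 {c : F} (hc : c ≠ 0) {n r : ℕ} (hr : Odd (r + 3)) (hn : 4 ≤ n)
    {W Z : MvPolynomial ℕ F} (h : Good c r W Z) (hk : ∀ k, k < n → comp k W = 0) :
    ∃ f q : MvPolynomial (Fin n) F, f.IsSymmetric ∧ Psi n f = comp n W ∧ f = g3 n * q := by
  obtain ⟨h1, h2, h3, h4⟩ := h
  have hr' : Odd (r + 3) := hr
  have hr2 : Odd (r + 3) := hr
  have hZk := Z_low hc (r := r + 3) hr h2 h3 (by omega : 2 ≤ n) hk
  obtain ⟨f, hf, hfW, _⟩ := exists_sym (comp_pa n W)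
  obtain ⟨y, hy, hyZ, _⟩ := exists_sym (comp_pa n Z)
  have e := level_eq (by omega) h3 hk hZk
  rw [← hfW, ← hyZ] at e
  have e2 := level_symbol hc hf hy e
  have h5 : g3 n ∣ g5 n * f := by
    have h6 : g3 n ∣ C (9 * c) * (g5 n * f) := ⟨y, e2.symm⟩
    have h7 : IsUnit (C (9 * c) : MvPolynomial (Fin n) F) := by
      apply IsUnit.map
      rw [isUnit_iff_ne_zero]
      exact mul_ne_zero (by norm_num) hc
    exact (h7.dvd_mul_left).1 h6
  obtain ⟨q, hq⟩ := (relp n hn).dvd_of_dvd_mul_left h5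
  exact ⟨f, q, hf, hfW, hq⟩

lemma dvd_3 {c : F} (hc : c ≠ 0) {r : ℕ} (hr : Odd (r + 3))
    {W Z : MvPolynomial ℕ F} (h : Good c r W Z) (hk : ∀ k, k < 3 → comp k W = 0) :
    ∃ f q : MvPolynomial (Fin 3) F, f.IsSymmetric ∧ Psi 3 f = comp 3 W ∧ f = g3 3 * q := by
  obtain ⟨h1, h2, h3, h4⟩ := h
  have hZk := Z_low hc (r := r + 3) hr h2 h3 (by omega : 2 ≤ 3) hk
  obtain ⟨f, hf, hfW, hfs⟩ := exists_sym (comp_pa 3 W)
  obtain ⟨y, hy, hyZ, _⟩ := exists_sym (comp_pa 3 Z)
  have e := level_eq (by omega) h3 hk hZk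
  rw [← hfW, ← hyZ] at e
  have e2 := level_symbol hc hf hy e
  have hZ0 := nab0_Z hc hr h1 h2 h3 h4
  -- homogeneous
  by_cases hr3 : r + 3 < 6
  · have h5 : comp 3 W = 0 := by
      classical
      ext d
      rw [coeff_zero]
      by_contra hne
      have h6 : Finsupp.weight wt d = r + 3 := whc_wh h1 3 hne
      have h7 : Finsupp.weight pw d = 3 := comp_pa 3 W hne
      obtain ⟨α, rfl⟩ := exists_tp h7
      rw [weight_wt_tp] at h6
      omega
    refine ⟨f, 0, hf, hfW, ?_⟩
    rw [h5] at hfW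
    rw [mul_zero]; exact Psi_inj hf hfW
  obtain ⟨s, hs⟩ : ∃ s, r + 3 = s + 2 * 3 := ⟨r + 3 - 6, by omega⟩
  have hhom : f.IsHomogeneous s := hom_of_wt (by rw [← hs]; exact whc_wh h1 3) hfs
  have hprod : ((X 0 + X 1) * (X 0 + X 2) * (X 1 + X 2) : MvPolynomial (Fin 3) F) ≠ 0 :=
    mul_ne_zero (mul_ne_zero (irred_XX 0 1 (by decide)).ne_zero
      (irred_XX 0 2 (by decide)).ne_zero) (irred_XX 1 2 (by decide)).ne_zero
  have hy2 : y = C (15 * c) * (chi (X 0) (X 1) (X 2) * f) := by
    rw [g3_three, g5_three] at e2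
    have h7 : (C 3 * ((X 0 + X 1) * (X 0 + X 2) * (X 1 + X 2)) : MvPolynomial (Fin 3) F) ≠ 0 := by
      refine mul_ne_zero ?_ hprod
      rw [Ne, C_eq_zero]; norm_num
    apply mul_left_cancel₀ h7
    rw [e2]
    have h8 : (C (9 * c) * C 5 : MvPolynomial (Fin 3) F) = C 3 * C (15 * c) := by
      rw [← C_mul, ← C_mul]; congr 1; ring
    linear_combination ((X 0 + X 1) * (X 0 + X 2) * (X 1 + X 2) * chi (X 0) (X 1) (X 2) * f) * h8
  -- evaluation over the dual numbers
  have hode : ∀ a : F, 180 * c * ((1 + a ^ 2) * eval ![a, -a, 1] f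
      + a * (eval ![a, -a, 1] (pderiv 0 f) - eval ![a, -a, 1] (pderiv 1 f))
      + a ^ 2 * eval ![a, -a, 1] (pderiv 2 f)) = 0 := by
    intro a
    set φ := algebraMap F (DualNumber F) with hφ
    set E : DualNumber F := DualNumber.eps with hE
    have hEE : E * E = 0 := DualNumber.eps_mul_eps
    have hmap := congrArg (map φ) h3
    rw [map_pb, map_pb, map_Kp, map_Sp] at hmap
    have hW0 : nab 0 (map φ W) = 0 := by rw [← map_nab0, h4, map_zero]
    have hZ0' : nab 0 (map φ Z) = C 15 * map φ W := by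
      rw [← map_nab0, hZ0, map_mul, map_C, map_ofNat]
    have hcm : ∀ (m : ℕ) (A : MvPolynomial ℕ F), comp m (map φ A) = map φ (comp m A) := by
      intro m A
      classical
      ext1 d
      rw [coeff_weightedHomogeneousComponent, coeff_map, coeff_map,
        coeff_weightedHomogeneousComponent]
      split_ifs
      · rfl
      · rw [map_zero]
    have hq : ∀ x y, ev2 x y (map φ W) = 0 := by
      intro x y
      rw [ev2_comp, hcm, hk 2 (by omega), map_zero]; simp [ev2]
    have hw : ∀ x y z, ev3 x y z (map φ W) = 6 * aeval ![x, y, z] f := by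
      intro x y z
      rw [ev3_comp, hcm, ← hfW]; exact ev3_sym hf x y z
    have hz : ∀ x y z, ev3 x y z (map φ Z) = 15 * φ c * chi x y z * ev3 x y z (map φ W) := by
      intro x y z
      rw [hw, ev3_comp, hcm, ← hyZ]
      rw [show ev3 x y z (map φ (Psi 3 _)) = 6 * aeval ![x, y, z] _ from ev3_sym hy x y z, hy2]
      simp only [map_mul, map_add, aeval_C, chi, aeval_X]
      simp
      rw [← hφ, show φ 15 = 15 from map_ofNat φ 15]
      ring
    have hexp : ∀ v : Fin 3 → F, aeval (fun i => φ (![a, -a, 1] i) + φ (v i) * E) f =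
        φ (eval ![a, -a, 1] f) + φ (∑ i, v i * eval ![a, -a, 1] (pderiv i f)) * E :=
      fun v => aeval_dual _ v f
    have e0 : ev3 (φ a) (-φ a) 1 (map φ W) = 6 * φ (eval ![a, -a, 1] f) := by
      rw [hw]
      have := hexp 0
      simp only [Pi.zero_apply, zero_mul, map_zero, add_zero, Finset.sum_const_zero] at this
      rw [← this]
      congr 3
      ext1 i; fin_cases i <;> simp
    have e6 : ev3 (φ a + E) (-φ a) 1 (map φ W) =
        6 * (φ (eval ![a, -a, 1] f) + φ (eval ![a, -a, 1] (pderiv 0 f)) * E) := by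
      rw [hw]
      have := hexp ![1, 0, 0]
      simp only [Fin.sum_univ_three] at this
      have h9 : ∀ u v w : F, (![1, 0, 0] : Fin 3 → F) 0 * u + (![1, 0, 0] : Fin 3 → F) 1 * v
        + (![1, 0, 0] : Fin 3 → F) 2 * w = u := by intro u v w; simp
      rw [h9] at this
      rw [← this]
      congr 3
      ext1 i; fin_cases i <;> simp
    have e8 : ev3 (-φ a + E) (φ a) 1 (map φ W) =
        6 * (φ (eval ![a, -a, 1] f) + φ (eval ![a, -a, 1] (pderiv 1 f)) * E) := by
      rw [hw, (perm3 hf (φ a) (-φ a + E) 1).2.1]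
      have := hexp ![0, 1, 0]
      simp only [Fin.sum_univ_three] at this
      have h9 : ∀ u v w : F, (![0, 1, 0] : Fin 3 → F) 0 * u + (![0, 1, 0] : Fin 3 → F) 1 * v
        + (![0, 1, 0] : Fin 3 → F) 2 * w = v := by intro u v w; simp
      rw [h9] at this
      rw [← this]
      congr 3
      ext1 i; fin_cases i <;> simp
    have e9 : ev3 (1 + E) (φ a) (-φ a) (map φ W) =
        6 * (φ (eval ![a, -a, 1] f) + φ (eval ![a, -a, 1] (pderiv 2 f)) * E) := by
      rw [hw, (perm3 hf (φ a) (-φ a) (1 + E)).2.2.2.1]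
      have := hexp ![0, 0, 1]
      simp only [Fin.sum_univ_three] at this
      have h9 : ∀ u v w : F, (![0, 0, 1] : Fin 3 → F) 0 * u + (![0, 0, 1] : Fin 3 → F) 1 * v
        + (![0, 0, 1] : Fin 3 → F) 2 * w = w := by intro u v w; simp
      rw [h9] at this
      rw [← this]
      congr 3
      ext1 i; fin_cases i <;> simp
    have key := key3 hEE hmap hW0 hZ0' hq hz e0 e6 e8 e9
    apply dual_zero
    rw [← hφ, ← hE, ← key]
    simp only [map_mul, map_add, map_sub, map_pow, map_one, map_ofNat]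
  -- the function of one variable
  set G : Polynomial F := aeval ![Polynomial.X, -Polynomial.X, 1] f with hG
  have hev : ∀ (a : F) (p : MvPolynomial (Fin 3) F),
      Polynomial.eval a (aeval ![Polynomial.X, -Polynomial.X, 1] p) = eval ![a, -a, 1] p := by
    intro a p
    have h10 : (Polynomial.evalRingHom a).comp ((aeval ![Polynomial.X, -Polynomial.X, 1] :
        MvPolynomial (Fin 3) F →ₐ[F] Polynomial F) : _ →+* _) = eval ![a, -a, 1] := by
      apply MvPolynomial.ringHom_ext
      · intro r; simp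
      · intro i; fin_cases i <;> simp
    exact congrArg (fun g => g p) h10
  have hGz : G = 0 := by
    apply ode_zero s G
    apply Polynomial.funext
    intro a
    have hd : Polynomial.derivative G =
        aeval ![Polynomial.X, -Polynomial.X, 1] (pderiv 0 f)
          - aeval ![Polynomial.X, -Polynomial.X, 1] (pderiv 1 f) := by
      rw [hG, deriv_aeval, Fin.sum_univ_three]
      simp
      ring
    have heu : a * eval ![a, -a, 1] (pderiv 0 f) - a * eval ![a, -a, 1] (pderiv 1 f)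
        + eval ![a, -a, 1] (pderiv 2 f) = s * eval ![a, -a, 1] f := by
      have h11 := congrArg (eval ![a, -a, 1]) hhom.sum_X_mul_pderiv
      rw [Fin.sum_univ_three] at h11
      simp only [map_add, map_mul, eval_X, nsmul_eq_mul, map_natCast] at h11
      simp at h11
      linear_combination h11
    have ho := hode a
    have hc180 : (180 * c : F) ≠ 0 := mul_ne_zero (by norm_num) hc
    have ho2 := (mul_eq_zero.1 ho).resolve_left hc180
    rw [hd]
    simp only [Polynomial.eval_add, Polynomial.eval_sub, Polynomial.eval_mul, Polynomial.eval_pow,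
      Polynomial.eval_X, Polynomial.eval_natCast, hev, hG, Polynomial.eval_zero]
    linear_combination ho2 - a ^ 2 * heu
  obtain ⟨q, hq⟩ := g3_dvd_three hhom hf (by
    intro a
    rw [← hev, ← hG, hGz, Polynomial.eval_zero])
  exact ⟨f, q, hf, hfW, hq⟩

end

end Pool.Agent.Work.MP_c4d6c8_mp
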