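import Pool.Agent.Work.MP_c4d6c8_mp.Core5

set_option autoImplicit false
set_option linter.unusedSimpArgs false

namespace Pool.Agent.Work.MP_c4d6c8_mp

open MvPolynomial

section
variable {F : Type*} [Field F] [CharZero F]

/-- divisibility for `n = 2`, using the absence of `v_0, v_1` -/
lemma dvd_2 {r : ℕ} (hr : Odd (r + 3)) {W : MvPolynomial ℕ F} (hW : Wt W (r + 3))
    (hs : ∀ d ∈ W.support, d 0 = 0 ∧ d 1 = 0) :
    ∃ q : MvPolynomial (Fin 2) F, Psi 2 (g3 2 * q) = comp 2 W ∧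
      ∀ β ∈ q.support, ∀ i, 1 ≤ β i := by
  classical
  obtain ⟨f, hf, hfW, hfs⟩ := exists_sym (comp_pa 2 W)
  have hsup : ∀ β ∈ f.support, (∀ i, 2 ≤ β i) ∧ Odd (β 0 + β 1) := by
    intro β hβ
    have h1 : tp β ∈ W.support := whc_support W 2 _ (hfs β hβ)
    have h2 := hs _ h1
    constructor
    · intro i
      rw [tp_apply, tp_apply] at h2
      obtain ⟨h3, h4⟩ := h2
      rw [Fintype.card_eq_zero_iff] at h3 h4
      by_contra h5
      have h6 : β i = 0 ∨ β i = 1 := by omega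
      rcases h6 with h6 | h6
      · exact h3.elim ⟨i, h6⟩
      · exact h4.elim ⟨i, h6⟩
    · have h3 := hW (mem_support_iff.1 h1)
      rw [weight_wt_tp, Finsupp.degree_eq_sum, Fin.sum_univ_two] at h3
      rw [← h3] at hr
      obtain ⟨k, hk⟩ := hr
      exact ⟨k - 2, by omega⟩
  have hdvd : (X 0 ^ 2 * X 1 ^ 2 : MvPolynomial (Fin 2) F) ∣ f := by
    rw [f.as_sum]
    apply Finset.dvd_sum
    intro β hβ
    refine ⟨monomial (β - (Finsupp.single 0 2 + Finsupp.single 1 2)) (coeff β f), ?_⟩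
    have h1 : (Finsupp.single (0 : Fin 2) 2 + Finsupp.single 1 2)
        + (β - (Finsupp.single 0 2 + Finsupp.single 1 2)) = β := by
      ext i
      have := (hsup β hβ).1 i
      fin_cases i
      · simp at this ⊢; omega
      · simp at this ⊢; omega
    rw [X_pow_eq_monomial, X_pow_eq_monomial, monomial_mul, monomial_mul, one_mul, one_mul, h1]
  obtain ⟨f1, hf1⟩ := hdvd
  have hanti : (aeval ![X 0, -X 0] f : MvPolynomial (Fin 2) F) = 0 := by
    have h1 : (aeval ![X 0, -X 0] f : MvPolynomial (Fin 2) F) + aeval ![-X 0, X 0] f = 0 := by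
      rw [aeval_def, eval₂_eq', aeval_def, eval₂_eq', ← Finset.sum_add_distrib]
      apply Finset.sum_eq_zero
      intro β hβ
      rw [Fin.prod_univ_two, Fin.prod_univ_two]
      have h2 := (hsup β hβ).2
      simp only [Matrix.cons_val_zero, Matrix.cons_val_one]
      have h3 : ((-1 : MvPolynomial (Fin 2) F)) ^ β 0 + (-1) ^ β 1 = 0 := by
        rcases Nat.even_or_odd (β 0) with h4 | h4
        · have h5 : Odd (β 1) := by
            rw [Nat.odd_add] at h2
            by_contra h6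
            rw [Nat.not_odd_iff_even] at h6
            exact (Nat.not_odd_iff_even.2 h4) (h2.2 h6)
          rw [h4.neg_one_pow, h5.neg_one_pow]; ring
        · have h5 : Even (β 1) := (Nat.odd_add.1 h2).1 h4
          rw [h4.neg_one_pow, h5.neg_one_pow]; ring
      rw [neg_pow (X 0 : MvPolynomial (Fin 2) F) (β 0), neg_pow (X 0 : MvPolynomial (Fin 2) F) (β 1)]
      linear_combination (algebraMap F (MvPolynomial (Fin 2) F) (coeff β f) * X 0 ^ β 0
        * X 0 ^ β 1) * h3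
    have h2 : (aeval ![-X 0, X 0] f : MvPolynomial (Fin 2) F) = aeval ![X 0, -X 0] f := by
      rw [← aeval_perm hf (Equiv.swap 0 1) ![X 0, -X 0]]
      congr 2
      ext1 i; fin_cases i <;> rfl
    rw [h2] at h1
    have h3 : (2 : MvPolynomial (Fin 2) F) * aeval ![X 0, -X 0] f = 0 := by
      linear_combination h1
    exact (mul_eq_zero.1 h3).resolve_left two_ne_zero
  have h1 : aeval ![X 0, -X 0] f1 = (0 : MvPolynomial (Fin 2) F) := by
    rw [hf1, map_mul, map_mul, map_pow, map_pow, aeval_X, aeval_X] at hanti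
    simp only [Matrix.cons_val_zero, Matrix.cons_val_one] at hanti
    refine (mul_eq_zero.1 hanti).resolve_left ?_
    exact mul_ne_zero (pow_ne_zero _ (X_ne_zero 0)) (pow_ne_zero _ (neg_ne_zero.2 (X_ne_zero 0)))
  have u1 : Function.update (X : Fin 2 → MvPolynomial (Fin 2) F) 1 (-X 0) =
      ![X 0, -X 0] := by ext1 i; fin_cases i <;> simp
  obtain ⟨f2, hf2⟩ := fac 0 1 f1 (by rw [u1]; exact h1)
  refine ⟨X 0 * X 1 * (C (1 / 3) * f2), ?_, ?_⟩
  · rw [← hfW, hf1, hf2]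
    congr 1
    have h2 : (C 3 : MvPolynomial (Fin 2) F) * C (1 / 3) = 1 := by
      rw [← C_mul]; norm_num
    have h3 : (C 3 : MvPolynomial (Fin 2) F) = 3 := map_ofNat C 3
    rw [h3] at h2
    simp only [g3, ps, Fin.sum_univ_two]
    linear_combination (X 0 ^ 2 * X 1 ^ 2 * (X 0 + X 1) * f2) * h2
  · intro β hβ i
    have h2 : X i ∣ (X 0 * X 1 * (C (1 / 3) * f2) : MvPolynomial (Fin 2) F) := by
      fin_cases i
      · exact ⟨X 1 * (C (1 / 3) * f2), by simp; ring⟩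
      · exact ⟨X 0 * (C (1 / 3) * f2), by simp; ring⟩
    by_contra h3
    have h4 : β i = 0 := by omega
    obtain ⟨p, hp⟩ := h2
    rw [hp, mem_support_iff, coeff_X_mul', if_neg] at hβ
    · exact hβ rfl
    · rw [Finsupp.mem_support_iff]; exact fun h => h h4

lemma step_2 {c : F} (hc : c ≠ 0) {r : ℕ} (hr : Odd (r + 3)) {W Z : MvPolynomial ℕ F}
    (h : Good c r W Z) (hk : ∀ k, k < 2 → comp k W = 0)
    (hs : ∀ d ∈ W.support, d 0 = 0 ∧ d 1 = 0) :
    ∃ R Z', Wt R r ∧ nab 0 R = 0 ∧ Good c r (W - pb (Kp c) R) Z' ∧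
      ∀ k, k < 2 + 1 → comp k (W - pb (Kp c) R) = 0 := by
  obtain ⟨q, hq, hqs⟩ := dvd_2 hr h.1 hs
  have hp : Pa (C (1 / (2 * c)) * Psi 2 q) 2 := (Psi_pa q).C_mul _
  have hR : pb (X 2) (C (1 / (2 * c)) * Psi 2 q) = C (1 / (2 * c)) * comp 2 W := by
    rw [pb_C_mul_right, pb_X2_Psi, hq]
  refine step_core hc h hk hp hR ?_
  apply nab0_of_support
  intro d hd
  have h1 := whc_support _ _ _ hd
  have h2 : d ∈ (Psi 2 q).support := by
    rw [mem_support_iff, coeff_C_mul] at h1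
    rw [mem_support_iff]
    exact right_ne_zero_of_mul h1
  obtain ⟨β, hβ, rfl⟩ := support_Psi q d h2
  rw [tp_apply, Fintype.card_eq_zero_iff]
  refine ⟨fun i => ?_⟩
  have h3 := hqs β hβ i.1
  have h4 := i.2
  omega

lemma step_n {c : F} (hc : c ≠ 0) {n r : ℕ} (hr : Odd (r + 3)) (hn : 3 ≤ n)
    {W Z : MvPolynomial ℕ F} (h : Good c r W Z) (hk : ∀ k, k < n → comp k W = 0) :
    ∃ R Z', Wt R r ∧ nab 0 R = 0 ∧ Good c r (W - pb (Kp c) R) Z' ∧
      ∀ k, k < n + 1 → comp k (W - pb (Kp c) R) = 0 := by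
  obtain ⟨f, q, h1, h2, h3⟩ : ∃ f q : MvPolynomial (Fin n) F, f.IsSymmetric ∧
      Psi n f = comp n W ∧ f = g3 n * q := by
    rcases Nat.lt_or_ge 3 n with h4 | h4
    · exact dvd_ge4 hc hr h4 h hk
    · have : n = 3 := le_antisymm h4 hn
      subst this
      exact dvd_3 hc hr h hk
  exact step_ge3 hc hn h hk h1 h2 h3

lemma descent {c : F} (hc : c ≠ 0) {r : ℕ} (hr : Odd (r + 3)) (N : ℕ) :
    ∀ (n : ℕ) (W Z : MvPolynomial ℕ F), 3 ≤ n → r + 3 < n + N → Good c r W Z →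
      (∀ k, k < n → comp k W = 0) → ∃ R, Wt R r ∧ nab 0 R = 0 ∧ W = pb (Kp c) R := by
  induction N with
  | zero =>
    intro n W Z hn hN h hk
    refine ⟨0, isWeightedHomogeneous_zero _ _ _, map_zero _, ?_⟩
    rw [pb_zero_right]
    exact big_zero (by simpa using hN) h.1 hk
  | succ N ih =>
    intro n W Z hn hN h hk
    obtain ⟨R, Z', h1, h2, h3, h4⟩ := step_n hc hr hn h hk
    obtain ⟨R', h5, h6, h7⟩ := ih (n + 1) _ Z' (by omega) (by omega) h3 h4
    refine ⟨R + R', h1.add h5, by rw [map_add, h2, h6, add_zero], ?_⟩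
    rw [pb_add_right, ← h7]; ring

/-- every solution is a gauge transform of zero -/
lemma exists_gauge {c : F} (hc : c ≠ 0) {r : ℕ} (hr : Odd (r + 3)) {W Z : MvPolynomial ℕ F}
    (h : Good c r W Z) (hs : ∀ d ∈ W.support, d 0 = 0 ∧ d 1 = 0) :
    ∃ R, Wt R r ∧ nab 0 R = 0 ∧ W = pb (Kp c) R := by
  have hk : ∀ k, k < 2 → comp k W = 0 := by
    intro k hk
    have hk2 : k = 0 ∨ k = 1 := by omega
    rcases hk2 with rfl | rfl
    · exact comp0_wt h.1 (by omega)
    · have hr1 : Odd (r + 1) := by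
        obtain ⟨k, hk⟩ := hr; exact ⟨k - 1, by omega⟩
      exact linpart_zero hc hr1 (W := W) (Z := Z) h.1 h.2.1 h.2.2.1 h.2.2.2
  obtain ⟨R, Z', h1, h2, h3, h4⟩ := step_2 hc hr h hk hs
  obtain ⟨R', h5, h6, h7⟩ := descent hc hr (r + 3) 3 _ Z' (by omega) (by omega) h3 h4
  refine ⟨R + R', h1.add h5, by rw [map_add, h2, h6, add_zero], ?_⟩
  rw [pb_add_right, ← h7]; ring

end

end Pool.Agent.Work.MP_c4d6c8_mp
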