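import Pool.Agent.Work.MP_c4d6c8_mp.Core6

set_option autoImplicit false
set_option linter.unusedSimpArgs false

namespace Pool.Agent.Work.MP_c4d6c8_mp

open MvPolynomial

section
variable {T : Type*} [CommRing T]

/-- the partial derivative by `v_1` -/
noncomputable def d1 : Derivation T (MvPolynomial ℕ T) (MvPolynomial ℕ T) :=
  mkDerivation T (fun k => if k = 1 then 1 else 0)

lemma d1_X (k : ℕ) : d1 (T := T) (X k) = if k = 1 then 1 else 0 := by simp [d1]

/-- weighted Euler operator -/
noncomputable def Eu : Derivation T (MvPolynomial ℕ T) (MvPolynomial ℕ T) :=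
  mkDerivation T (fun k => C ((k : T) + 1) * X k)

lemma Eu_X (k : ℕ) : Eu (T := T) (X k) = C ((k : T) + 1) * X k := by simp [Eu]

noncomputable def Gd (Y : MvPolynomial ℕ T) :
    Derivation T (MvPolynomial ℕ T) (MvPolynomial ℕ T) :=
  mkDerivation T (fun k => C (k : T) * (dvM (0 : T))^[k - 1] Y)

lemma Gd_X (Y : MvPolynomial ℕ T) (k : ℕ) :
    Gd Y (X k) = C (k : T) * (dvM (0 : T))^[k - 1] Y := by simp [Gd]

lemma d1_dv (A : MvPolynomial ℕ T) : d1 (dv A) = dv (d1 A) + nab 0 A := by
  apply comm_eq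
  intro k
  rw [dv_X, d1_X, d1_X, nab_X]
  rcases k with _ | k
  · simp
  · have h1 : ¬ (k + 1 + 1 = 1) := by omega
    rw [if_neg h1, zero_pow (Nat.succ_ne_zero k), C_0]
    split_ifs <;> simp

lemma d1_iter (Z : MvPolynomial ℕ T) (k : ℕ) :
    d1 ((dvM 0)^[k] Z) = (dvM 0)^[k] (d1 Z) + C (k : T) * (dvM 0)^[k - 1] (nab 0 Z) := by
  induction k with
  | zero => simp
  | succ n ih =>
    have h0 : nab 0 ((dvM (0 : T))^[n] Z) = (dvM 0)^[n] (nab 0 Z) := by
      rw [nab_iter, add_zero]
    rw [iter_dvM_succ, dvM_zero, d1_dv, ih, h0, iter_dvM_succ, dvM_zero, map_add,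
      Derivation.leibniz, derivation_C]
    rcases n with _ | n
    · simp
    · simp only [smul_eq_mul, mul_zero, add_zero, Nat.add_sub_cancel]
      rw [← dvM_zero ((dvM 0)^[n] (nab 0 Z)), ← iter_dvM_succ]
      push_cast
      rw [map_add (C : T →+* MvPolynomial ℕ T) ((n : T) + 1) 1, C_1]
      ring

lemma d1_evo (Z A : MvPolynomial ℕ T) :
    d1 (evo Z A) = evo Z (d1 A) + (evo (d1 Z) A + Gd (nab 0 Z) A) := by
  have := comm_eq d1 (evo Z) (evo (d1 Z) + Gd (nab 0 Z)) (by
    intro k
    have h0 : evo Z (d1 (T := T) (X k)) = 0 := by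
      rw [d1_X]; split_ifs <;> simp
    rw [h0, sub_zero, evoM_X, d1_iter, Derivation.add_apply, evoM_X, Gd_X]) A
  rw [this]; rfl

lemma Gd_zero (A : MvPolynomial ℕ T) : Gd 0 A = 0 := by
  have : Gd (0 : MvPolynomial ℕ T) = 0 := by
    apply derivation_ext; intro k; rw [Gd_X, iter_zero]; simp
  rw [this]; rfl

lemma d1_Kp (c : T) : d1 (Kp c) = 0 := by
  simp only [Kp, map_add, Derivation.leibniz, Derivation.leibniz_pow, derivation_C, d1_X]
  simp

lemma d1_pb_Kp (c : T) {R : MvPolynomial ℕ T} (h0 : nab 0 R = 0) :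
    d1 (pb (Kp c) R) = pb (Kp c) (d1 R) - C 2 * Eu R := by
  have h1 : d1 (evo (dv R) (Kp c)) = evo (dv (d1 R)) (Kp c) := by
    rw [d1_evo, d1_Kp, map_zero, d1_dv, h0, add_zero, nab0_dv, h0, map_zero, Gd_zero]
    ring
  have h2 : d1 (evo (dv (Kp c)) R) = evo (dv (Kp c)) (d1 R) + C 2 * Eu R := by
    rw [d1_evo, d1_dv, d1_Kp, map_zero, zero_add, nab0_dv, nab0_Kp]
    congr 1
    have h3 : evo (2 * X 0 : MvPolynomial ℕ T) + Gd (dv (2 * X 0)) = (2 : T) • Eu := by
      apply derivation_ext
      intro k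
      have h4 : (2 * X 0 : MvPolynomial ℕ T) = (2 : T) • X 0 := by
        rw [smul_eq_C_mul, map_ofNat]
      rw [h4, Derivation.map_smul, dv_X, Derivation.add_apply, evoM_X, Gd_X, iter_smul, iter_smul,
        iter_dv_X, iter_dv_X, Derivation.smul_apply, Eu_X]
      rcases k with _ | k
      · simp
      · simp only [smul_eq_C_mul, Nat.add_sub_cancel]
        push_cast
        simp only [map_add, C_1]
        ring_nf
    have h5 := congrArg (fun D => D R) h3
    simp only [Derivation.add_apply, Derivation.smul_apply] at h5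
    rw [h5, smul_eq_C_mul]
  rw [pb, map_sub, h1, h2, pb]
  ring

lemma d1_Eu (A : MvPolynomial ℕ T) : d1 (Eu A) = Eu (d1 A) + C 2 * d1 A := by
  have := comm_eq d1 (Eu (T := T)) ((2 : T) • d1) (by
    intro k
    rw [Eu_X, Derivation.leibniz, derivation_C, d1_X, Derivation.smul_apply, d1_X]
    by_cases hk : k = 1
    · subst hk
      simp only [if_true, smul_zero, add_zero, Derivation.map_one_eq_zero, sub_zero]
      push_cast
      rw [smul_eq_mul, mul_one, smul_eq_C_mul, mul_one]
      congr 1; norm_num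
    · simp [hk]) A
  rw [this, Derivation.smul_apply, smul_eq_C_mul]

lemma nab0_d1 (A : MvPolynomial ℕ T) : nab 0 (d1 A) = d1 (nab 0 A) := by
  apply comm_of_X
  intro k
  rw [d1_X, nab_X, derivation_C]
  split_ifs <;> simp

lemma nab0_d1_iter {R : MvPolynomial ℕ T} (h0 : nab 0 R = 0) (I : ℕ) :
    nab 0 (d1^[I] R) = 0 := by
  induction I with
  | zero => exact h0
  | succ n ih => rw [Function.iterate_succ_apply', nab0_d1, ih, map_zero]

lemma pb_d1_iter (c : T) {R : MvPolynomial ℕ T} (h0 : nab 0 R = 0)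
    (hW : d1 (pb (Kp c) R) = 0) (I : ℕ) :
    pb (Kp c) (d1^[I + 1] R) = C (2 * ((I : T) + 1)) * (Eu (d1^[I] R) + C (I : T) * d1^[I] R) := by
  induction I with
  | zero =>
    have := d1_pb_Kp c h0
    rw [hW] at this
    simp only [zero_add, Function.iterate_one, Function.iterate_zero, id, Nat.cast_zero, mul_one,
      C_0, zero_mul, add_zero]
    linear_combination -this
  | succ n ih =>
    have h1 := congrArg d1 ih
    rw [d1_pb_Kp c (nab0_d1_iter h0 (n + 1)), Derivation.leibniz, derivation_C, map_add, d1_Eu,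
      Derivation.leibniz, derivation_C, ← Function.iterate_succ_apply' (f := d1),
      ← Function.iterate_succ_apply' (f := d1)] at h1
    simp only [smul_zero, add_zero, smul_eq_mul, Nat.succ_eq_add_one] at h1
    have h2 : ∀ (B D : MvPolynomial ℕ T), C (2 * ((n : T) + 1)) * (B + C 2 * D + C (n : T) * D)
        + C 2 * B = C (2 * (((n + 1 : ℕ) : T) + 1)) * (B + C ((n + 1 : ℕ) : T) * D) := by
      intro B D
      push_cast
      simp only [map_add, map_mul, C_1, map_ofNat, map_natCast]
      ring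
    rw [← h2]
    linear_combination h1

lemma d1_nilp (N : ℕ) : ∀ A : MvPolynomial ℕ T, (∀ d ∈ A.support, d 1 < N) → d1^[N] A = 0 := by
  have hpd : ∀ A : MvPolynomial ℕ T, d1 A = pderiv 1 A := by
    intro A
    have : (d1 : Derivation T (MvPolynomial ℕ T) (MvPolynomial ℕ T)) = pderiv 1 := by
      apply derivation_ext; intro k
      rw [d1_X, pderiv_X]
      by_cases hk : k = 1
      · subst hk; simp
      · rw [if_neg hk, Pi.single_eq_of_ne hk]
    rw [this]
  induction N with
  | zero =>
    intro A hA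
    have : A.support = ∅ := by
      rw [Finset.eq_empty_iff_forall_notMem]
      intro d hd; exact absurd (hA d hd) (by omega)
    rw [Function.iterate_zero, id]
    exact support_eq_empty.1 this
  | succ n ih =>
    intro A hA
    rw [Function.iterate_succ_apply]
    apply ih
    intro d hd
    rw [hpd, mem_support_iff, coeff_pderiv] at hd
    have h1 : d + Finsupp.single 1 1 ∈ A.support := by
      rw [mem_support_iff]
      intro h; rw [h] at hd; simp at hd
    have h2 := hA _ h1
    simp at h2
    omega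

lemma Eu_monomial (d : ℕ →₀ ℕ) (a : T) :
    Eu (monomial d a) = monomial d (a * ((Finsupp.weight (fun k : ℕ => k + 1) d : ℕ) : T)) := by
  induction d using Finsupp.induction_linear generalizing a with
  | zero =>
    have : Eu (monomial 0 a) = 0 := by
      have := derivation_C (Eu (T := T)) a
      rwa [C_apply] at this
    rw [this]; simp
  | add f g hf hg =>
    have : monomial (f + g) a = monomial f a * monomial g (1 : T) := by
      rw [monomial_mul, mul_one]
    rw [this, Derivation.leibniz, smul_eq_mul, smul_eq_mul, hf, hg, monomial_mul, monomial_mul,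
      add_comm g f, ← map_add]
    congr 1
    rw [map_add]; push_cast; ring
  | single k n =>
    have h1 : monomial (Finsupp.single k n) a = C a * X k ^ n := by
      rw [X_pow_eq_monomial, C_mul_monomial, mul_one]
    rw [h1, Derivation.leibniz, derivation_C, smul_zero, add_zero, smul_eq_mul,
      Derivation.leibniz_pow, Eu_X]
    have h2 : monomial (Finsupp.single k n) (a * ((Finsupp.weight (fun k : ℕ => k + 1)
        (Finsupp.single k n) : ℕ) : T)) = C (a * (n * (k + 1))) * X k ^ n := by
      rw [X_pow_eq_monomial, C_mul_monomial, mul_one, Finsupp.weight_single]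
      push_cast; simp
    rw [h2]
    rcases n with _ | n
    · simp
    · simp only [nsmul_eq_mul, smul_eq_mul, Nat.add_sub_cancel, C_mul, map_add, C_1, map_natCast]
      ring

lemma coeff_Eu (A : MvPolynomial ℕ T) (d : ℕ →₀ ℕ) :
    coeff d (Eu A) = ((Finsupp.weight (fun k : ℕ => k + 1) d : ℕ) : T) * coeff d A := by
  classical
  induction A using MvPolynomial.induction_on' with
  | monomial e a =>
    rw [Eu_monomial, coeff_monomial, coeff_monomial]
    by_cases h : e = d
    · subst h; simp [mul_comm]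
    · simp [h]
  | add p q hp hq => simp only [map_add, coeff_add, hp, hq]; ring

end

section
variable {F : Type*} [Field F] [CharZero F]

lemma gauge_zero {c : F} {R : MvPolynomial ℕ F} (h0 : nab 0 R = 0)
    (hW : d1 (pb (Kp c) R) = 0) : pb (Kp c) R = 0 := by
  classical
  have hstep : ∀ I : ℕ, d1^[I + 1] R = 0 →
      ∀ d : ℕ →₀ ℕ, Finsupp.weight (fun k : ℕ => k + 1) d + I ≠ 0 → coeff d (d1^[I] R) = 0 := by
    intro I hI d hd
    have h1 := pb_d1_iter c h0 hW I
    rw [hI, pb_zero_right] at h1
    have h2 : (C (2 * ((I : F) + 1)) : MvPolynomial ℕ F) ≠ 0 := by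
      rw [Ne, C_eq_zero]
      exact mul_ne_zero two_ne_zero (Nat.cast_add_one_ne_zero I)
    have h3 := (mul_eq_zero.1 h1.symm).resolve_left h2
    have h4 := congrArg (coeff d) h3
    rw [coeff_add, coeff_Eu, coeff_C_mul, coeff_zero, ← add_mul, ← Nat.cast_add] at h4
    exact (mul_eq_zero.1 h4).resolve_left (Nat.cast_ne_zero.2 hd)
  have hN : ∀ N : ℕ, d1^[N + 1] R = 0 → d1^[1] R = 0 := by
    intro N
    induction N with
    | zero => exact id
    | succ n ih =>
      intro h
      apply ih
      ext d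
      rw [coeff_zero]
      exact hstep (n + 1) h d (by omega)
  have h1 : d1^[1] R = 0 := by
    apply hN (R.support.sup (fun d => d 1))
    apply d1_nilp
    intro d hd
    exact Nat.lt_succ_of_le (Finset.le_sup (f := fun d : ℕ →₀ ℕ => d 1) hd)
  have h2 : R = C (coeff 0 R) := by
    ext d
    rw [coeff_C]
    by_cases hd : 0 = d
    · rw [if_pos hd, hd]
    · rw [if_neg hd]
      apply hstep 0 h1 d
      rw [add_zero]
      intro h3
      apply hd
      rw [Finsupp.weight_apply, Finsupp.sum, Finset.sum_eq_zero_iff] at h3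
      ext i
      by_contra hi
      have := h3 i (Finsupp.mem_support_iff.2 (Ne.symm hi))
      simp only [smul_eq_mul, mul_eq_zero] at this
      have h5 : d i = 0 := by
        rcases this with h5 | h5
        · exact h5
        · omega
      exact hi h5.symm
  rw [h2, pb_C_right]

omit [CharZero F] in
lemma d1_of_support {A : MvPolynomial ℕ F} (h : ∀ d ∈ A.support, d 1 = 0) : d1 A = 0 :=
  d1_nilp 1 A (fun d hd => by rw [h d hd]; exact Nat.one_pos)

/-- The core statement. -/
theorem core {c : F} (hc : c ≠ 0) {w : ℕ} (hw : Odd w) {W Z : MvPolynomial ℕ F}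
    (hW : Wt W w) (hZ : Wt Z (w + 2)) (h : pb (Kp c) Z = pb (Sp c) W)
    (hs : ∀ d ∈ W.support, d 0 = 0 ∧ d 1 = 0) : W = 0 := by
  by_cases hw1 : w = 1
  · subst hw1; exact wt_one hW
  · obtain ⟨r, rfl⟩ : ∃ r, w = r + 3 := by
      obtain ⟨k, rfl⟩ := hw
      exact ⟨2 * k + 1 - 3, by omega⟩
    have h0 : nab 0 W = 0 := nab0_of_support (fun d hd => (hs d hd).1)
    obtain ⟨R, _, h2, h3⟩ := exists_gauge hc hw (W := W) (Z := Z) ⟨hW, hZ, h, h0⟩ hs
    have h4 : d1 W = 0 := d1_of_support (fun d hd => (hs d hd).2)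
    rw [h3] at h4 ⊢
    exact gauge_zero h2 h4

end

end Pool.Agent.Work.MP_c4d6c8_mp
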