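import Mathlib

set_option autoImplicit false

namespace Pool.Agent.Work.MP_c4d6c8_mp

open MvPolynomial

/-- The ring `ℂ[[u]][u_1, u_2, …]` of differential polynomials. The variable `X j` is `u_{j+1}`,
and the coefficient ring `PowerSeries ℂ` is `ℂ[[u]]`. -/
abbrev DiffPoly : Type := MvPolynomial ℕ (PowerSeries ℂ)

/-- The jet variable `u_k`; here `u_0 = u`. -/
noncomputable def uvar : ℕ → DiffPoly
  | 0 => C PowerSeries.X
  | k + 1 => X k

/-- The derivation `∂/∂u_k`; for `k = 0` it differentiates the coefficients in `ℂ[[u]]`. -/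
noncomputable def pdU : ℕ → DiffPoly → DiffPoly
  | 0, f => ∑ d ∈ f.support, monomial d (PowerSeries.derivative ℂ (coeff d f))
  | k + 1, f => pderiv k f

/-- `∂_x = ∑_{k ≥ 0} u_{k+1} ∂/∂u_k` (for each `f` only finitely many terms are nonzero). -/
noncomputable def dX (f : DiffPoly) : DiffPoly := ∑ᶠ k : ℕ, uvar (k + 1) * pdU k f

/-- Formal power series in `ε` with differential polynomial coefficients. -/
abbrev DiffSeries : Type := PowerSeries DiffPoly

/-- `∂/∂u_k` on series in `ε`. -/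
noncomputable def pdUs (k : ℕ) (f : DiffSeries) : DiffSeries :=
  PowerSeries.mk fun n => pdU k (PowerSeries.coeff n f)

/-- `∂_x` on series in `ε`. -/
noncomputable def dXs (f : DiffSeries) : DiffSeries :=
  PowerSeries.mk fun n => dX (PowerSeries.coeff n f)

/-- The equations `u_t = Q` and `u_s = R` commute:
`∑_{k ≥ 0} (∂_x^k Q · ∂R/∂u_k - ∂_x^k R · ∂Q/∂u_k) = 0`, read off at each power `ε^n`
(where only finitely many `k` contribute). -/
def FlowsCommute (Q R : DiffSeries) : Prop :=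
  ∀ n : ℕ, ∑ᶠ k : ℕ, PowerSeries.coeff n (dXs^[k] Q * pdUs k R - dXs^[k] R * pdUs k Q) = 0

/-- A deformation of the Riemann hierarchy: `P_d` is homogeneous of degree `0` (the coefficient
of `ε^k` has differential degree `k`), `P_d = u^{d+1}/(d+1)! + O(ε)`, and the flows
`u_{t_d} = ∂_x P_d` commute pairwise. -/
structure IsDeformation (P : ℕ → DiffSeries) : Prop where
  homogeneous : ∀ d k : ℕ,
    IsWeightedHomogeneous (fun j : ℕ => j + 1) (PowerSeries.coeff k (P d)) k
  leading : ∀ d : ℕ, PowerSeries.coeff 0 (P d) =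
    C (PowerSeries.C (((d + 1).factorial : ℂ)⁻¹) * PowerSeries.X ^ (d + 1))
  commute : ∀ d e : ℕ, FlowsCommute (dXs (P d)) (dXs (P e))

/-- `P₁` is in normal form with data `a` and `c`: `P₁ = u²/2 + ε a(u) u_1 + ∑_{k ≥ 2} ε^k ω_k`,
where `ω_k = ∑_λ c_λ(u) u_λ` over the partitions `λ` of `k` with all parts at least `2`. -/
def IsNormalForm (P₁ : DiffSeries) (a : PowerSeries ℂ)
    (c : (k : ℕ) → Nat.Partition k → PowerSeries ℂ) : Prop :=
  PowerSeries.coeff 0 P₁ = C (PowerSeries.C (1 / 2 : ℂ) * PowerSeries.X ^ 2) ∧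
  PowerSeries.coeff 1 P₁ = C a * uvar 1 ∧
  ∀ k : ℕ, 2 ≤ k → PowerSeries.coeff k P₁ =
    ∑ p ∈ (Finset.univ : Finset (Nat.Partition k)).filter (fun p => ∀ i ∈ p.parts, 2 ≤ i),
      C (c k p) * (p.parts.map uvar).prod

end Pool.Agent.Work.MP_c4d6c8_mp
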