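import Pool.Agent.Work.MP_c4d6c8_mp.Defs

set_option autoImplicit false
set_option linter.unusedSimpArgs false

namespace Pool.Agent.Work.MP_c4d6c8_mp

open MvPolynomial

lemma coeff_pdU0 (f : DiffPoly) (d : ℕ →₀ ℕ) :
    coeff d (pdU 0 f) = PowerSeries.derivative ℂ (coeff d f) := by
  classical
  rw [pdU, coeff_sum]
  simp only [coeff_monomial]
  rw [Finset.sum_ite_eq']
  split_ifs with h
  · rfl
  · rw [notMem_support_iff] at h
    rw [h, map_zero]

lemma pdU_add (k : ℕ) (f g : DiffPoly) : pdU k (f + g) = pdU k f + pdU k g := by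
  rcases k with _ | k
  · ext1 d; rw [coeff_pdU0, coeff_add, map_add, coeff_add, coeff_pdU0, coeff_pdU0]
  · simp [pdU]

lemma pdU_zero (k : ℕ) : pdU k 0 = 0 := by
  rcases k with _ | k
  · ext1 d; rw [coeff_pdU0]; simp
  · simp [pdU]

lemma pdU_mul (k : ℕ) (f g : DiffPoly) : pdU k (f * g) = f * pdU k g + g * pdU k f := by
  classical
  rcases k with _ | k
  · rw [mul_comm g]
    ext1 d
    rw [coeff_pdU0, coeff_mul, map_sum, coeff_add, coeff_mul, coeff_mul, ← Finset.sum_add_distrib]
    apply Finset.sum_congr rfl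
    intro p _
    rw [Derivation.leibniz, coeff_pdU0, coeff_pdU0, smul_eq_mul, smul_eq_mul]
    ring
  · simp [pdU, Derivation.leibniz]

lemma pdU0_C (a : PowerSeries ℂ) : pdU 0 (C a) = C (PowerSeries.derivative ℂ a) := by
  classical
  ext1 d
  rw [coeff_pdU0, coeff_C, coeff_C]
  split_ifs
  · rfl
  · rw [map_zero]

lemma pdUs_C (k : ℕ) (a : PowerSeries ℂ) : pdU (k + 1) (C a) = 0 := by simp [pdU]

lemma pdU0_X (j : ℕ) : pdU 0 (X j) = 0 := by
  classical
  ext1 d
  rw [coeff_pdU0, coeff_X, coeff_zero]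
  split_ifs
  · exact PowerSeries.derivative_one
  · rw [map_zero]

lemma pdUs_X (k j : ℕ) : pdU (k + 1) (X j) = if j = k then 1 else 0 := by
  classical
  rw [pdU, pderiv_X]
  by_cases h : j = k
  · subst h; simp
  · rw [if_neg h, Pi.single_eq_of_ne h]

lemma pdU_finite (f : DiffPoly) : ∃ N, ∀ k, N ≤ k → pdU k f = 0 := by
  classical
  refine ⟨f.vars.sup id + 2, ?_⟩
  intro k hk
  rcases k with _ | k
  · omega
  · rw [pdU]
    apply pderiv_eq_zero_of_notMem_vars
    intro h
    have := Finset.le_sup (f := id) h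
    simp only [id] at this
    omega

/-- `∑_k g_k ∂f/∂u_k` -/
noncomputable def EE (g : ℕ → DiffPoly) (f : DiffPoly) : DiffPoly := ∑ᶠ k : ℕ, g k * pdU k f

lemma EE_support (g : ℕ → DiffPoly) (f : DiffPoly) :
    (Function.support fun k => g k * pdU k f).Finite := by
  obtain ⟨N, hN⟩ := pdU_finite f
  apply Set.Finite.subset (Set.finite_Iio N)
  intro k hk
  rw [Function.mem_support] at hk
  rw [Set.mem_Iio]
  by_contra h
  exact hk (by rw [hN k (by omega), mul_zero])

lemma EE_eq_sum (g : ℕ → DiffPoly) (f : DiffPoly) {N : ℕ} (hN : ∀ k, N ≤ k → pdU k f = 0) :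
    EE g f = ∑ k ∈ Finset.range N, g k * pdU k f := by
  apply finsum_eq_sum_of_support_subset
  intro k hk
  rw [Function.mem_support] at hk
  rw [Finset.coe_range, Set.mem_Iio]
  by_contra h
  exact hk (by rw [hN k (by omega), mul_zero])

lemma EE_add (g : ℕ → DiffPoly) (f h : DiffPoly) : EE g (f + h) = EE g f + EE g h := by
  rw [EE, EE, EE, ← finsum_add_distrib (EE_support g f) (EE_support g h)]
  apply finsum_congr
  intro k
  rw [pdU_add, mul_add]

lemma EE_mul (g : ℕ → DiffPoly) (f h : DiffPoly) :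
    EE g (f * h) = f * EE g h + h * EE g f := by
  rw [EE, EE, EE, mul_finsum, mul_finsum, ← finsum_add_distrib]
  · apply finsum_congr
    intro k
    rw [pdU_mul]; ring
  · apply (EE_support g h).subset
    intro k hk
    rw [Function.mem_support] at hk ⊢
    intro h0; exact hk (by rw [h0, mul_zero])
  · apply (EE_support g f).subset
    intro k hk
    rw [Function.mem_support] at hk ⊢
    intro h0; exact hk (by rw [h0, mul_zero])

lemma EE_C (g : ℕ → DiffPoly) (a : PowerSeries ℂ) :
    EE g (C a) = g 0 * C (PowerSeries.derivative ℂ a) := by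
  rw [EE_eq_sum g (C a) (N := 1)]
  · rw [Finset.sum_range_one, pdU0_C]
  · intro k hk
    obtain ⟨m, rfl⟩ : ∃ m, k = m + 1 := ⟨k - 1, by omega⟩
    exact pdUs_C m a

lemma EE_X (g : ℕ → DiffPoly) (j : ℕ) : EE g (X j) = g (j + 1) := by
  rw [EE_eq_sum g (X j) (N := j + 2)]
  · rw [Finset.sum_eq_single (j + 1)]
    · rw [pdUs_X, if_pos rfl, mul_one]
    · intro k _ hk
      rcases k with _ | k
      · rw [pdU0_X, mul_zero]
      · rw [pdUs_X, if_neg (by omega), mul_zero]
    · intro h; exact absurd (Finset.mem_range.2 (by omega)) h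
  · intro k hk
    obtain ⟨m, rfl⟩ : ∃ m, k = m + 1 := ⟨k - 1, by omega⟩
    rw [pdUs_X, if_neg (by omega)]

lemma dX_eq (f : DiffPoly) : dX f = EE (fun k => uvar (k + 1)) f := rfl

lemma dXs_coeff (f : DiffSeries) (n : ℕ) :
    PowerSeries.coeff n (dXs f) = dX (PowerSeries.coeff n f) := by
  rw [dXs, PowerSeries.coeff_mk]

lemma dXs_iter_coeff (f : DiffSeries) (n k : ℕ) :
    PowerSeries.coeff n (dXs^[k] f) = dX^[k] (PowerSeries.coeff n f) := by
  induction k with
  | zero => rfl
  | succ m ih => rw [Function.iterate_succ_apply', dXs_coeff, ih, Function.iterate_succ_apply']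

/-- the evolutionary vector field with characteristic `Q` -/
noncomputable def evol (Q R : DiffPoly) : DiffPoly := EE (fun k => dX^[k] Q) R

lemma comm_coeff {Q R : DiffSeries} (h : FlowsCommute Q R) (n : ℕ) :
    ∑ p ∈ Finset.HasAntidiagonal.antidiagonal n,
      (evol (PowerSeries.coeff p.1 Q) (PowerSeries.coeff p.2 R)
        - evol (PowerSeries.coeff p.1 R) (PowerSeries.coeff p.2 Q)) = 0 := by
  rw [← h n]
  have hfin : ∀ (A B : DiffSeries) (p : ℕ × ℕ), (Function.support fun k =>
      dX^[k] (PowerSeries.coeff p.1 A) * pdU k (PowerSeries.coeff p.2 B)).Finite :=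
    fun A B p => EE_support _ _
  have h1 : ∀ k, PowerSeries.coeff n (dXs^[k] Q * pdUs k R - dXs^[k] R * pdUs k Q) =
      ∑ p ∈ Finset.HasAntidiagonal.antidiagonal n,
        (dX^[k] (PowerSeries.coeff p.1 Q) * pdU k (PowerSeries.coeff p.2 R)
          - dX^[k] (PowerSeries.coeff p.1 R) * pdU k (PowerSeries.coeff p.2 Q)) := by
    intro k
    rw [map_sub, PowerSeries.coeff_mul, PowerSeries.coeff_mul, Finset.sum_sub_distrib]
    simp only [dXs_iter_coeff, pdUs, PowerSeries.coeff_mk]
  simp only [h1]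
  rw [finsum_sum_comm]
  · apply Finset.sum_congr rfl
    intro p _
    rw [evol, evol, EE, EE, finsum_sub_distrib (hfin Q R p) (hfin R Q p)]
  · intro p _
    apply ((hfin Q R p).union (hfin R Q p)).subset
    intro k hk
    rw [Function.mem_support] at hk
    by_contra h2
    simp only [Set.mem_union, Function.mem_support, not_or, not_not] at h2
    exact hk (by rw [h2.1, h2.2, sub_zero])

end Pool.Agent.Work.MP_c4d6c8_mp
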