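import Pool.Agent.Work.MP_c4d6c8_mp.Ops

set_option autoImplicit false
set_option linter.unusedSimpArgs false

namespace Pool.Agent.Work.MP_c4d6c8_mp

open MvPolynomial

section
variable {T : Type*} [CommRing T]

lemma pb_Kp (c : T) (Z : MvPolynomial ℕ T) :
    pb (Kp c) Z = C 2 * (X 0 * dvM 0 Z) + C (2 * c) * dvM 0 (dvM 0 (dvM 0 Z))
      - evoM 0 (C 2 * (X 0 * X 1) + C (2 * c) * X 3) Z := by
  have h1 : dv (Kp c) = C 2 * (X 0 * X 1) + C (2 * c) * X 3 := by
    simp only [Kp, map_add, Derivation.leibniz, Derivation.leibniz_pow, derivation_C,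
      smul_zero, smul_eq_mul, nsmul_eq_mul, dv_X, Nat.cast_ofNat, pow_one, Nat.add_one_sub_one,
      Nat.reduceAdd, C_mul, C_pow, map_ofNat, der_ofNat, mul_zero, add_zero]
  have h2 : evo (dv Z) (Kp c) = C 2 * (X 0 * dvM 0 Z) + C (2 * c) * dvM 0 (dvM 0 (dvM 0 Z)) := by
    simp only [Kp, map_add, Derivation.leibniz, Derivation.leibniz_pow, derivation_C,
      smul_zero, smul_eq_mul, nsmul_eq_mul, evoM_X, Function.iterate_succ,
      Function.iterate_zero, Function.comp, id, dvM_zero, Nat.cast_ofNat, pow_one,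
      Nat.add_one_sub_one, Nat.reduceAdd, C_mul, C_pow, map_ofNat, der_ofNat, mul_zero, add_zero]
  rw [pb, h1, h2]

lemma pb_Sp (c : T) (Z : MvPolynomial ℕ T) :
    pb (Sp c) Z = C 15 * (X 0 ^ 2 * dvM 0 Z)
      + C (30 * c) * (X 2 * dvM 0 Z + X 1 * dvM 0 (dvM 0 Z) + X 0 * dvM 0 (dvM 0 (dvM 0 Z)))
      + C (18 * c ^ 2) * dvM 0 (dvM 0 (dvM 0 (dvM 0 (dvM 0 Z))))
      - evoM 0 (C 15 * (X 0 ^ 2 * X 1) + C (30 * c) * (2 * (X 1 * X 2) + X 0 * X 3)
        + C (18 * c ^ 2) * X 5) Z := by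
  have h1 : dv (Sp c) = C 15 * (X 0 ^ 2 * X 1) + C (30 * c) * (2 * (X 1 * X 2) + X 0 * X 3)
        + C (18 * c ^ 2) * X 5 := by
    simp only [Sp, map_add, Derivation.leibniz, Derivation.leibniz_pow, derivation_C,
      smul_zero, smul_eq_mul, nsmul_eq_mul, dv_X, Nat.cast_ofNat, pow_one, Nat.add_one_sub_one,
      Nat.reduceAdd, Nat.reduceSub, C_mul, C_pow, map_ofNat, der_ofNat, mul_zero, add_zero]
    ring
  have h2 : evo (dv Z) (Sp c) = C 15 * (X 0 ^ 2 * dvM 0 Z)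
      + C (30 * c) * (X 2 * dvM 0 Z + X 1 * dvM 0 (dvM 0 Z) + X 0 * dvM 0 (dvM 0 (dvM 0 Z)))
      + C (18 * c ^ 2) * dvM 0 (dvM 0 (dvM 0 (dvM 0 (dvM 0 Z)))) := by
    simp only [Sp, map_add, Derivation.leibniz, Derivation.leibniz_pow, derivation_C,
      smul_zero, smul_eq_mul, nsmul_eq_mul, evoM_X, Function.iterate_succ,
      Function.iterate_zero, Function.comp, id, dvM_zero, Nat.cast_ofNat, pow_one,
      Nat.add_one_sub_one, Nat.reduceAdd, Nat.reduceSub, C_mul, C_pow, map_ofNat, der_ofNat, mul_zero, add_zero]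
    ring
  rw [pb, h1, h2]

noncomputable def ev1 (x : T) (A : MvPolynomial ℕ T) : T := constantCoeff (nab x A)
noncomputable def ev2 (x y : T) (A : MvPolynomial ℕ T) : T := constantCoeff (nab x (nab y A))
noncomputable def ev3 (x y z : T) (A : MvPolynomial ℕ T) : T :=
  constantCoeff (nab x (nab y (nab z A)))
noncomputable def ev4 (x y z w : T) (A : MvPolynomial ℕ T) : T :=
  constantCoeff (nab x (nab y (nab z (nab w A))))

lemma ev2_Kp (c x y : T) (Z : MvPolynomial ℕ T) :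
    ev2 x y (pb (Kp c) Z) = 2 * c * ((x + y) ^ 3 - x ^ 3 - y ^ 3) * ev2 x y Z
      + 2 * (x * ev1 x Z + y * ev1 y Z) - 2 * (x + y) * ev1 (x + y) Z := by
  rw [pb_Kp]
  simp only [ev2, ev1, nab_evoM, nab_dvM, map_add, map_sub, map_mul, Derivation.leibniz,
    Derivation.leibniz_pow, derivation_C, nab_X, smul_eq_mul, nsmul_eq_mul, cc_dvM, cc_evoM,
    constantCoeff_X, constantCoeff_C, pow_zero, map_one, mul_zero, zero_mul, mul_one, one_mul,
    add_zero, zero_add, der_ofNat, smul_zero, map_zero, sub_zero, Derivation.map_one_eq_zero,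
    C_1, evoM_zero_left, nab_comm y x]
  ring_nf

lemma ev2_Sp (c x y : T) (Z : MvPolynomial ℕ T) :
    ev2 x y (pb (Sp c) Z) = 18 * c ^ 2 * ((x + y) ^ 5 - x ^ 5 - y ^ 5) * ev2 x y Z
      + 30 * c * ((x ^ 2 * y + x * y ^ 2 + y ^ 3) * ev1 y Z
        + (y ^ 2 * x + y * x ^ 2 + x ^ 3) * ev1 x Z)
      - 30 * c * (2 * (x * y ^ 2 + x ^ 2 * y) + x ^ 3 + y ^ 3) * ev1 (x + y) Z := by
  rw [pb_Sp]
  simp only [ev2, ev1, nab_evoM, nab_dvM, map_add, map_sub, map_mul, map_pow, Derivation.leibniz,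
    Derivation.leibniz_pow, derivation_C, nab_X, smul_eq_mul, nsmul_eq_mul, cc_dvM, cc_evoM,
    constantCoeff_X, constantCoeff_C, pow_zero, map_one, mul_zero, zero_mul, mul_one, one_mul,
    add_zero, zero_add, der_ofNat, smul_zero, map_zero, sub_zero, Derivation.map_one_eq_zero,
    C_1, evoM_zero_left, nab_comm y x, Nat.cast_ofNat, Nat.add_one_sub_one, pow_one, ne_eq,
    OfNat.ofNat_ne_zero, not_false_eq_true, zero_pow, one_ne_zero, map_ofNat]
  ring_nf

/-- the kernel of `2 v_1 v_2 + v_0 v_3` -/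
def zz (x y : T) : T := 2 * (x * y ^ 2 + x ^ 2 * y) + x ^ 3 + y ^ 3

/-- the kernel of `v_2 ∂ + v_1 ∂² + v_0 ∂³`, at the point `x` with the other points summing to `s` -/
def mm (x s : T) : T := x ^ 2 * s + x * s ^ 2 + s ^ 3

lemma ev4_Kp (c x y z w : T) (Z : MvPolynomial ℕ T) :
    ev4 x y z w (pb (Kp c) Z) =
      2 * c * ((x + y + z + w) ^ 3 - x ^ 3 - y ^ 3 - z ^ 3 - w ^ 3) * ev4 x y z w Z
      + 2 * ((y + z + w) * ev3 y z w Z + (x + z + w) * ev3 x z w Z
        + (x + y + w) * ev3 x y w Z + (x + y + z) * ev3 x y z Z)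
      - 2 * ((x + y) * ev3 (x + y) z w Z + (x + z) * ev3 (x + z) y w Z
        + (x + w) * ev3 (x + w) y z Z + (y + z) * ev3 (y + z) x w Z
        + (y + w) * ev3 (y + w) x z Z + (z + w) * ev3 (z + w) x y Z) := by
  rw [pb_Kp]
  simp only [ev4, ev3, nab_evoM, nab_dvM, map_add, map_sub, map_mul, Derivation.leibniz,
    Derivation.leibniz_pow, derivation_C, nab_X, smul_eq_mul, nsmul_eq_mul, cc_dvM, cc_evoM,
    constantCoeff_X, constantCoeff_C, pow_zero, map_one, mul_zero, zero_mul, mul_one, one_mul,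
    add_zero, zero_add, der_ofNat, smul_zero, map_zero, sub_zero, Derivation.map_one_eq_zero,
    C_1, evoM_zero_left, nab_comm y x, nab_comm z x, nab_comm w x, nab_comm z y, nab_comm w y,
    nab_comm w z]
  ring_nf

set_option maxRecDepth 20000 in
lemma ev4_Sp (c x y z w : T) (Z : MvPolynomial ℕ T) :
    ev4 x y z w (pb (Sp c) Z) =
      18 * c ^ 2 * ((x + y + z + w) ^ 5 - x ^ 5 - y ^ 5 - z ^ 5 - w ^ 5) * ev4 x y z w Z
      + 30 * c * (mm x (y + z + w) * ev3 y z w Z + mm y (x + z + w) * ev3 x z w Z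
        + mm z (x + y + w) * ev3 x y w Z + mm w (x + y + z) * ev3 x y z Z)
      - 30 * c * (zz x y * ev3 (x + y) z w Z + zz x z * ev3 (x + z) y w Z
        + zz x w * ev3 (x + w) y z Z + zz y z * ev3 (y + z) x w Z
        + zz y w * ev3 (y + w) x z Z + zz z w * ev3 (z + w) x y Z)
      + 30 * ((x + y) * ev2 x y Z + (x + z) * ev2 x z Z + (x + w) * ev2 x w Z
        + (y + z) * ev2 y z Z + (y + w) * ev2 y w Z + (z + w) * ev2 z w Z)
      - 30 * ((x + y + z) * ev2 (x + y + z) w Z + (x + y + w) * ev2 (x + y + w) z Z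
        + (x + z + w) * ev2 (x + z + w) y Z + (y + z + w) * ev2 (y + z + w) x Z) := by
  rw [pb_Sp]
  simp only [ev4, ev3, ev2, mm, zz, nab_evoM, nab_dvM, map_add, map_sub, map_mul, map_pow,
    Derivation.leibniz,
    Derivation.leibniz_pow, derivation_C, nab_X, smul_eq_mul, nsmul_eq_mul, cc_dvM, cc_evoM,
    constantCoeff_X, constantCoeff_C, pow_zero, map_one, mul_zero, zero_mul, mul_one, one_mul,
    add_zero, zero_add, der_ofNat, smul_zero, map_zero, sub_zero, Derivation.map_one_eq_zero,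
    C_1, evoM_zero_left, nab_comm y x, nab_comm z x, nab_comm w x, nab_comm z y, nab_comm w y,
    nab_comm w z, Nat.cast_ofNat, Nat.add_one_sub_one, pow_one, ne_eq,
    OfNat.ofNat_ne_zero, not_false_eq_true, zero_pow, one_ne_zero, map_ofNat]
  ring_nf

end

end Pool.Agent.Work.MP_c4d6c8_mp
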