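import Pool.Agent.Work.MP_c4d6c8_mp.Rel

set_option autoImplicit false
set_option linter.unusedSimpArgs false

namespace Pool.Agent.Work.MP_c4d6c8_mp

open MvPolynomial

section
variable {F : Type*} [Field F]

lemma Z_mul {A B : MvPolynomial ℕ F} (hB : ∀ m, coeff (Finsupp.single 0 m) B = 0) (m : ℕ) :
    coeff (Finsupp.single 0 m) (A * B) = 0 := by
  classical
  rw [coeff_mul]
  apply Finset.sum_eq_zero
  intro p hp
  rw [Finset.HasAntidiagonal.mem_antidiagonal] at hp
  have h1 : p.2 = Finsupp.single 0 (p.2 0) := by
    ext j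
    by_cases hj : j = 0
    · subst hj; simp
    · have h2 := DFunLike.congr_fun hp j
      simp only [Finsupp.add_apply, Finsupp.single_apply, if_neg (Ne.symm hj)] at h2
      rw [Finsupp.single_apply, if_neg (Ne.symm hj)]
      omega
  rw [h1, hB, mul_zero]

lemma Z_Phi (io : PowerSeries ℂ →+* F) {f : DiffPoly} (h0 : coeff 0 f = 0) (N m : ℕ) :
    coeff (Finsupp.single 0 m) (PowerSeries.coeff N (Phi io f)) = 0 := by
  classical
  rw [f.as_sum, map_sum, map_sum, coeff_sum]
  apply Finset.sum_eq_zero
  intro d hd
  have hd0 : d ≠ 0 := by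
    rintro rfl
    exact (mem_support_iff.1 hd) h0
  obtain ⟨j, hj⟩ := Finsupp.support_nonempty_iff.2 hd0
  have h1 : d = (d - Finsupp.single j 1) + Finsupp.single j 1 := by
    ext i
    by_cases hi : i = j
    · subst hi
      have := Finsupp.mem_support_iff.1 hj
      simp; omega
    · simp [Finsupp.single_apply, Ne.symm hi]
  have h2 : monomial d (coeff d f) = monomial (d - Finsupp.single j 1) (coeff d f) * X j := by
    have : (X j : DiffPoly) = monomial (Finsupp.single j 1) 1 := rfl
    rw [this, monomial_mul, mul_one, ← h1]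
  rw [h2, map_mul, PowerSeries.coeff_mul, coeff_sum]
  apply Finset.sum_eq_zero
  intro q _
  apply Z_mul
  intro m'
  rw [Phi_X, PowerSeries.coeff_X_pow_mul']
  split_ifs
  · rw [PowerSeries.coeff_C]
    split_ifs
    · rw [coeff_X, if_neg]
      intro h
      have := DFunLike.congr_fun h (j + 1)
      simp at this
    · simp
  · simp

lemma tot_v0 (io : PowerSeries ℂ →+* F) {P : DiffSeries}
    (hP : ∀ k, IsWeightedHomogeneous (fun j : ℕ => j + 1) (PowerSeries.coeff k P) k)
    {a : PowerSeries ℂ} (h0 : PowerSeries.coeff 0 P = C a) (m : ℕ) :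
    coeff (Finsupp.single 0 m) (tot io P (2 * m)) = io (hs m a) := by
  rw [tot, Finset.sum_range_succ', coeff_add, coeff_sum, Finset.sum_eq_zero, zero_add, h0, Phi_C,
    coeff_Tay, if_pos (Dvd.intro m rfl), Nat.mul_div_cancel_left m two_pos, mul_comm, coeff_C_mul,
    X_pow_eq_monomial, coeff_monomial, if_pos rfl, mul_one]
  intro i _
  apply Z_Phi
  by_contra hne
  have h1 := hP (i + 1) hne
  rw [map_zero] at h1
  omega

lemma Phi_prod (io : PowerSeries ℂ →+* F) (s : Multiset ℕ) (hs : ∀ i ∈ s, 2 ≤ i) :
    Phi io (s.map uvar).prod =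
      PowerSeries.X ^ (s.sum + 2 * s.card) *
        PowerSeries.C (monomial (Multiset.toFinsupp s) (1 : F)) := by
  induction s using Multiset.induction_on with
  | empty => simp
  | cons a s ih =>
    have ha : 2 ≤ a := hs a (Multiset.mem_cons_self a s)
    obtain ⟨b, rfl⟩ : ∃ b, a = b + 1 := ⟨a - 1, by omega⟩
    have h1 : uvar (b + 1) = X b := rfl
    have h2 : Multiset.toFinsupp ((b + 1) ::ₘ s) =
        Finsupp.single (b + 1) 1 + Multiset.toFinsupp s := by
      rw [← Multiset.singleton_add, map_add, Multiset.toFinsupp_singleton]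
    have h3 : (monomial (Finsupp.single (b + 1) 1 + Multiset.toFinsupp s) 1 : MvPolynomial ℕ F) =
        X (b + 1) * monomial (Multiset.toFinsupp s) 1 := by
      have : (X (b + 1) : MvPolynomial ℕ F) = monomial (Finsupp.single (b + 1) 1) 1 := rfl
      rw [this, monomial_mul, mul_one]
    rw [Multiset.map_cons, Multiset.prod_cons, map_mul,
      ih (fun i hi => hs i (Multiset.mem_cons_of_mem hi)), h1, Phi_X, h2, h3, map_mul,
      Multiset.sum_cons, Multiset.card_cons]
    have h4 : b + 1 + s.sum + 2 * (s.card + 1) = (b + 3) + (s.sum + 2 * s.card) := by ring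
    rw [h4, pow_add]
    ring

/-- the coefficients of `Phi` of the normal form -/
lemma G_formula (io : PowerSeries ℂ →+* F) {P₁ : DiffSeries}
    {c : (k : ℕ) → Nat.Partition k → PowerSeries ℂ} {a : PowerSeries ℂ}
    (hN : IsNormalForm P₁ a c) {i : ℕ} (hi : 2 ≤ i) (N : ℕ) :
    PowerSeries.coeff N (Phi io (PowerSeries.coeff i P₁)) =
      ∑ p ∈ (Finset.univ : Finset (Nat.Partition i)).filter (fun p => ∀ j ∈ p.parts, 2 ≤ j),
        (if i + 2 * p.parts.card ≤ N then
          PowerSeries.coeff (N - (i + 2 * p.parts.card)) (Tay io (c i p)) *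
            monomial (Multiset.toFinsupp p.parts) 1 else 0) := by
  rw [hN.2.2 i hi, map_sum, map_sum]
  apply Finset.sum_congr rfl
  intro p hp
  rw [Finset.mem_filter] at hp
  rw [map_mul, Phi_prod io p.parts hp.2, Phi_C, p.parts_sum]
  have h1 : Tay io (c i p) * (PowerSeries.X ^ (i + 2 * p.parts.card) *
      PowerSeries.C (monomial (Multiset.toFinsupp p.parts) (1 : F))) =
      PowerSeries.X ^ (i + 2 * p.parts.card) * (PowerSeries.C (monomial (Multiset.toFinsupp p.parts)
        (1 : F)) * Tay io (c i p)) := by ring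
  rw [h1, PowerSeries.coeff_X_pow_mul']
  split_ifs
  · rw [PowerSeries.coeff_C_mul, mul_comm]
  · rfl

lemma part_two (p : Nat.Partition 2) (hp : ∀ j ∈ p.parts, 2 ≤ j) :
    p = Nat.Partition.indiscrete 2 := by
  apply Nat.Partition.ext
  have h0 : (Nat.Partition.indiscrete 2).parts = {2} := Nat.Partition.indiscrete_parts two_ne_zero
  rw [h0]
  have h1 := p.parts_sum
  rcases Multiset.empty_or_exists_mem p.parts with h | ⟨a, ha⟩
  · rw [h] at h1; simp at h1
  · obtain ⟨t, ht⟩ := Multiset.exists_cons_of_mem ha
    have ha2 := hp a ha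
    rw [ht, Multiset.sum_cons] at h1
    have ha3 : a = 2 := by omega
    have ht0 : t.sum = 0 := by omega
    have ht1 : t = 0 := by
      rcases Multiset.empty_or_exists_mem t with h | ⟨b, hb⟩
      · exact h
      · exfalso
        have hb2 := hp b (by rw [ht]; exact Multiset.mem_cons_of_mem hb)
        have := Multiset.single_le_sum (fun _ _ => Nat.zero_le _) b hb
        omega
    rw [ht, ht1, ha3]; rfl

lemma card_pos_of {k : ℕ} (hk : k ≠ 0) (p : Nat.Partition k) : 1 ≤ p.parts.card := by
  rw [Nat.one_le_iff_ne_zero, Ne, Multiset.card_eq_zero]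
  intro h
  have := p.parts_sum
  rw [h] at this
  simp at this
  exact hk this.symm

end

section
variable {F : Type*} [Field F] [CharZero F]

lemma D_Cmul_Xpow (b : ℂ) (n : ℕ) :
    Dc (PowerSeries.C b * PowerSeries.X ^ (n + 1)) =
      PowerSeries.C (b * ((n : ℂ) + 1)) * PowerSeries.X ^ n := by
  rw [Dc_C_mul, Derivation.leibniz_pow, PowerSeries.derivative_X, Nat.add_sub_cancel,
    nsmul_eq_mul, smul_eq_mul, mul_one, map_mul]
  push_cast
  simp
  ring

lemma evenness_aux (io : PowerSeries ℂ →+* F) (hinj : Function.Injective io)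
    (P : ℕ → DiffSeries) (c : (k : ℕ) → Nat.Partition k → PowerSeries ℂ)
    (hP : IsDeformation P) (hN : IsNormalForm (P 1) 0 c)
    (hc : c 2 (Nat.Partition.indiscrete 2) ≠ 0) (w : ℕ) :
    ∀ (k : ℕ) (p : Nat.Partition k), Odd k → (∀ i ∈ p.parts, 2 ≤ i) →
      k + 2 * p.parts.card = w → c k p = 0 := by
  classical
  have hcc : io (c 2 (Nat.Partition.indiscrete 2)) ≠ 0 := by
    intro h; exact hc (hinj (by rw [h, map_zero]))
  -- the leading Taylor coefficients
  have l1 := hP.leading 1
  have l2 := hP.leading 2
  have d12 : Dc^[2] (PowerSeries.C (((1 + 1).factorial : ℂ)⁻¹) * PowerSeries.X ^ (1 + 1)) = 1 := by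
    simp only [Function.iterate_succ, Function.iterate_zero, Function.comp, id]
    rw [D_Cmul_Xpow, show (1 : ℕ) = 0 + 1 from rfl, D_Cmul_Xpow]
    norm_num [Nat.factorial]
  have d22 : Dc^[2] (PowerSeries.C (((2 + 1).factorial : ℂ)⁻¹) * PowerSeries.X ^ (2 + 1)) =
      PowerSeries.X := by
    simp only [Function.iterate_succ, Function.iterate_zero, Function.comp, id]
    rw [D_Cmul_Xpow, show (2 : ℕ) = 1 + 1 from rfl, D_Cmul_Xpow]
    norm_num [Nat.factorial]
  have e12 : hs 2 (PowerSeries.C (((1 + 1).factorial : ℂ)⁻¹) * PowerSeries.X ^ (1 + 1)) =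
      PowerSeries.C (1 / 2) := by
    rw [hs, d12]; norm_num [Nat.factorial]
  have e13 : hs 3 (PowerSeries.C (((1 + 1).factorial : ℂ)⁻¹) * PowerSeries.X ^ (1 + 1)) = 0 := by
    rw [hs, Function.iterate_succ_apply', d12, PowerSeries.derivative_one, mul_zero]
  have e22 : hs 2 (PowerSeries.C (((2 + 1).factorial : ℂ)⁻¹) * PowerSeries.X ^ (2 + 1)) =
      PowerSeries.C (1 / 2) * PowerSeries.X := by
    rw [hs, d22]; norm_num [Nat.factorial]
  have e23 : hs 3 (PowerSeries.C (((2 + 1).factorial : ℂ)⁻¹) * PowerSeries.X ^ (2 + 1)) =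
      PowerSeries.C (1 / 6) := by
    rw [hs, Function.iterate_succ_apply', d22, PowerSeries.derivative_X]
    norm_num [Nat.factorial]
  have half : io (PowerSeries.C (1 / 2)) = 1 / 2 := by
    have h1 : (2 : PowerSeries ℂ) * PowerSeries.C (1 / 2) = 1 := by
      have h2 : (2 : PowerSeries ℂ) = PowerSeries.C 2 := (map_ofNat _ 2).symm
      rw [h2, ← map_mul]; norm_num
    have h3 := congrArg io h1
    rw [map_mul, map_ofNat, map_one] at h3
    field_simp
    linear_combination h3
  have sixth : io (PowerSeries.C (1 / 6)) = 1 / 6 := by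
    have h1 : (6 : PowerSeries ℂ) * PowerSeries.C (1 / 6) = 1 := by
      have h2 : (6 : PowerSeries ℂ) = PowerSeries.C 6 := (map_ofNat _ 6).symm
      rw [h2, ← map_mul]; norm_num
    have h3 := congrArg io h1
    rw [map_mul, map_ofNat, map_one] at h3
    field_simp
    linear_combination h3
  have hP1 : PowerSeries.coeff 1 (P 1) = 0 := by rw [hN.2.1]; simp
  -- weight four
  have hx4 : tot io (P 1) 4 = C (1 / 2) * Kp (io (c 2 (Nat.Partition.indiscrete 2))) := by
    rw [tot, Finset.sum_range_succ, Finset.sum_range_succ, Finset.sum_range_succ,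
      Finset.sum_range_succ, Finset.sum_range_one, hP1, map_zero, map_zero, l1, Phi_C, coeff_Tay,
      G_formula io hN (le_refl 2), G_formula io hN (by norm_num : 2 ≤ 3),
      G_formula io hN (by norm_num : 2 ≤ 4)]
    have hz : ∀ i, 3 ≤ i → ∑ p ∈ (Finset.univ : Finset (Nat.Partition i)).filter
        (fun p => ∀ j ∈ p.parts, 2 ≤ j),
        (if i + 2 * p.parts.card ≤ 4 then
          PowerSeries.coeff (4 - (i + 2 * p.parts.card)) (Tay io (c i p)) *
            monomial (Multiset.toFinsupp p.parts) 1 else 0) = 0 := by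
      intro i hi
      apply Finset.sum_eq_zero
      intro p _
      have := card_pos_of (by omega : i ≠ 0) p
      rw [if_neg (by omega)]
    rw [hz 3 (le_refl 3), hz 4 (by norm_num)]
    have hf : (Finset.univ : Finset (Nat.Partition 2)).filter (fun p => ∀ j ∈ p.parts, 2 ≤ j) =
        {Nat.Partition.indiscrete 2} := by
      ext p
      rw [Finset.mem_filter, Finset.mem_singleton]
      constructor
      · intro h; exact part_two p h.2
      · rintro rfl
        refine ⟨Finset.mem_univ _, ?_⟩
        rw [Nat.Partition.indiscrete_parts two_ne_zero]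
        simp
    rw [hf, Finset.sum_singleton, Nat.Partition.indiscrete_parts two_ne_zero]
    have h5 : (monomial (Multiset.toFinsupp ({2} : Multiset ℕ)) 1 : MvPolynomial ℕ F) = X 2 := by
      rw [Multiset.toFinsupp_singleton]; rfl
    rw [h5]
    simp only [Multiset.card_singleton, mul_one, Nat.reduceAdd, le_refl, if_true, Nat.sub_self]
    rw [coeff_Tay, if_pos (by norm_num), if_pos (by norm_num)]
    simp only [Nat.zero_div, pow_zero, one_mul, hs_zero]
    rw [show 4 / 2 = 2 from rfl, e12, half, Kp]
    have h6 : (C (1 / 2) : MvPolynomial ℕ F) * C (2 * io (c 2 (Nat.Partition.indiscrete 2))) =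
        C (io (c 2 (Nat.Partition.indiscrete 2))) := by
      rw [← C_mul]; congr 1; ring
    linear_combination -(X 2) * h6
  have hy4 : coeff (Finsupp.single 0 2) (tot io (P 2) 4) = io PowerSeries.X / 2 := by
    have := tot_v0 io (hP.homogeneous 2) l2 2
    rw [e22, map_mul, half] at this
    rw [show 4 = 2 * 2 from rfl, this]; ring
  have hx6 : coeff (Finsupp.single 0 3) (tot io (P 1) 6) = 0 := by
    have := tot_v0 io (hP.homogeneous 1) l1 3
    rw [e13, map_zero] at this
    exact this
  have hy6 : coeff (Finsupp.single 0 3) (tot io (P 2) 6) = 1 / 6 := by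
    have := tot_v0 io (hP.homogeneous 2) l2 3
    rw [e23, sixth] at this
    exact this
  induction w using Nat.strong_induction_on with
  | _ w ih =>
    intro k p hk hp hw
    have hk0 : k ≠ 0 := by rintro rfl; exact absurd hk (by decide)
    have hcard := card_pos_of hk0 p
    have hk3 : 3 ≤ k := by
      obtain ⟨a, ha⟩ := Multiset.card_pos_iff_exists_mem.1 hcard
      have h1 := hp a ha
      have h2 := Multiset.single_le_sum (fun _ _ => Nat.zero_le _) a ha
      rw [p.parts_sum] at h2
      obtain ⟨b, hb⟩ := hk
      omega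
    have hwo : Odd w := by
      obtain ⟨b, hb⟩ := hk
      exact ⟨b + p.parts.card, by omega⟩
    -- vanishing of low terms
    have hterm : ∀ (n i : ℕ), Odd n → n ≤ w → 2 ≤ i →
        PowerSeries.coeff n (Phi io (PowerSeries.coeff i (P 1))) =
        ∑ q ∈ (Finset.univ : Finset (Nat.Partition i)).filter (fun q => ∀ j ∈ q.parts, 2 ≤ j),
          (if i + 2 * q.parts.card = w ∧ n = w then
            C (io (c i q)) * monomial (Multiset.toFinsupp q.parts) 1 else 0) := by
      intro n i hn hnw hi
      rw [G_formula io hN hi]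
      apply Finset.sum_congr rfl
      intro q hq
      rw [Finset.mem_filter] at hq
      by_cases h1 : i + 2 * q.parts.card ≤ n
      · rw [if_pos h1]
        by_cases h2 : i + 2 * q.parts.card = w
        · have h3 : n = w := by omega
          rw [if_pos ⟨h2, h3⟩, h3, h2, Nat.sub_self, coeff_Tay, if_pos (by norm_num)]
          simp [hs_zero]
        · rw [if_neg (fun h => h2 h.1)]
          rw [coeff_Tay]
          split_ifs with h3
          · have h4 : Odd i := by
              obtain ⟨a, ha⟩ := hn
              obtain ⟨b, hb⟩ := h3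
              exact ⟨a - q.parts.card - b, by omega⟩
            rw [ih (i + 2 * q.parts.card) (by omega) i q h4 hq.2 rfl]
            have h5 : ∀ j, hs j (0 : PowerSeries ℂ) = 0 := by
              intro j
              have := hs_C j 0
              rw [map_zero] at this
              rw [this]; simp
            rw [h5, map_zero, C_0, mul_zero, zero_mul]
          · rw [zero_mul]
      · rw [if_neg h1, if_neg]
        rintro ⟨h2, h3⟩
        omega
    have hlow : ∀ n i, Odd n → i < 2 →
        PowerSeries.coeff n (Phi io (PowerSeries.coeff i (P 1))) = 0 := by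
      intro n i hn hi
      have hi2 : i = 0 ∨ i = 1 := by omega
      rcases hi2 with rfl | rfl
      · rw [l1, Phi_C, coeff_Tay, if_neg]
        intro h
        obtain ⟨a, ha⟩ := hn
        omega
      · rw [hP1, map_zero, map_zero]
    have hxn : ∀ n, Odd n → n < w → tot io (P 1) n = 0 := by
      intro n hn hnw
      rw [tot]
      apply Finset.sum_eq_zero
      intro i _
      by_cases hi : i < 2
      · exact hlow n i hn hi
      · rw [hterm n i hn (by omega) (by omega)]
        apply Finset.sum_eq_zero
        intro q _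
        rw [if_neg (fun h => by omega)]
    have hsupp : ∀ d ∈ (tot io (P 1) w).support, d 0 = 0 ∧ d 1 = 0 := by
      intro d hd
      rw [mem_support_iff, tot, coeff_sum] at hd
      obtain ⟨i, _, hi⟩ := Finset.exists_ne_zero_of_sum_ne_zero hd
      by_cases hi2 : i < 2
      · rw [hlow w i hwo hi2] at hi; simp at hi
      · rw [hterm w i hwo (le_refl w) (by omega), coeff_sum] at hi
        obtain ⟨q, hq, hq2⟩ := Finset.exists_ne_zero_of_sum_ne_zero hi
        rw [Finset.mem_filter] at hq
        split_ifs at hq2 with h1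
        · rw [coeff_C_mul, coeff_monomial] at hq2
          split_ifs at hq2 with h2
          · rw [← h2]
            have h3 : ∀ j, j < 2 → Multiset.toFinsupp q.parts j = 0 := by
              intro j hj
              rw [Multiset.toFinsupp_apply, Multiset.count_eq_zero]
              intro h4
              have := hq.2 j h4
              omega
            exact ⟨h3 0 (by norm_num), h3 1 (by norm_num)⟩
          · simp at hq2
        · simp at hq2
    have hzero : tot io (P 1) w = 0 :=
      chain hcc (tot io (P 1)) (tot io (P 2)) (tot_wt io (P 1)) (tot_wt io (P 2))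
        (tot_rel io (hP.homogeneous 1) (hP.homogeneous 2) (hP.commute 1 2)) hx4 hy4 hx6 hy6 hwo
        (by omega) hxn hsupp
    -- read off the coefficient
    have h1 := congrArg (coeff (Multiset.toFinsupp p.parts)) hzero
    rw [tot, coeff_sum, coeff_zero, Finset.sum_eq_single k] at h1
    · rw [hterm w k hwo (le_refl w) (by omega), coeff_sum, Finset.sum_eq_single p] at h1
      · rw [if_pos ⟨hw, rfl⟩, coeff_C_mul, coeff_monomial, if_pos rfl, mul_one] at h1
        exact hinj (by rw [h1, map_zero])
      · intro q _ hqp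
        split_ifs
        · rw [coeff_C_mul, coeff_monomial, if_neg, mul_zero]
          intro h2
          apply hqp
          apply Nat.Partition.ext
          exact Multiset.toFinsupp.injective h2
        · exact coeff_zero _
      · intro h2
        exact absurd (Finset.mem_filter.2 ⟨Finset.mem_univ _, hp⟩) h2
    · intro i _ hik
      by_cases hi : i < 2
      · rw [hlow w i hwo hi, coeff_zero]
      · rw [hterm w i hwo (le_refl w) (by omega), coeff_sum]
        apply Finset.sum_eq_zero
        intro q _
        split_ifs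
        · rw [coeff_C_mul, coeff_monomial, if_neg, mul_zero]
          intro h2
          apply hik
          have h3 := Multiset.toFinsupp.injective h2
          rw [← q.parts_sum, ← p.parts_sum, h3]
        · exact coeff_zero _
    · intro h2
      exact absurd (Finset.mem_range.2 (by omega)) h2

end

/-- Evenness of normal forms: `c_λ = 0` for all `λ` with all parts at least two and `|λ|` odd. -/
theorem evenness (P : ℕ → DiffSeries) (c : (k : ℕ) → Nat.Partition k → PowerSeries ℂ)
    (hP : IsDeformation P) (hN : IsNormalForm (P 1) 0 c)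
    (hc : c 2 (Nat.Partition.indiscrete 2) ≠ 0) (k : ℕ) (p : Nat.Partition k) (hk : Odd k)
    (hp : ∀ i ∈ p.parts, 2 ≤ i) : c k p = 0 := by
  classical
  let F := FractionRing (PowerSeries ℂ)
  let io : PowerSeries ℂ →+* F := algebraMap (PowerSeries ℂ) F
  have hinj : Function.Injective io := IsFractionRing.injective (PowerSeries ℂ) F
  have hchar : CharZero F := by
    apply charZero_of_injective_ringHom (f := io.comp (PowerSeries.C (R := ℂ)))
    intro a b h
    have h1 := hinj h
    have h2 := congrArg (PowerSeries.coeff 0) h1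
    simpa using h2
  exact evenness_aux io hinj P c hP hN hc _ k p hk hp rfl

end Pool.Agent.Work.MP_c4d6c8_mp
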