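import Pool.Agent.Work.MP_c4d6c8_mp.Alg

set_option autoImplicit false
set_option linter.unusedSimpArgs false

namespace Pool.Agent.Work.MP_c4d6c8_mp

open MvPolynomial

section
variable {T : Type*} [CommRing T]

lemma wh_smul {σ : Type*} {ω : σ → ℕ} {A : MvPolynomial σ T} {m : ℕ} (a : T)
    (h : IsWeightedHomogeneous ω A m) : IsWeightedHomogeneous ω (a • A) m := by
  rw [smul_eq_C_mul]; exact h.C_mul a

lemma der_monomial_wh {ω : ℕ → ℕ} {s : ℕ}
    (D : Derivation T (MvPolynomial ℕ T) (MvPolynomial ℕ T))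
    (hD : ∀ k, IsWeightedHomogeneous ω (D (X k)) (ω k + s)) (d : ℕ →₀ ℕ) (a : T) :
    IsWeightedHomogeneous ω (D (monomial d a)) (Finsupp.weight ω d + s) := by
  induction d using Finsupp.induction_linear generalizing a with
  | zero => 
    have : D (monomial 0 a) = 0 := by
      have := derivation_C D a
      rwa [C_apply] at this
    rw [this]; exact isWeightedHomogeneous_zero _ _ _
  | add f g hf hg =>
    have : monomial (f + g) a = monomial f a * monomial g (1 : T) := by
      rw [monomial_mul, mul_one]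
    rw [this, Derivation.leibniz, smul_eq_mul, smul_eq_mul]
    apply IsWeightedHomogeneous.add
    · have := (isWeightedHomogeneous_monomial ω f a rfl).mul (hg 1)
      rw [map_add, add_assoc]; exact this
    · have := (isWeightedHomogeneous_monomial ω g (1 : T) rfl).mul (hf a)
      rw [map_add]
      convert this using 1; ring
  | single k n =>
    have h1 : monomial (Finsupp.single k n) a = C a * X k ^ n := by
      rw [X_pow_eq_monomial, C_mul_monomial, mul_one]
    rw [h1, Derivation.leibniz, derivation_C, smul_zero, add_zero, smul_eq_mul,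
      Derivation.leibniz_pow]
    rcases Nat.eq_zero_or_pos n with rfl | hn
    · simp [isWeightedHomogeneous_zero]
    · apply IsWeightedHomogeneous.C_mul
      rw [nsmul_eq_mul, smul_eq_mul]
      have h2 : ((n : MvPolynomial ℕ T)) = C (n : T) := by simp
      rw [h2]
      apply IsWeightedHomogeneous.C_mul
      have h3 := ((isWeightedHomogeneous_X T ω k).pow (n - 1)).mul (hD k)
      convert h3 using 1
      obtain ⟨m, rfl⟩ := Nat.exists_eq_add_of_lt hn
      simp [Finsupp.weight_single]
      ring

lemma der_wh {ω : ℕ → ℕ} {s : ℕ}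
    (D : Derivation T (MvPolynomial ℕ T) (MvPolynomial ℕ T))
    (hD : ∀ k, IsWeightedHomogeneous ω (D (X k)) (ω k + s)) {A : MvPolynomial ℕ T} {m : ℕ}
    (hA : IsWeightedHomogeneous ω A m) : IsWeightedHomogeneous ω (D A) (m + s) := by
  induction hA using IsWeightedHomogeneous.induction_on with
  | zero => rw [map_zero]; exact isWeightedHomogeneous_zero _ _ _
  | add p q hp hq h1 h2 => rw [map_add]; exact h1.add h2
  | monomial d r hr => rw [← hr]; exact der_monomial_wh D hD d r

/-- A graded linear operator commutes with taking components. -/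
lemma graded_comp {ω : ℕ → ℕ} {s : ℕ} (O : MvPolynomial ℕ T →ₗ[T] MvPolynomial ℕ T)
    (hO : ∀ m A, IsWeightedHomogeneous ω A m → IsWeightedHomogeneous ω (O A) (m + s))
    (A : MvPolynomial ℕ T) (m : ℕ) :
    weightedHomogeneousComponent ω (m + s) (O A) = O (weightedHomogeneousComponent ω m A) := by
  classical
  induction A using MvPolynomial.induction_on' with
  | monomial d a =>
    have h1 := isWeightedHomogeneous_monomial ω d a rfl
    rw [weightedHomogeneousComponent_of_mem ((mem_weightedHomogeneousSubmodule _ _ _ _).2 h1),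
      weightedHomogeneousComponent_of_mem
        ((mem_weightedHomogeneousSubmodule _ _ _ _).2 (hO _ _ h1))]
    by_cases h : m = Finsupp.weight ω d
    · simp [h]
    · have : m + s ≠ Finsupp.weight ω d + s := by omega
      rw [if_neg this, if_neg h, map_zero]
  | add p q hp hq => simp only [map_add, hp, hq]

lemma graded_comp_lt {ω : ℕ → ℕ} {s : ℕ} (O : MvPolynomial ℕ T →ₗ[T] MvPolynomial ℕ T)
    (hO : ∀ m A, IsWeightedHomogeneous ω A m → IsWeightedHomogeneous ω (O A) (m + s))
    (A : MvPolynomial ℕ T) (k : ℕ) (hk : k < s) :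
    weightedHomogeneousComponent ω k (O A) = 0 := by
  classical
  induction A using MvPolynomial.induction_on' with
  | monomial d a =>
    have h1 := isWeightedHomogeneous_monomial ω d a rfl
    rw [weightedHomogeneousComponent_of_mem
        ((mem_weightedHomogeneousSubmodule _ _ _ _).2 (hO _ _ h1))]
    rw [if_neg (by omega)]
  | add p q hp hq => simp only [map_add, hp, hq, add_zero]

/-! the two gradings: `wt v_k = k+2` and number of factors -/

/-- the KdV weight -/
def wt (k : ℕ) : ℕ := k + 2

/-- the constant weight one -/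
def pw (_ : ℕ) : ℕ := 1

abbrev Wt (A : MvPolynomial ℕ T) (m : ℕ) : Prop := IsWeightedHomogeneous wt A m
abbrev Pa (A : MvPolynomial ℕ T) (m : ℕ) : Prop := IsWeightedHomogeneous pw A m

lemma wt_X (k : ℕ) : Wt (X k : MvPolynomial ℕ T) (k + 2) := isWeightedHomogeneous_X T wt k
lemma pa_X (k : ℕ) : Pa (X k : MvPolynomial ℕ T) 1 := isWeightedHomogeneous_X T pw k

lemma sh_wt (s : ℕ) {A : MvPolynomial ℕ T} {m : ℕ} (h : Wt A m) : Wt (sh s A) (m + s) := by
  apply der_wh (sh s) _ h
  intro k; rw [sh_X]; have := wt_X (T := T) (k + s)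
  convert this using 1; simp [wt]; ring

lemma sh_pa (s : ℕ) {A : MvPolynomial ℕ T} {m : ℕ} (h : Pa A m) : Pa (sh s A) m := by
  have := der_wh (s := 0) (sh s) (ω := pw) (by
    intro k; rw [sh_X]; exact pa_X (T := T) (k + s)) h
  simpa using this

lemma dv_eq_sh (A : MvPolynomial ℕ T) : dv A = sh 1 A := by
  rw [← evo_X1, evo_X]

lemma dv_wt {A : MvPolynomial ℕ T} {m : ℕ} (h : Wt A m) : Wt (dv A) (m + 1) := by
  rw [dv_eq_sh]; exact sh_wt 1 h

lemma dv_pa {A : MvPolynomial ℕ T} {m : ℕ} (h : Pa A m) : Pa (dv A) m := by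
  rw [dv_eq_sh]; exact sh_pa 1 h

lemma iter_wt {Z : MvPolynomial ℕ T} {z : ℕ} (h : Wt Z z) (k : ℕ) :
    Wt ((dvM (0 : T))^[k] Z) (z + k) := by
  induction k with
  | zero => exact h
  | succ n ih => rw [iter_dvM_succ, dvM_zero]; exact dv_wt ih

lemma iter_pa {Z : MvPolynomial ℕ T} {z : ℕ} (h : Pa Z z) (k : ℕ) :
    Pa ((dvM (0 : T))^[k] Z) z := by
  induction k with
  | zero => exact h
  | succ n ih => rw [iter_dvM_succ, dvM_zero]; exact dv_pa ih

lemma evo_wt {Z A : MvPolynomial ℕ T} {z m : ℕ} (hZ : Wt Z (z + 2)) (h : Wt A m) :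
    Wt (evo Z A) (m + z) := by
  apply der_wh (evo Z) _ h
  intro k; rw [evoM_X]
  have := iter_wt hZ k
  convert this using 1; simp [wt]; ring

lemma evo_pa {Z A : MvPolynomial ℕ T} {z m : ℕ} (hZ : Pa Z (z + 1)) (h : Pa A m) :
    Pa (evo Z A) (m + z) := by
  apply der_wh (evo Z) _ h
  intro k; rw [evoM_X]
  have := iter_pa hZ k
  convert this using 1; simp [pw]; ring

/-- `pb A B` has weight `a + b - 1`, here with `a = a' + 1`. -/
lemma pb_wt {A B : MvPolynomial ℕ T} {a b : ℕ} (hA : Wt A (a + 1)) (hB : Wt B (b + 1)) :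
    Wt (pb A B) (a + b + 1) := by
  apply IsWeightedHomogeneous.sub
  · have := evo_wt (z := b) (dv_wt hB) hA
    convert this using 1; ring
  · have := evo_wt (z := a) (dv_wt hA) hB
    convert this using 1; ring

lemma pb_pa {A B : MvPolynomial ℕ T} {a b : ℕ} (hA : Pa A (a + 1)) (hB : Pa B (b + 1)) :
    Pa (pb A B) (a + b + 1) := by
  apply IsWeightedHomogeneous.sub
  · have := evo_pa (z := b) (dv_pa hB) hA
    convert this using 1; ring
  · have := evo_pa (z := a) (dv_pa hA) hB
    convert this using 1; ring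

end

end Pool.Agent.Work.MP_c4d6c8_mp
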