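import Pool.Agent.Work.MP_c4d6c8_mp.Grade

set_option autoImplicit false
set_option linter.unusedSimpArgs false

namespace Pool.Agent.Work.MP_c4d6c8_mp

open MvPolynomial

section
variable {T : Type*} [CommRing T]

/-- twice the KdV density -/
noncomputable def Kp (c : T) : MvPolynomial ℕ T := X 0 ^ 2 + C (2 * c) * X 2

/-- thirty times the fifth order density -/
noncomputable def Sp (c : T) : MvPolynomial ℕ T :=
  C 5 * X 0 ^ 3 + C (30 * c) * (X 0 * X 2) + C (15 * c) * X 1 ^ 2 + C (18 * c ^ 2) * X 4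

lemma nab0_dv (A : MvPolynomial ℕ T) : nab 0 (dv A) = dv (nab 0 A) := by
  rw [nab_dv]; simp

lemma nab0_evo (Z A : MvPolynomial ℕ T) :
    nab 0 (evo Z A) = evo Z (nab 0 A) + evo (nab 0 Z) A := by
  rw [evo, nab_evoM, add_zero]

lemma nab0_pb (A B : MvPolynomial ℕ T) :
    nab 0 (pb A B) = pb (nab 0 A) B + pb A (nab 0 B) := by
  simp only [pb, map_sub, nab0_evo, nab0_dv]
  ring

lemma nab0_X0 : nab (0 : T) (X 0) = 1 := by simp
lemma nab0_Xs (k : ℕ) : nab (0 : T) (X (k + 1)) = 0 := by simp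

lemma nab0_Kp (c : T) : nab 0 (Kp c) = 2 * X 0 := by
  simp only [Kp, map_add, Derivation.leibniz, Derivation.leibniz_pow, derivation_C,
    nab0_X0, nab0_Xs, smul_zero, smul_eq_mul, nsmul_eq_mul]
  push_cast; ring

lemma nab_nat (x : T) (k : ℕ) : nab x ((k : MvPolynomial ℕ T)) = 0 := by
  rw [← map_natCast C, derivation_C]

lemma dv_nat (k : ℕ) : dv ((k : MvPolynomial ℕ T)) = 0 := by
  rw [← map_natCast C, derivation_C]

lemma der_ofNat (D : Derivation T (MvPolynomial ℕ T) (MvPolynomial ℕ T)) (n : ℕ)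
    [n.AtLeastTwo] : D ofNat(n) = 0 := D.map_natCast n

lemma nab0_Sp (c : T) : nab 0 (Sp c) = C 15 * Kp c := by
  simp only [Sp, Kp, map_add, Derivation.leibniz, Derivation.leibniz_pow, derivation_C,
    nab0_X0, nab0_Xs, smul_zero, smul_eq_mul, nsmul_eq_mul]
  simp only [C_mul, C_pow, map_ofNat]
  push_cast; ring

lemma pb_Kp_Sp (c : T) : pb (Kp c) (Sp c) = 0 := by
  simp only [pb, Sp, Kp, map_add, Derivation.leibniz, Derivation.leibniz_pow, derivation_C,
    smul_zero, smul_eq_mul, nsmul_eq_mul, dv_X, evoM_X, Function.iterate_succ,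
    Function.iterate_zero, Function.comp, id, dvM_zero, mul_zero, add_zero,
    zero_add, Nat.cast_ofNat, pow_one, Nat.add_one_sub_one, Nat.reduceSub, Nat.reduceAdd,
    der_ofNat, map_zero]
  simp only [C_mul, C_pow, map_ofNat]
  ring

end

end Pool.Agent.Work.MP_c4d6c8_mp
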