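import Pool.Agent.Work.MP_c4d6c8_mp.Taylor
import Pool.Agent.Work.MP_c4d6c8_mp.Diff
import Pool.Agent.Work.MP_c4d6c8_mp.Chain

set_option autoImplicit false
set_option linter.unusedSimpArgs false

namespace Pool.Agent.Work.MP_c4d6c8_mp

open MvPolynomial

section
variable {F : Type*} [Field F]

noncomputable def Tay (io : PowerSeries ℂ →+* F) : PowerSeries ℂ →+* PowerSeries (MvPolynomial ℕ F) :=
  ((PowerSeries.expand 2 two_ne_zero :
      PowerSeries (MvPolynomial ℕ F) →ₐ[MvPolynomial ℕ F] PowerSeries (MvPolynomial ℕ F)) :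
      PowerSeries (MvPolynomial ℕ F) →+* PowerSeries (MvPolynomial ℕ F)).comp
    ((PowerSeries.rescale (X 0 : MvPolynomial ℕ F)).comp
      ((PowerSeries.map ((C : F →+* MvPolynomial ℕ F).comp io)).comp Tay0))

lemma coeff_Tay (io : PowerSeries ℂ →+* F) (f : PowerSeries ℂ) (n : ℕ) :
    PowerSeries.coeff n (Tay io f) =
      if 2 ∣ n then X 0 ^ (n / 2) * C (io (hs (n / 2) f)) else 0 := by
  have h : Tay io f = PowerSeries.expand 2 two_ne_zero (PowerSeries.rescale (X 0 : MvPolynomial ℕ F)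
      (PowerSeries.map ((C : F →+* MvPolynomial ℕ F).comp io) (Tay0 f))) := rfl
  rw [h, PowerSeries.coeff_expand]
  split_ifs
  · rw [PowerSeries.coeff_rescale, PowerSeries.coeff_map]
    have h2 : PowerSeries.coeff (n / 2) (Tay0 f) = hs (n / 2) f := by
      rw [show Tay0 f = PowerSeries.mk fun j => hs j f from rfl, PowerSeries.coeff_mk]
    rw [h2]; rfl
  · rfl

/-- the expansion homomorphism -/
noncomputable def Phi (io : PowerSeries ℂ →+* F) : DiffPoly →+* PowerSeries (MvPolynomial ℕ F) :=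
  eval₂Hom (Tay io) (fun j => PowerSeries.X ^ (j + 3) * PowerSeries.C (X (j + 1) : MvPolynomial ℕ F))

lemma Phi_C (io : PowerSeries ℂ →+* F) (a : PowerSeries ℂ) : Phi io (C a) = Tay io a := by
  simp [Phi]
lemma Phi_X (io : PowerSeries ℂ →+* F) (j : ℕ) :
    Phi io (X j) = PowerSeries.X ^ (j + 3) * PowerSeries.C (X (j + 1) : MvPolynomial ℕ F) := by
  simp [Phi]

end

section
variable {T : Type*} [CommRing T]

noncomputable def dvS (f : PowerSeries (MvPolynomial ℕ T)) : PowerSeries (MvPolynomial ℕ T) := PowerSeries.mk fun n => dv (PowerSeries.coeff n f)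
noncomputable def evoS (Z A : PowerSeries (MvPolynomial ℕ T)) : PowerSeries (MvPolynomial ℕ T) := PowerSeries.mk fun n =>
  ∑ p ∈ Finset.HasAntidiagonal.antidiagonal n, evo (PowerSeries.coeff p.1 Z) (PowerSeries.coeff p.2 A)

lemma coeff_dvS (f : PowerSeries (MvPolynomial ℕ T)) (n : ℕ) : PowerSeries.coeff n (dvS f) = dv (PowerSeries.coeff n f) :=
  PowerSeries.coeff_mk _ _

lemma coeff_evoS (Z A : PowerSeries (MvPolynomial ℕ T)) (n : ℕ) : PowerSeries.coeff n (evoS Z A) =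
    ∑ p ∈ Finset.HasAntidiagonal.antidiagonal n,
      evo (PowerSeries.coeff p.1 Z) (PowerSeries.coeff p.2 A) :=
  PowerSeries.coeff_mk _ _

lemma dvS_add (A B : PowerSeries (MvPolynomial ℕ T)) : dvS (A + B) = dvS A + dvS B := by
  ext1 n; simp [coeff_dvS]

lemma dvS_mul (A B : PowerSeries (MvPolynomial ℕ T)) : dvS (A * B) = A * dvS B + B * dvS A := by
  rw [mul_comm B]
  ext1 n
  rw [coeff_dvS, PowerSeries.coeff_mul, map_sum, map_add, PowerSeries.coeff_mul,
    PowerSeries.coeff_mul, ← Finset.sum_add_distrib]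
  apply Finset.sum_congr rfl
  intro p _
  rw [Derivation.leibniz, coeff_dvS, coeff_dvS, smul_eq_mul, smul_eq_mul]
  ring

lemma evoS_add (Z A B : PowerSeries (MvPolynomial ℕ T)) : evoS Z (A + B) = evoS Z A + evoS Z B := by
  ext1 n
  rw [coeff_evoS, map_add, coeff_evoS, coeff_evoS, ← Finset.sum_add_distrib]
  apply Finset.sum_congr rfl
  intro p _
  rw [map_add, map_add]

lemma triple {M : Type*} [AddCommMonoid M] (f : ℕ → ℕ → ℕ → M) (n : ℕ) :
    ∑ p ∈ Finset.HasAntidiagonal.antidiagonal n,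
      ∑ q ∈ Finset.HasAntidiagonal.antidiagonal p.2, f p.1 q.1 q.2 =
    ∑ p ∈ Finset.HasAntidiagonal.antidiagonal n,
      ∑ q ∈ Finset.HasAntidiagonal.antidiagonal p.2, f q.1 p.1 q.2 := by
  rw [Finset.sum_sigma', Finset.sum_sigma']
  apply Finset.sum_nbij' (i := fun x => ⟨(x.2.1, x.1.1 + x.2.2), (x.1.1, x.2.2)⟩)
    (j := fun x => ⟨(x.2.1, x.1.1 + x.2.2), (x.1.1, x.2.2)⟩)
  · rintro ⟨⟨a, m⟩, ⟨b, c⟩⟩ h
    rw [Finset.mem_sigma, Finset.HasAntidiagonal.mem_antidiagonal,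
      Finset.HasAntidiagonal.mem_antidiagonal] at h ⊢
    obtain ⟨h1, h2⟩ := h
    dsimp only at h1 h2 ⊢
    exact ⟨by omega, rfl⟩
  · rintro ⟨⟨a, m⟩, ⟨b, c⟩⟩ h
    rw [Finset.mem_sigma, Finset.HasAntidiagonal.mem_antidiagonal,
      Finset.HasAntidiagonal.mem_antidiagonal] at h ⊢
    obtain ⟨h1, h2⟩ := h
    dsimp only at h1 h2 ⊢
    exact ⟨by omega, rfl⟩
  · rintro ⟨⟨a, m⟩, ⟨b, c⟩⟩ h
    simp only [Finset.mem_sigma, Finset.HasAntidiagonal.mem_antidiagonal] at h
    obtain ⟨h1, h2⟩ := h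
    simp only [Sigma.mk.injEq, Prod.mk.injEq, true_and, heq_eq_eq, and_true]
    omega
  · rintro ⟨⟨a, m⟩, ⟨b, c⟩⟩ h
    simp only [Finset.mem_sigma, Finset.HasAntidiagonal.mem_antidiagonal] at h
    obtain ⟨h1, h2⟩ := h
    simp only [Sigma.mk.injEq, Prod.mk.injEq, true_and, heq_eq_eq, and_true]
    omega
  · rintro ⟨⟨a, m⟩, ⟨b, c⟩⟩ h
    rfl

lemma evoS_mul (Z A B : PowerSeries (MvPolynomial ℕ T)) : evoS Z (A * B) = A * evoS Z B + B * evoS Z A := by
  ext1 n
  rw [coeff_evoS, map_add, PowerSeries.coeff_mul, PowerSeries.coeff_mul]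
  have h1 : ∀ p ∈ Finset.HasAntidiagonal.antidiagonal n,
      evo (PowerSeries.coeff p.1 Z) (PowerSeries.coeff p.2 (A * B)) =
      ∑ q ∈ Finset.HasAntidiagonal.antidiagonal p.2,
        (PowerSeries.coeff q.1 A * evo (PowerSeries.coeff p.1 Z) (PowerSeries.coeff q.2 B))
      + ∑ q ∈ Finset.HasAntidiagonal.antidiagonal p.2,
        (PowerSeries.coeff q.1 B * evo (PowerSeries.coeff p.1 Z) (PowerSeries.coeff q.2 A)) := by
    intro p _
    rw [PowerSeries.coeff_mul, map_sum]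
    have h2 : ∑ q ∈ Finset.HasAntidiagonal.antidiagonal p.2,
        (PowerSeries.coeff q.1 B * evo (PowerSeries.coeff p.1 Z) (PowerSeries.coeff q.2 A)) =
        ∑ q ∈ Finset.HasAntidiagonal.antidiagonal p.2,
        (PowerSeries.coeff q.2 B * evo (PowerSeries.coeff p.1 Z) (PowerSeries.coeff q.1 A)) := by
      rw [← Finset.Nat.sum_antidiagonal_swap]; rfl
    rw [h2, ← Finset.sum_add_distrib]
    apply Finset.sum_congr rfl
    intro q _
    rw [Derivation.leibniz, smul_eq_mul, smul_eq_mul]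
  rw [Finset.sum_congr rfl h1, Finset.sum_add_distrib]
  have h3 := triple (fun a b c => PowerSeries.coeff b A *
    evo (PowerSeries.coeff a Z) (PowerSeries.coeff c B)) n
  have h4 := triple (fun a b c => PowerSeries.coeff b B *
    evo (PowerSeries.coeff a Z) (PowerSeries.coeff c A)) n
  rw [h3, h4]
  refine congrArg₂ (fun a b => a + b) ?_ ?_
  · apply Finset.sum_congr rfl
    intro p _
    rw [coeff_evoS, Finset.mul_sum]
  · apply Finset.sum_congr rfl
    intro p _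
    rw [coeff_evoS, Finset.mul_sum]

end

end Pool.Agent.Work.MP_c4d6c8_mp
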