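import Pool.Agent.Work.MP_c4d6c8_mp.Grade

set_option autoImplicit false
set_option linter.unusedSimpArgs false

namespace Pool.Agent.Work.MP_c4d6c8_mp

open MvPolynomial

section
variable {T : Type*} [CommRing T] {n : ℕ}

/-- the type of an exponent vector -/
noncomputable def tp (α : Fin n →₀ ℕ) : ℕ →₀ ℕ := ∑ i, Finsupp.single (α i) 1

/-- the linear map sending `ξ^α` to `∏ v_{α_i}`. -/
noncomputable def Psi (n : ℕ) : MvPolynomial (Fin n) T →ₗ[T] MvPolynomial ℕ T :=
  (basisMonomials (Fin n) T).constr T (fun α => monomial (tp α) 1)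

lemma Psi_monomial (α : Fin n →₀ ℕ) (a : T) :
    Psi n (monomial α a) = monomial (tp α) a := by
  have : monomial α a = a • (basisMonomials (Fin n) T) α := by simp [smul_monomial]
  rw [this, map_smul, Psi, Module.Basis.constr_basis, smul_monomial, smul_eq_mul, mul_one]

lemma monomial_tp (α : Fin n →₀ ℕ) :
    (monomial (tp α) 1 : MvPolynomial ℕ T) = ∏ i, X (α i) := by
  rw [tp, monomial_sum_one]; rfl

lemma sh_prod (s : ℕ) (S : Finset (Fin n)) (α : Fin n → ℕ) :
    sh s (∏ i ∈ S, (X (α i) : MvPolynomial ℕ T)) =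
      ∑ i ∈ S, X (α i + s) * ∏ j ∈ S.erase i, X (α j) := by
  classical
  induction S using Finset.induction_on with
  | empty => simp
  | insert a S ha ih =>
    rw [Finset.prod_insert ha, Derivation.leibniz, ih, Finset.sum_insert ha,
      Finset.erase_insert ha, sh_X, smul_eq_mul, smul_eq_mul, Finset.mul_sum, add_comm]
    congr 1
    · ring
    · apply Finset.sum_congr rfl
      intro i hi
      have hia : i ≠ a := fun h => ha (h ▸ hi)
      rw [Finset.erase_insert_of_ne (Ne.symm hia), Finset.prod_insert]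
      · ring
      · intro h; exact ha (Finset.mem_of_mem_erase h)

/-- power sum -/
noncomputable def ps (n s : ℕ) : MvPolynomial (Fin n) T := ∑ i, X i ^ s

lemma sh_Psi (s : ℕ) (f : MvPolynomial (Fin n) T) : sh s (Psi n f) = Psi n (ps n s * f) := by
  classical
  induction f using MvPolynomial.induction_on' with
  | monomial α a =>
    have h1 : (monomial α a : MvPolynomial (Fin n) T) = a • monomial α 1 := by
      rw [smul_monomial, smul_eq_mul, mul_one]
    rw [h1, map_smul, mul_smul_comm, Derivation.map_smul, map_smul]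
    congr 1
    rw [Psi_monomial, monomial_tp, sh_prod, ps, Finset.sum_mul, map_sum]
    apply Finset.sum_congr rfl
    intro i _
    rw [X_pow_eq_monomial, monomial_mul, mul_one, Psi_monomial, monomial_tp,
      ← Finset.mul_prod_erase Finset.univ _ (Finset.mem_univ i)]
    congr 1
    · simp [add_comm]
    · apply Finset.prod_congr rfl
      intro j hj
      have : j ≠ i := Finset.ne_of_mem_erase hj
      simp [Finsupp.single_apply, Ne.symm this]
  | add p q hp hq => simp only [map_add, mul_add, hp, hq]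

lemma dv_Psi (f : MvPolynomial (Fin n) T) : dv (Psi n f) = Psi n (ps n 1 * f) := by
  rw [dv_eq_sh, sh_Psi]

/-- the symbol polynomials -/
noncomputable def g3 (n : ℕ) : MvPolynomial (Fin n) T := ps n 1 ^ 3 - ps n 3
noncomputable def g5 (n : ℕ) : MvPolynomial (Fin n) T := ps n 1 ^ 5 - ps n 5

lemma pb_X2_Psi (f : MvPolynomial (Fin n) T) : pb (X 2) (Psi n f) = Psi n (g3 n * f) := by
  rw [pb_X2, dv_Psi, dv_Psi, dv_Psi, sh_Psi, ← map_sub]
  congr 1; rw [g3]; ring

lemma pb_X4_Psi (f : MvPolynomial (Fin n) T) : pb (X 4) (Psi n f) = Psi n (g5 n * f) := by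
  rw [pb_X4, dv_Psi, dv_Psi, dv_Psi, dv_Psi, dv_Psi, sh_Psi, ← map_sub]
  congr 1; rw [g5]; ring

lemma tp_mapDomain (σ : Equiv.Perm (Fin n)) (α : Fin n →₀ ℕ) :
    tp (Finsupp.mapDomain σ α) = tp α := by
  rw [tp, tp, ← Equiv.sum_comp σ]
  apply Finset.sum_congr rfl
  intro i _
  rw [Finsupp.mapDomain_apply σ.injective]

lemma Psi_rename (σ : Equiv.Perm (Fin n)) (f : MvPolynomial (Fin n) T) :
    Psi n (rename σ f) = Psi n f := by
  induction f using MvPolynomial.induction_on' with
  | monomial α a => rw [rename_monomial, Psi_monomial, Psi_monomial, tp_mapDomain]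
  | add p q hp hq => simp only [map_add, hp, hq]

lemma tp_apply (α : Fin n →₀ ℕ) (k : ℕ) :
    tp α k = Fintype.card {i // α i = k} := by
  classical
  rw [tp, Finsupp.finsetSum_apply, Fintype.card_subtype, Finset.card_filter]
  apply Finset.sum_congr rfl
  intro i _
  rw [Finsupp.single_apply]

lemma tp_eq {α β : Fin n →₀ ℕ} (h : tp α = tp β) :
    ∃ σ : Equiv.Perm (Fin n), Finsupp.mapDomain σ α = β := by
  classical
  have e : ∀ k, Nonempty ({i // α i = k} ≃ {i // β i = k}) := by
    intro k
    refine ⟨Fintype.equivOfCardEq ?_⟩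
    rw [← tp_apply, ← tp_apply, h]
  refine ⟨Equiv.ofFiberEquiv (fun k => (e k).some), ?_⟩
  ext i
  obtain ⟨j, rfl⟩ := (Equiv.ofFiberEquiv (fun k => (e k).some)).surjective i
  rw [Finsupp.mapDomain_apply (Equiv.injective _)]
  exact (Equiv.ofFiberEquiv_map _ j).symm

lemma coeff_Psi (f : MvPolynomial (Fin n) T) (α : Fin n →₀ ℕ) (hf : f.IsSymmetric) :
    coeff (tp α) (Psi n f) = ((f.support.filter (fun β => tp β = tp α)).card : T) * coeff α f := by
  classical
  have h1 : Psi n f = ∑ β ∈ f.support, monomial (tp β) (coeff β f) := by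
    conv_lhs => rw [f.as_sum, map_sum]
    exact Finset.sum_congr rfl (fun β _ => Psi_monomial β _)
  rw [h1, coeff_sum]
  simp only [coeff_monomial]
  rw [← Finset.sum_filter]
  have h2 : ∀ β ∈ f.support.filter (fun β => tp β = tp α), coeff β f = coeff α f := by
    intro β hβ
    obtain ⟨σ, hσ⟩ := tp_eq (Finset.mem_filter.1 hβ).2
    rw [← hσ]
    conv_rhs => rw [← hf σ]
    rw [coeff_rename_mapDomain _ σ.injective]
  rw [Finset.sum_congr rfl h2, Finset.sum_const, nsmul_eq_mul]

lemma Psi_inj [IsDomain T] [CharZero T] {f : MvPolynomial (Fin n) T} (hf : f.IsSymmetric)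
    (h : Psi n f = 0) : f = 0 := by
  classical
  ext α
  rw [coeff_zero]
  by_contra hne
  have h1 := coeff_Psi f α hf
  rw [h, coeff_zero] at h1
  have h2 := (mul_eq_zero.1 h1.symm).resolve_right hne
  rw [Nat.cast_eq_zero, Finset.card_eq_zero, Finset.filter_eq_empty_iff] at h2
  exact h2 (mem_support_iff.2 hne) rfl

lemma exists_tp {d : ℕ →₀ ℕ} (h : Finsupp.weight pw d = n) : ∃ α : Fin n →₀ ℕ, tp α = d := by
  classical
  have hc : (Finsupp.toMultiset d).card = n := by
    rw [Finsupp.card_toMultiset, ← h, Finsupp.weight_apply]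
    apply Finsupp.sum_congr
    intro i _
    simp [pw]
  obtain ⟨l, hl⟩ := Quot.exists_rep (Finsupp.toMultiset d)
  have hl' : (l : Multiset ℕ) = Finsupp.toMultiset d := hl
  have hlen : l.length = n := by rw [← hc, ← hl']; rfl
  subst hlen
  refine ⟨Finsupp.equivFunOnFinite.symm (fun i => l.get i), ?_⟩
  apply Multiset.toFinsupp.symm.injective
  change Finsupp.toMultiset _ = Finsupp.toMultiset _
  rw [tp, map_sum, ← hl']
  simp only [Finsupp.toMultiset_single, one_smul, Finsupp.equivFunOnFinite_symm_apply_apply]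
  have h3 : (l : Multiset ℕ) = ((List.ofFn (fun i => l.get i) : List ℕ) : Multiset ℕ) := by
    rw [List.ofFn_get]
  rw [h3, ← Fin.univ_val_map (fun i => l.get i)]
  have h5 := Multiset.sum_map_singleton
    ((Finset.univ : Finset (Fin l.length)).val.map (fun i => l.get i))
  rw [Multiset.map_map] at h5
  exact h5

end

end Pool.Agent.Work.MP_c4d6c8_mp
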