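import Pool.Agent.Work.MP_c4d6c8_mp.Trans

set_option autoImplicit false
set_option linter.unusedSimpArgs false

namespace Pool.Agent.Work.MP_c4d6c8_mp

open MvPolynomial

section
variable {F : Type*} [Field F]

lemma ps_one_ne {n : ℕ} (hn : 1 ≤ n) : (ps n 1 : MvPolynomial (Fin n) F) ≠ 0 := by
  intro h
  have h1 := congrArg (coeff (Finsupp.single (⟨0, by omega⟩ : Fin n) 1)) h
  rw [ps, coeff_sum, Finset.sum_eq_single (⟨0, by omega⟩ : Fin n)] at h1
  · rw [pow_one, coeff_X, if_pos rfl, coeff_zero] at h1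
    exact one_ne_zero h1
  · intro i _ hi
    rw [pow_one, coeff_X, if_neg]
    intro h2
    exact hi (Finsupp.single_left_injective one_ne_zero h2)
  · intro h2; exact absurd (Finset.mem_univ _) h2

lemma cc_pb (A B : MvPolynomial ℕ F) : constantCoeff (pb A B) = 0 := by
  rw [pb, map_sub, cc_evoM, cc_evoM, cc_dv, cc_dv]; ring

variable [CharZero F]

lemma ker_dv {A : MvPolynomial ℕ F} (h : dv A = 0) (h0 : constantCoeff A = 0) : A = 0 := by
  apply eq_zero_of_comp
  intro n
  rcases n with _ | n
  · rw [pa_zero (comp_pa 0 A)]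
    have h2 : coeff 0 (comp 0 A) = coeff 0 A := by
      classical
      rw [coeff_weightedHomogeneousComponent, if_pos]
      simp
    rw [h2]
    have h3 : coeff 0 A = 0 := h0
    rw [h3, C_0]
  · have h1 := graded_comp (ω := pw) (s := 0)
      ((dv (T := F) : MvPolynomial ℕ F →ₗ[F] MvPolynomial ℕ F))
      (fun m B hB => dv_pa hB) A (n + 1)
    have h2 : dv (comp (n + 1) A) = 0 := by
      have h3 : dv (comp (n + 1) A) = comp (n + 1 + 0) (dv A) := h1.symm
      rw [h3, h, comp_zero]
    obtain ⟨f, hf, hfA, _⟩ := exists_sym (comp_pa (n + 1) A)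
    rw [← hfA, dv_Psi] at h2
    have h3 := Psi_inj ((ps_symm 1).mul hf) h2
    rw [← hfA, (mul_eq_zero.1 h3).resolve_left (ps_one_ne (by omega)), map_zero]

lemma rel_pb (io : PowerSeries ℂ →+* F) {P Q : DiffSeries}
    (h : FlowsCommute (dXs P) (dXs Q)) (n N : ℕ) :
    ∑ p ∈ Finset.HasAntidiagonal.antidiagonal n, ∑ q ∈ Finset.HasAntidiagonal.antidiagonal N,
      pb (PowerSeries.coeff q.1 (Phi io (PowerSeries.coeff p.1 P)))
        (PowerSeries.coeff q.2 (Phi io (PowerSeries.coeff p.2 Q))) = 0 := by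
  set a : ℕ → ℕ → MvPolynomial ℕ F := fun i A => PowerSeries.coeff A (Phi io (PowerSeries.coeff i P))
    with ha
  set b : ℕ → ℕ → MvPolynomial ℕ F := fun i A => PowerSeries.coeff A (Phi io (PowerSeries.coeff i Q))
    with hb
  change ∑ p ∈ Finset.HasAntidiagonal.antidiagonal n, ∑ q ∈ Finset.HasAntidiagonal.antidiagonal N,
      pb (a p.1 q.1) (b p.2 q.2) = 0
  apply ker_dv
  · have h1 := congrArg (PowerSeries.coeff N) (rel_S io h n)
    rw [map_sum, map_zero] at h1
    simp only [map_sub, coeff_evoS, coeff_dvS] at h1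
    have h2 : ∑ p ∈ Finset.HasAntidiagonal.antidiagonal n,
        (∑ q ∈ Finset.HasAntidiagonal.antidiagonal N, evo (dv (a p.1 q.1)) (dv (b p.2 q.2))
        - ∑ q ∈ Finset.HasAntidiagonal.antidiagonal N, evo (dv (b p.1 q.1)) (dv (a p.2 q.2))) = 0 :=
      h1
    rw [Finset.sum_sub_distrib] at h2
    have h3 : ∑ p ∈ Finset.HasAntidiagonal.antidiagonal n,
        ∑ q ∈ Finset.HasAntidiagonal.antidiagonal N, evo (dv (b p.1 q.1)) (dv (a p.2 q.2)) =
        ∑ p ∈ Finset.HasAntidiagonal.antidiagonal n,
        ∑ q ∈ Finset.HasAntidiagonal.antidiagonal N, evo (dv (b p.2 q.2)) (dv (a p.1 q.1)) := by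
      rw [← Finset.Nat.sum_antidiagonal_swap]
      apply Finset.sum_congr rfl
      intro p _
      rw [← Finset.Nat.sum_antidiagonal_swap]
      rfl
    rw [h3, ← Finset.sum_sub_distrib] at h2
    rw [map_sum, ← neg_eq_zero, ← Finset.sum_neg_distrib, ← h2]
    apply Finset.sum_congr rfl
    intro p _
    rw [map_sum, ← Finset.sum_neg_distrib, ← Finset.sum_sub_distrib]
    apply Finset.sum_congr rfl
    intro q _
    rw [dv_pb]; ring
  · rw [map_sum]
    apply Finset.sum_eq_zero
    intro p _
    rw [map_sum]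
    apply Finset.sum_eq_zero
    intro q _
    exact cc_pb _ _

end

section
variable {F : Type*} [Field F]

/-- coefficients of `Phi` are weight homogeneous -/
lemma Phi_wt (io : PowerSeries ℂ →+* F) (f : DiffPoly) :
    ∀ N, Wt (PowerSeries.coeff N (Phi io f)) N := by
  induction f using MvPolynomial.induction_on with
  | C a =>
    intro N
    rw [Phi_C, coeff_Tay]
    split_ifs with h
    · rw [mul_comm]
      apply IsWeightedHomogeneous.C_mul
      have h1 := (wt_X (T := F) 0).pow (N / 2)
      obtain ⟨k, rfl⟩ := h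
      convert h1 using 1
      simp; omega
    · exact isWeightedHomogeneous_zero _ _ _
  | add p q hp hq => intro N; rw [map_add, map_add]; exact (hp N).add (hq N)
  | mul_X p i hp =>
    intro N
    rw [map_mul, PowerSeries.coeff_mul]
    apply IsWeightedHomogeneous.sum
    intro q hq
    rw [Finset.HasAntidiagonal.mem_antidiagonal] at hq
    have h1 : Wt (PowerSeries.coeff q.2 (Phi io (X i))) q.2 := by
      rw [Phi_X, PowerSeries.coeff_X_pow_mul']
      split_ifs with h2
      · rw [PowerSeries.coeff_C]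
        split_ifs with h3
        · have h4 := wt_X (T := F) (i + 1)
          convert h4 using 1
          omega
        · exact isWeightedHomogeneous_zero _ _ _
      · exact isWeightedHomogeneous_zero _ _ _
    rw [← hq]
    exact (hp q.1).mul h1

/-- the order of `Phi` of a homogeneous differential polynomial -/
lemma Phi_order (io : PowerSeries ℂ →+* F) {f : DiffPoly} {i : ℕ}
    (hf : IsWeightedHomogeneous (fun j : ℕ => j + 1) f i) :
    PowerSeries.X ^ i ∣ Phi io f := by
  induction hf using IsWeightedHomogeneous.induction_on with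
  | zero => rw [map_zero]; exact dvd_zero _
  | add p q hp hq h1 h2 => rw [map_add]; exact dvd_add h1 h2
  | monomial d r hr =>
    have h0 : ∀ (d : ℕ →₀ ℕ) (r : PowerSeries ℂ),
        PowerSeries.X ^ (Finsupp.weight (fun j : ℕ => j + 1) d) ∣ Phi io (monomial d r) := by
      intro d
      induction d using Finsupp.induction_linear with
      | zero => intro r; simp
      | add f g hf hg =>
        intro r
        have h1 : monomial (f + g) r = monomial f r * monomial g (1 : PowerSeries ℂ) := by
          rw [monomial_mul, mul_one]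
        rw [h1, map_mul, map_add, pow_add]
        exact mul_dvd_mul (hf r) (hg 1)
      | single k n =>
        intro r
        have h1 : monomial (Finsupp.single k n) r = C r * X k ^ n := by
          rw [X_pow_eq_monomial, C_mul_monomial, mul_one]
        rw [h1, map_mul, map_pow, Phi_X, Finsupp.weight_single, smul_eq_mul, mul_comm n, pow_mul]
        apply Dvd.dvd.mul_left
        apply pow_dvd_pow_of_dvd
        apply Dvd.dvd.mul_right
        exact pow_dvd_pow _ (by omega)
    rw [← hr]
    exact h0 d r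

lemma Phi_coeff_zero (io : PowerSeries ℂ →+* F) {f : DiffPoly} {i N : ℕ}
    (hf : IsWeightedHomogeneous (fun j : ℕ => j + 1) f i) (hN : N < i) :
    PowerSeries.coeff N (Phi io f) = 0 :=
  PowerSeries.X_pow_dvd_iff.1 (Phi_order io hf) N hN

/-- total coefficient of weight `N` -/
noncomputable def tot (io : PowerSeries ℂ →+* F) (P : DiffSeries) (N : ℕ) : MvPolynomial ℕ F :=
  ∑ i ∈ Finset.range (N + 1), PowerSeries.coeff N (Phi io (PowerSeries.coeff i P))

lemma tot_wt (io : PowerSeries ℂ →+* F) (P : DiffSeries) (N : ℕ) : Wt (tot io P N) N := by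
  apply IsWeightedHomogeneous.sum
  intro i _
  exact Phi_wt io _ N

lemma box {M : Type*} [AddCommMonoid M] (g : ℕ → ℕ → M) (N : ℕ)
    (hg : ∀ i j, (N < i ∨ N < j) → g i j = 0) :
    ∑ i ∈ Finset.range (N + 1), ∑ j ∈ Finset.range (N + 1), g i j =
      ∑ n ∈ Finset.range (2 * N + 1), ∑ p ∈ Finset.HasAntidiagonal.antidiagonal n, g p.1 p.2 := by
  classical
  rw [Finset.sum_sigma' (Finset.range (2 * N + 1)), ← Finset.sum_product']
  symm
  rw [← Finset.sum_filter_add_sum_filter_not _ (fun x => x.2.1 ≤ N ∧ x.2.2 ≤ N)]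
  have h1 : ∑ x ∈ ((Finset.range (2 * N + 1)).sigma
      fun n => Finset.HasAntidiagonal.antidiagonal n).filter
      (fun x => ¬ (x.2.1 ≤ N ∧ x.2.2 ≤ N)), g x.2.1 x.2.2 = 0 := by
    apply Finset.sum_eq_zero
    intro x hx
    rw [Finset.mem_filter] at hx
    apply hg
    have := hx.2
    omega
  rw [h1, add_zero]
  apply Finset.sum_nbij' (i := fun x => (x.2.1, x.2.2)) (j := fun p => ⟨p.1 + p.2, (p.1, p.2)⟩)
  · rintro ⟨n, ⟨a, b⟩⟩ h
    rw [Finset.mem_filter] at h
    obtain ⟨_, h2⟩ := h
    dsimp only at h2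
    rw [Finset.mem_product, Finset.mem_range, Finset.mem_range]
    dsimp only
    omega
  · rintro ⟨a, b⟩ h
    rw [Finset.mem_product, Finset.mem_range, Finset.mem_range] at h
    dsimp only at h
    rw [Finset.mem_filter, Finset.mem_sigma, Finset.mem_range,
      Finset.HasAntidiagonal.mem_antidiagonal]
    dsimp only
    omega
  · rintro ⟨n, ⟨a, b⟩⟩ h
    rw [Finset.mem_filter, Finset.mem_sigma, Finset.HasAntidiagonal.mem_antidiagonal] at h
    obtain ⟨⟨_, h1⟩, _⟩ := h
    dsimp only at h1
    subst h1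
    rfl
  · rintro ⟨a, b⟩ _
    rfl
  · rintro ⟨n, ⟨a, b⟩⟩ _
    rfl

lemma tot_rel [CharZero F] (io : PowerSeries ℂ →+* F) {P Q : DiffSeries}
    (hP : ∀ k, IsWeightedHomogeneous (fun j : ℕ => j + 1) (PowerSeries.coeff k P) k)
    (hQ : ∀ k, IsWeightedHomogeneous (fun j : ℕ => j + 1) (PowerSeries.coeff k Q) k)
    (h : FlowsCommute (dXs P) (dXs Q)) (N : ℕ) :
    ∑ q ∈ Finset.HasAntidiagonal.antidiagonal N, pb (tot io P q.1) (tot io Q q.2) = 0 := by
  have h1 : ∀ q ∈ Finset.HasAntidiagonal.antidiagonal N, pb (tot io P q.1) (tot io Q q.2) =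
      ∑ i ∈ Finset.range (N + 1), ∑ j ∈ Finset.range (N + 1),
        pb (PowerSeries.coeff q.1 (Phi io (PowerSeries.coeff i P)))
        (PowerSeries.coeff q.2 (Phi io (PowerSeries.coeff j Q))) := by
    intro q hq
    rw [Finset.HasAntidiagonal.mem_antidiagonal] at hq
    have h2 : ∀ (R : DiffSeries)
        (_ : ∀ k, IsWeightedHomogeneous (fun j : ℕ => j + 1) (PowerSeries.coeff k R) k) (m : ℕ)
        (_ : m ≤ N), tot io R m =
        ∑ i ∈ Finset.range (N + 1), PowerSeries.coeff m (Phi io (PowerSeries.coeff i R)) := by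
      intro R hR m hm
      rw [tot]
      apply Finset.sum_subset
      · intro i hi
        rw [Finset.mem_range] at hi ⊢
        omega
      · intro i _ hi
        rw [Finset.mem_range] at hi
        exact Phi_coeff_zero io (hR i) (by omega)
    rw [h2 P hP q.1 (by omega), h2 Q hQ q.2 (by omega)]
    have h3 : ∀ (s : Finset ℕ) (g : ℕ → MvPolynomial ℕ F) (B : MvPolynomial ℕ F),
        pb (∑ i ∈ s, g i) B = ∑ i ∈ s, pb (g i) B := by
      classical
      intro s g B
      induction s using Finset.induction_on with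
      | empty => simp [pb_zero_left]
      | insert a s ha ih => rw [Finset.sum_insert ha, pb_add_left, ih, Finset.sum_insert ha]
    have h4 : ∀ (s : Finset ℕ) (g : ℕ → MvPolynomial ℕ F) (B : MvPolynomial ℕ F),
        pb B (∑ i ∈ s, g i) = ∑ i ∈ s, pb B (g i) := by
      classical
      intro s g B
      induction s using Finset.induction_on with
      | empty => simp [pb_zero_right]
      | insert a s ha ih => rw [Finset.sum_insert ha, pb_add_right, ih, Finset.sum_insert ha]
    rw [h3]
    apply Finset.sum_congr rfl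
    intro i _
    rw [h4]
  rw [Finset.sum_congr rfl h1, Finset.sum_comm]
  have h5 : ∀ i ∈ Finset.range (N + 1), ∑ q ∈ Finset.HasAntidiagonal.antidiagonal N,
      ∑ j ∈ Finset.range (N + 1),
        pb (PowerSeries.coeff q.1 (Phi io (PowerSeries.coeff i P)))
        (PowerSeries.coeff q.2 (Phi io (PowerSeries.coeff j Q))) =
      ∑ j ∈ Finset.range (N + 1), ∑ q ∈ Finset.HasAntidiagonal.antidiagonal N,
        pb (PowerSeries.coeff q.1 (Phi io (PowerSeries.coeff i P)))
        (PowerSeries.coeff q.2 (Phi io (PowerSeries.coeff j Q))) :=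
    fun i _ => Finset.sum_comm
  rw [Finset.sum_congr rfl h5]
  rw [box (fun i j => ∑ q ∈ Finset.HasAntidiagonal.antidiagonal N,
        pb (PowerSeries.coeff q.1 (Phi io (PowerSeries.coeff i P)))
        (PowerSeries.coeff q.2 (Phi io (PowerSeries.coeff j Q)))) N]
  · apply Finset.sum_eq_zero
    intro n _
    exact rel_pb io h n N
  · intro i j hij
    apply Finset.sum_eq_zero
    intro q hq
    rw [Finset.HasAntidiagonal.mem_antidiagonal] at hq
    rcases hij with hi | hj
    · rw [Phi_coeff_zero io (hP i) (by omega), pb_zero_left]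
    · rw [Phi_coeff_zero io (hQ j) (by omega), pb_zero_right]

end

end Pool.Agent.Work.MP_c4d6c8_mp
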