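import Pool.Agent.Work.MP_c4d6c8_mp.Psi

set_option autoImplicit false
set_option linter.unusedSimpArgs false

namespace Pool.Agent.Work.MP_c4d6c8_mp

open MvPolynomial

section
variable {F : Type*} [Field F] [CharZero F] {n : ℕ}

lemma exists_sym_mono (α : Fin n →₀ ℕ) (a : F) :
    ∃ f : MvPolynomial (Fin n) F, f.IsSymmetric ∧ Psi n f = monomial (tp α) a ∧
      ∀ β ∈ f.support, tp β = tp α := by
  classical
  set N : F := (Fintype.card (Equiv.Perm (Fin n)) : F) with hN
  have hN0 : N ≠ 0 := by
    rw [hN]; exact Nat.cast_ne_zero.2 Fintype.card_ne_zero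
  refine ⟨∑ σ : Equiv.Perm (Fin n), rename σ (monomial α (a / N)), ?_, ?_, ?_⟩
  · intro e
    rw [map_sum]
    rw [← Equiv.sum_comp (Equiv.mulLeft e)
      (fun σ : Equiv.Perm (Fin n) => rename σ (monomial α (a / N)))]
    apply Finset.sum_congr rfl
    intro σ _
    rw [rename_rename]; rfl
  · rw [map_sum]
    simp only [Psi_rename, Psi_monomial]
    rw [Finset.sum_const, Finset.card_univ, ← Nat.cast_smul_eq_nsmul F,
      ← hN, smul_monomial]
    congr 1
    rw [smul_eq_mul]
    field_simp
  · intro β hβ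
    have h1 := MvPolynomial.support_sum hβ
    rw [Finset.mem_biUnion] at h1
    obtain ⟨σ, _, h2⟩ := h1
    rw [rename_monomial] at h2
    have h3 := Finset.mem_singleton.1 (support_monomial_subset h2)
    rw [h3, tp_mapDomain]

lemma exists_sym_aux {A : MvPolynomial ℕ F} (hA : Pa A n) (S : Finset (ℕ →₀ ℕ))
    (hS : S ⊆ A.support) :
    ∃ f : MvPolynomial (Fin n) F, f.IsSymmetric ∧
      Psi n f = ∑ d ∈ S, monomial d (coeff d A) ∧ ∀ β ∈ f.support, tp β ∈ S := by
  classical
  induction S using Finset.induction_on with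
  | empty => exact ⟨0, IsSymmetric.zero, by simp, by simp⟩
  | insert d S hd ih =>
    obtain ⟨f, hf, hf2, hf3⟩ := ih ((Finset.subset_insert d S).trans hS)
    have hd2 : d ∈ A.support := hS (Finset.mem_insert_self d S)
    have hw : Finsupp.weight pw d = n := hA (mem_support_iff.1 hd2)
    obtain ⟨α, rfl⟩ := exists_tp hw
    obtain ⟨g, hg, hg2, hg3⟩ := exists_sym_mono (F := F) α (coeff (tp α) A)
    refine ⟨g + f, hg.add hf, ?_, ?_⟩
    · rw [map_add, hg2, hf2, Finset.sum_insert hd]
    · intro β hβ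
      rcases Finset.mem_union.1 (support_add hβ) with h | h
      · rw [hg3 β h]; exact Finset.mem_insert_self _ _
      · exact Finset.mem_insert_of_mem (hf3 β h)

lemma exists_sym {A : MvPolynomial ℕ F} (hA : Pa A n) :
    ∃ f : MvPolynomial (Fin n) F, f.IsSymmetric ∧ Psi n f = A ∧
      ∀ β ∈ f.support, tp β ∈ A.support := by
  obtain ⟨f, h1, h2, h3⟩ := exists_sym_aux hA A.support (Finset.Subset.refl _)
  exact ⟨f, h1, h2.trans A.as_sum.symm, h3⟩

end

section
variable {T : Type*} [CommRing T] {n : ℕ}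

lemma weight_wt_tp (α : Fin n →₀ ℕ) : Finsupp.weight wt (tp α) = α.degree + 2 * n := by
  rw [tp, map_sum]
  simp only [Finsupp.weight_single, wt, smul_eq_mul, one_mul]
  rw [Finset.sum_add_distrib, Finsupp.degree_eq_sum]
  simp [mul_comm]

lemma weight_pw_tp (α : Fin n →₀ ℕ) : Finsupp.weight pw (tp α) = n := by
  rw [tp, map_sum]
  simp [Finsupp.weight_single, pw]

lemma Psi_pa (f : MvPolynomial (Fin n) T) : Pa (Psi n f) n := by
  induction f using MvPolynomial.induction_on' with
  | monomial α a =>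
    rw [Psi_monomial]
    exact isWeightedHomogeneous_monomial _ _ _ (weight_pw_tp α)
  | add p q hp hq => rw [map_add]; exact hp.add hq

lemma Psi_wt {f : MvPolynomial (Fin n) T} {h : ℕ} (hf : f.IsHomogeneous h) :
    Wt (Psi n f) (h + 2 * n) := by
  have h1 : Psi n f = ∑ β ∈ f.support, monomial (tp β) (coeff β f) := by
    conv_lhs => rw [f.as_sum, map_sum]
    exact Finset.sum_congr rfl (fun β _ => Psi_monomial β _)
  rw [h1]
  apply IsWeightedHomogeneous.sum
  intro β hβ
  apply isWeightedHomogeneous_monomial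
  rw [weight_wt_tp]
  have := hf (mem_support_iff.1 hβ)
  rw [← this, Finsupp.degree_eq_weight_one]
  rfl

lemma hom_of_wt {f : MvPolynomial (Fin n) T} {A : MvPolynomial ℕ T} {h : ℕ}
    (hA : Wt A (h + 2 * n)) (hs : ∀ β ∈ f.support, tp β ∈ A.support) : f.IsHomogeneous h := by
  intro β hβ
  have h1 := hA (mem_support_iff.1 (hs β (mem_support_iff.2 hβ)))
  rw [weight_wt_tp] at h1
  have h2 : β.degree = h := by omega
  rw [← h2, Finsupp.degree_eq_weight_one]
  rfl

lemma der_prod_zero {ι : Type*} (D : Derivation T (MvPolynomial ℕ T) (MvPolynomial ℕ T))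
    (S : Finset ι) (g : ι → MvPolynomial ℕ T) (h : ∀ i ∈ S, D (g i) = 0) :
    D (∏ i ∈ S, g i) = 0 := by
  classical
  induction S using Finset.induction_on with
  | empty => simp
  | insert a S ha ih =>
    rw [Finset.prod_insert ha, Derivation.leibniz, ih (fun i hi => h i (Finset.mem_insert_of_mem hi)),
      h a (Finset.mem_insert_self a S), smul_zero, smul_zero, add_zero]

lemma nab0_Psi {f : MvPolynomial (Fin n) T} (h : ∀ β ∈ f.support, ∀ i, 1 ≤ β i) :
    nab 0 (Psi n f) = 0 := by
  have h1 : Psi n f = ∑ β ∈ f.support, monomial (tp β) (coeff β f) := by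
    conv_lhs => rw [f.as_sum, map_sum]
    exact Finset.sum_congr rfl (fun β _ => Psi_monomial β _)
  rw [h1, map_sum]
  apply Finset.sum_eq_zero
  intro β hβ
  have h2 : (monomial (tp β) (coeff β f) : MvPolynomial ℕ T) = C (coeff β f) * ∏ i, X (β i) := by
    rw [← monomial_tp, C_mul_monomial, mul_one]
  rw [h2, Derivation.leibniz, derivation_C, der_prod_zero]
  · simp
  · intro i _
    have := h β hβ i
    rw [nab_X, zero_pow (by omega), C_0]

end

end Pool.Agent.Work.MP_c4d6c8_mp
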