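import Pool.Agent.Work.MP_c4d6c8_mp.Alg

set_option autoImplicit false
set_option linter.unusedSimpArgs false

namespace Pool.Agent.Work.MP_c4d6c8_mp

open MvPolynomial

/-- coefficient derivation -/
noncomputable abbrev Dc : Derivation ℂ (PowerSeries ℂ) (PowerSeries ℂ) :=
  PowerSeries.derivative ℂ

lemma nat_succ_ne (n : ℕ) : ((n : PowerSeries ℂ) + 1) ≠ 0 := by
  have h1 : ((n : PowerSeries ℂ) + 1) = PowerSeries.C ((n : ℂ) + 1) := by simp
  rw [h1]
  intro h
  have h2 := congrArg (PowerSeries.coeff 0) h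
  rw [PowerSeries.coeff_zero_C, map_zero] at h2
  exact Nat.cast_add_one_ne_zero n h2

/-- divided derivative -/
noncomputable def hs (j : ℕ) (f : PowerSeries ℂ) : PowerSeries ℂ :=
  PowerSeries.C ((j.factorial : ℂ)⁻¹) * (Dc^[j] f)

lemma hs_zero (f : PowerSeries ℂ) : hs 0 f = f := by simp [hs]

lemma Dc_C_mul (a : ℂ) (f : PowerSeries ℂ) :
    Dc (PowerSeries.C a * f) = PowerSeries.C a * Dc f := by
  simp [Derivation.leibniz]

lemma hs_succ (j : ℕ) (f : PowerSeries ℂ) :
    ((j : PowerSeries ℂ) + 1) * hs (j + 1) f = Dc (hs j f) := by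
  rw [hs, hs, Dc_C_mul, Function.iterate_succ_apply', ← mul_assoc]
  congr 1
  have h1 : ((j : PowerSeries ℂ) + 1) = PowerSeries.C ((j : ℂ) + 1) := by simp
  rw [h1, ← map_mul]
  congr 1
  rw [Nat.factorial_succ]
  push_cast
  have h2 : ((j.factorial : ℂ)) ≠ 0 := Nat.cast_ne_zero.2 (Nat.factorial_ne_zero j)
  have h3 : ((j : ℂ) + 1) ≠ 0 := Nat.cast_add_one_ne_zero j
  field_simp

lemma iter_Dc_add (j : ℕ) (f g : PowerSeries ℂ) : Dc^[j] (f + g) = Dc^[j] f + Dc^[j] g := by
  induction j with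
  | zero => rfl
  | succ n ih => rw [Function.iterate_succ_apply', ih, map_add, ← Function.iterate_succ_apply' (f := Dc),
      ← Function.iterate_succ_apply' (f := Dc)]

lemma hs_add (j : ℕ) (f g : PowerSeries ℂ) : hs j (f + g) = hs j f + hs j g := by
  rw [hs, iter_Dc_add, mul_add]; rfl

lemma Dc_hs (j : ℕ) (f : PowerSeries ℂ) : Dc (hs j f) = hs j (Dc f) := by
  rw [hs, hs, Dc_C_mul, ← Function.iterate_succ_apply' (f := Dc), Function.iterate_succ_apply]

lemma hs_mul (j : ℕ) (f g : PowerSeries ℂ) :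
    hs j (f * g) = ∑ p ∈ Finset.HasAntidiagonal.antidiagonal j, hs p.1 f * hs p.2 g := by
  induction j with
  | zero => simp [hs_zero]
  | succ n ih =>
    have h0 : ((n : PowerSeries ℂ) + 1) ≠ 0 := nat_succ_ne n
    apply mul_left_cancel₀ h0
    rw [hs_succ, ih, map_sum]
    have h1 : ∀ p ∈ Finset.HasAntidiagonal.antidiagonal n, Dc (hs p.1 f * hs p.2 g) =
        ((p.1 : PowerSeries ℂ) + 1) * (hs (p.1 + 1) f * hs p.2 g)
          + ((p.2 : PowerSeries ℂ) + 1) * (hs p.1 f * hs (p.2 + 1) g) := by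
      intro p _
      rw [Derivation.leibniz, ← hs_succ, ← hs_succ, smul_eq_mul, smul_eq_mul]
      ring
    rw [Finset.sum_congr rfl h1, Finset.sum_add_distrib]
    have h2 : ∑ p ∈ Finset.HasAntidiagonal.antidiagonal (n + 1),
        (p.1 : PowerSeries ℂ) * (hs p.1 f * hs p.2 g) =
        ∑ p ∈ Finset.HasAntidiagonal.antidiagonal n,
          ((p.1 : PowerSeries ℂ) + 1) * (hs (p.1 + 1) f * hs p.2 g) := by
      rw [Finset.Nat.sum_antidiagonal_succ]
      simp
    have h3 : ∑ p ∈ Finset.HasAntidiagonal.antidiagonal (n + 1),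
        (p.2 : PowerSeries ℂ) * (hs p.1 f * hs p.2 g) =
        ∑ p ∈ Finset.HasAntidiagonal.antidiagonal n,
          ((p.2 : PowerSeries ℂ) + 1) * (hs p.1 f * hs (p.2 + 1) g) := by
      rw [Finset.Nat.sum_antidiagonal_succ']
      simp
    rw [← h2, ← h3, ← Finset.sum_add_distrib, Finset.mul_sum]
    apply Finset.sum_congr rfl
    intro p hp
    have h4 : p.1 + p.2 = n + 1 := Finset.HasAntidiagonal.mem_antidiagonal.1 hp
    have h5 : (p.1 : PowerSeries ℂ) + (p.2 : PowerSeries ℂ) = (n : PowerSeries ℂ) + 1 := by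
      exact_mod_cast congrArg (Nat.cast : ℕ → PowerSeries ℂ) h4
    rw [← h5]; ring

lemma hs_C (j : ℕ) (a : ℂ) : hs j (PowerSeries.C a) = if j = 0 then PowerSeries.C a else 0 := by
  rcases j with _ | j
  · simp [hs_zero]
  · rw [if_neg (Nat.succ_ne_zero j), hs, Function.iterate_succ_apply]
    have h1 : Dc (PowerSeries.C a) = 0 := PowerSeries.derivative_C
    have h2 : ∀ k, Dc^[k] (0 : PowerSeries ℂ) = 0 := by
      intro k
      induction k with
      | zero => rfl
      | succ n ih => rw [Function.iterate_succ_apply', ih, map_zero]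
    rw [h1, h2, mul_zero]

/-- Taylor expansion `f ↦ ∑ f^{(j)}/j! s^j`. -/
noncomputable def Tay0 : PowerSeries ℂ →+* PowerSeries (PowerSeries ℂ) where
  toFun f := PowerSeries.mk fun j => hs j f
  map_zero' := by
    ext j
    have := hs_C j 0
    rw [map_zero] at this
    simp [this]
  map_one' := by
    ext j
    have := hs_C j 1
    rw [map_one] at this
    rw [PowerSeries.coeff_mk, this, PowerSeries.coeff_one]
  map_add' f g := by
    ext j; simp [hs_add]
  map_mul' f g := by
    ext1 j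
    rw [PowerSeries.coeff_mk, hs_mul, PowerSeries.coeff_mul]
    simp

end Pool.Agent.Work.MP_c4d6c8_mp
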