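import Pool.Agent.Work.MP_c4d6c8_mp.Phi

set_option autoImplicit false
set_option linter.unusedSimpArgs false

namespace Pool.Agent.Work.MP_c4d6c8_mp

open MvPolynomial

section
variable {T : Type*} [CommRing T]

lemma dvS_X_pow (m : ℕ) (A : PowerSeries (MvPolynomial ℕ T)) :
    dvS (PowerSeries.X ^ m * A) = PowerSeries.X ^ m * dvS A := by
  have h : dvS (PowerSeries.X ^ m : PowerSeries (MvPolynomial ℕ T)) = 0 := by
    ext1 n
    rw [coeff_dvS, PowerSeries.coeff_X_pow, map_zero]
    split_ifs <;> simp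
  rw [dvS_mul, h, mul_zero, add_zero]

lemma dvS_X (A : PowerSeries (MvPolynomial ℕ T)) :
    dvS (PowerSeries.X * A) = PowerSeries.X * dvS A := by
  have := dvS_X_pow 1 A
  simpa using this

lemma evoS_X_pow (Z : PowerSeries (MvPolynomial ℕ T)) (m : ℕ)
    (A : PowerSeries (MvPolynomial ℕ T)) :
    evoS Z (PowerSeries.X ^ m * A) = PowerSeries.X ^ m * evoS Z A := by
  have h : evoS Z (PowerSeries.X ^ m : PowerSeries (MvPolynomial ℕ T)) = 0 := by
    ext1 n
    rw [coeff_evoS, map_zero]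
    apply Finset.sum_eq_zero
    intro p _
    rw [PowerSeries.coeff_X_pow]
    split_ifs <;> simp
  rw [evoS_mul, h, mul_zero, add_zero]

lemma evoS_C (Z : PowerSeries (MvPolynomial ℕ T)) (k : ℕ) :
    evoS Z (PowerSeries.C (X k)) = dvS^[k] Z := by
  have h : ∀ k n, PowerSeries.coeff n (dvS^[k] Z) = (dvM 0)^[k] (PowerSeries.coeff n Z) := by
    intro k n
    induction k with
    | zero => rfl
    | succ m ih => rw [Function.iterate_succ_apply', coeff_dvS, ih, iter_dvM_succ, dvM_zero]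
  ext1 n
  rw [coeff_evoS, h, Finset.sum_eq_single (n, 0)]
  · simp
  · rintro ⟨p, q⟩ hpq hne
    rw [Finset.HasAntidiagonal.mem_antidiagonal] at hpq
    have hq : q ≠ 0 := by
      rintro rfl
      apply hne
      simp only [add_zero] at hpq
      rw [hpq]
    rw [PowerSeries.coeff_C, if_neg hq, map_zero]
  · intro h; exact absurd (by rw [Finset.HasAntidiagonal.mem_antidiagonal, add_zero]) h

lemma evoS_X_left (Z A : PowerSeries (MvPolynomial ℕ T)) :
    evoS (PowerSeries.X * Z) A = PowerSeries.X * evoS Z A := by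
  ext1 n
  rcases n with _ | n
  · rw [coeff_evoS, PowerSeries.coeff_zero_X_mul]
    simp [evoM_zero_left]
  · rw [PowerSeries.coeff_succ_X_mul, coeff_evoS, coeff_evoS,
      Finset.Nat.sum_antidiagonal_succ]
    simp [PowerSeries.coeff_succ_X_mul, evoM_zero_left]

end

section
variable {F : Type*} [Field F] (io : PowerSeries ℂ →+* F)

lemma der_Tay (D : Derivation F (MvPolynomial ℕ F) (MvPolynomial ℕ F)) (a : PowerSeries ℂ)
    (q : ℕ) : D (PowerSeries.coeff q (Tay io a)) =
      PowerSeries.coeff q (PowerSeries.X ^ 2 * Tay io (Dc a)) * D (X 0) := by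
  rw [coeff_Tay, PowerSeries.coeff_X_pow_mul']
  by_cases hq : 2 ∣ q
  · obtain ⟨k, rfl⟩ := hq
    rw [if_pos (Dvd.intro k rfl), Nat.mul_div_cancel_left k two_pos]
    rcases k with _ | k
    · simp
    · rw [if_pos (by omega), coeff_Tay, if_pos (by omega)]
      have h1 : (2 * (k + 1) - 2) / 2 = k := by omega
      rw [h1, Derivation.leibniz, derivation_C, smul_zero, zero_add, Derivation.leibniz_pow,
        Nat.add_sub_cancel, smul_eq_mul, smul_eq_mul, nsmul_eq_mul, ← Dc_hs, ← hs_succ, map_mul,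
        map_add, map_natCast, map_one, C_mul, map_add, C_1, map_natCast]
      push_cast
      ring
  · rw [if_neg hq, map_zero]
    by_cases h2 : 2 ≤ q
    · rw [if_pos h2, coeff_Tay, if_neg, zero_mul]
      intro h3
      apply hq
      have := (Nat.dvd_add_right (Nat.dvd_refl 2)).2 h3
      rwa [Nat.add_sub_cancel' h2] at this
    · rw [if_neg h2, zero_mul]

lemma dvS_Tay (a : PowerSeries ℂ) :
    dvS (Tay io a) = PowerSeries.X ^ 2 * (PowerSeries.C (X 1) * Tay io (Dc a)) := by
  ext1 n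
  rw [coeff_dvS, der_Tay, dv_X, ← mul_assoc, mul_comm (PowerSeries.X ^ 2) (PowerSeries.C (X 1)),
    mul_assoc, PowerSeries.coeff_C_mul, mul_comm]

lemma evoS_Tay (Z : PowerSeries (MvPolynomial ℕ F)) (a : PowerSeries ℂ) :
    evoS Z (Tay io a) = PowerSeries.X ^ 2 * (Z * Tay io (Dc a)) := by
  have h : PowerSeries.X ^ 2 * (Z * Tay io (Dc a)) = Z * (PowerSeries.X ^ 2 * Tay io (Dc a)) := by
    ring
  rw [h]
  ext1 n
  rw [coeff_evoS, PowerSeries.coeff_mul]
  apply Finset.sum_congr rfl
  intro p _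
  rw [der_Tay, evoM_X, Function.iterate_zero, id, mul_comm]

lemma trans_gen (g : ℕ → DiffPoly) (s : PowerSeries (MvPolynomial ℕ F))
    (Δ : PowerSeries (MvPolynomial ℕ F) → PowerSeries (MvPolynomial ℕ F))
    (hadd : ∀ A B, Δ (A + B) = Δ A + Δ B) (hmul : ∀ A B, Δ (A * B) = A * Δ B + B * Δ A)
    (hC : ∀ a, Δ (Phi io (C a)) = s * (Phi io (g 0) * Phi io (C (Dc a))))
    (hX : ∀ j, Δ (Phi io (X j)) = s * Phi io (g (j + 1))) (f : DiffPoly) :
    Δ (Phi io f) = s * Phi io (EE g f) := by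
  induction f using MvPolynomial.induction_on with
  | C a => rw [hC, EE_C, map_mul]
  | add p q hp hq => rw [map_add, hadd, hp, hq, EE_add, map_add, mul_add]
  | mul_X p i hp =>
    rw [map_mul, hmul, hp, hX, EE_mul, EE_X, map_add, map_mul, map_mul]
    ring

lemma Phi_dX (f : DiffPoly) : Phi io (dX f) = PowerSeries.X * dvS (Phi io f) := by
  have h := trans_gen io (fun k => uvar (k + 1)) 1 (fun A => PowerSeries.X * dvS A)
    (fun A B => by rw [dvS_add, mul_add]) (fun A B => by rw [dvS_mul]; ring)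
    (fun a => by
      have h1 : uvar (0 + 1) = X 0 := rfl
      rw [Phi_C, Phi_C, h1, Phi_X, dvS_Tay]; ring)
    (fun j => by
      have h1 : uvar (j + 1 + 1) = X (j + 1) := rfl
      have h2 : dvS (PowerSeries.C (X (j + 1) : MvPolynomial ℕ F)) = PowerSeries.C (X (j + 2)) := by
        ext1 n
        rw [coeff_dvS, PowerSeries.coeff_C, PowerSeries.coeff_C]
        split_ifs
        · rw [dv_X]
        · rw [map_zero]
      rw [h1, Phi_X, Phi_X, dvS_X_pow, h2]; ring) f
  rw [dX_eq, ← one_mul (Phi io (EE _ f)), ← h]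

lemma Phi_dX_iter (f : DiffPoly) (k : ℕ) :
    Phi io (dX^[k] f) = PowerSeries.X ^ k * dvS^[k] (Phi io f) := by
  induction k with
  | zero => simp
  | succ n ih =>
    rw [Function.iterate_succ_apply', Phi_dX, ih, dvS_X_pow, Function.iterate_succ_apply']
    ring

lemma Phi_evol (Q R : DiffPoly) :
    evoS (Phi io Q) (Phi io R) = PowerSeries.X ^ 2 * Phi io (evol Q R) := by
  apply trans_gen io (fun k => dX^[k] Q) (PowerSeries.X ^ 2) (evoS (Phi io Q))
    (evoS_add _) (evoS_mul _)
  · intro a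
    rw [Phi_C, Phi_C, evoS_Tay]; rfl
  · intro j
    rw [Phi_X, evoS_X_pow, evoS_C, Phi_dX_iter]
    ring

/-- The flow relation, transported. -/
lemma rel_S {P Q : DiffSeries} (h : FlowsCommute (dXs P) (dXs Q)) (n : ℕ) :
    ∑ p ∈ Finset.HasAntidiagonal.antidiagonal n,
      (evoS (dvS (Phi io (PowerSeries.coeff p.1 P))) (dvS (Phi io (PowerSeries.coeff p.2 Q)))
        - evoS (dvS (Phi io (PowerSeries.coeff p.1 Q)))
          (dvS (Phi io (PowerSeries.coeff p.2 P)))) = 0 := by
  have h1 := congrArg (fun A => PowerSeries.X ^ 2 * Phi io A) (comm_coeff h n)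
  simp only [map_sum, map_sub, map_zero, mul_zero, Finset.mul_sum, mul_sub] at h1
  simp only [← Phi_evol, dXs_coeff, Phi_dX] at h1
  have h2 : ∀ A B : PowerSeries (MvPolynomial ℕ F),
      evoS (PowerSeries.X * A) (PowerSeries.X * B) = PowerSeries.X ^ 2 * evoS A B := by
    intro A B
    have h3 := evoS_X_pow (PowerSeries.X * A) 1 B
    rw [pow_one] at h3
    rw [h3, evoS_X_left]; ring
  simp only [h2, ← mul_sub, ← Finset.mul_sum] at h1
  exact (mul_eq_zero.1 h1).resolve_left (pow_ne_zero _ PowerSeries.X_ne_zero)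

end

end Pool.Agent.Work.MP_c4d6c8_mp
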